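import Pool.Agent.Helper960.Rou.Fub

open MeasureTheory Filter Topology
open scoped ContDiff

set_option linter.unusedVariables false

namespace Pool.Agent.Helper960.Rou

/-- the transition function -/
noncomputable def tr (h : ℝ → ℝ) (s t : ℝ) : ℝ :=
  if h t = 0 then (if 0 < s then 1 else 0) else Real.smoothTransition (s / h t + 1 / 2)

/-- the rough function -/
noncomputable def fr (m q : ℕ) (h : ℝ → ℝ) : Rn (m + 2) → ℂ :=
  fun x => ((x 0 ^ q / q.factorial * tr h (x 0) (x 1) : ℝ) : ℂ)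

theorem tr_far (h : ℝ → ℝ) (h0 : ∀ t, 0 ≤ h t) (s t : ℝ) (hst : h t / 2 < |s|) :
    tr h s t = if 0 < s then 1 else 0 := by
  unfold tr
  split_ifs with h1 h2 h2
  · rfl
  · rfl
  · apply Real.smoothTransition.one_of_one_le
    have hpos : 0 < h t := lt_of_le_of_ne (h0 t) (Ne.symm h1)
    rw [abs_of_pos h2] at hst
    have : 1 / 2 ≤ s / h t := by
      rw [le_div_iff₀ hpos]; linarith
    linarith
  · apply Real.smoothTransition.zero_of_nonpos
    have hpos : 0 < h t := lt_of_le_of_ne (h0 t) (Ne.symm h1)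
    rw [abs_of_nonpos (not_lt.mp h2)] at hst
    have : s / h t ≤ -(1 / 2) := by
      rw [div_le_iff₀ hpos]; linarith
    linarith

theorem D_fr_far_aux (m q : ℕ) (h : ℝ → ℝ) (hh : Continuous h) (h0 : ∀ t, 0 ≤ h t)
    (l : List (Fin (m + 2))) : ∀ (x : Rn (m + 2)), h (x 1) / 2 < |x 0| →
    D l (fr m q h) x = if 0 < x 0 ∧ (∀ i ∈ l, i = 0) ∧ l.length ≤ q then
      ((x 0 ^ (q - l.length) / (q - l.length).factorial : ℝ) : ℂ) else 0 := by
  induction l with
  | nil =>
    intro x hx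
    simp only [D, fr, tr_far h h0 _ _ hx, List.not_mem_nil, false_implies, implies_true,
      List.length_nil, Nat.zero_le, and_true, Nat.sub_zero]
    split_ifs <;> simp
  | cons i l ih =>
    intro x hx
    have hopen : IsOpen {y : Rn (m + 2) | h (y 1) / 2 < |y 0|} :=
      isOpen_lt (by fun_prop) (by fun_prop)
    have hne : x 0 ≠ 0 := by
      intro h1
      rw [h1, abs_zero] at hx
      have := h0 (x 1)
      linarith
    change fderiv ℝ (D l (fr m q h)) x (Pi.single i 1) = _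
    rcases lt_or_gt_of_ne hne with hneg | hpos
    · have hopen2 : IsOpen {y : Rn (m + 2) | y 0 < 0} := isOpen_lt (by fun_prop) (by fun_prop)
      have hev : D l (fr m q h) =ᶠ[𝓝 x] fun _ => (0 : ℂ) := by
        filter_upwards [hopen.mem_nhds hx, hopen2.mem_nhds hneg] with y hy1 hy2
        rw [ih y hy1, if_neg]
        intro h1
        exact absurd h1.1 (not_lt.mpr (le_of_lt hy2))
      rw [hev.fderiv_eq, if_neg (fun h1 => absurd h1.1 (not_lt.mpr (le_of_lt hneg)))]
      simp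
    · have hopen2 : IsOpen {y : Rn (m + 2) | 0 < y 0} := isOpen_lt (by fun_prop) (by fun_prop)
      by_cases hl : (∀ i ∈ l, i = 0) ∧ l.length ≤ q
      · have hev : D l (fr m q h) =ᶠ[𝓝 x] fun y =>
            ((y 0 ^ (q - l.length) / (q - l.length).factorial : ℝ) : ℂ) := by
          filter_upwards [hopen.mem_nhds hx, hopen2.mem_nhds hpos] with y hy1 hy2
          rw [ih y hy1, if_pos ⟨hy2, hl.1, hl.2⟩]
        rw [hev.fderiv_eq]
        have hd : HasFDerivAt (fun y : Rn (m + 2) =>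
            ((y 0 ^ (q - l.length) / (q - l.length).factorial : ℝ) : ℂ))
            (Complex.ofRealCLM.comp ((((q - l.length : ℕ) : ℝ) * x 0 ^ (q - l.length - 1) /
              (q - l.length).factorial) • (ContinuousLinearMap.proj (R := ℝ) (φ := fun _ : Fin (m+2) => ℝ) 0))) x := by
          refine Complex.ofRealCLM.hasFDerivAt.comp x ?_
          have h1 : HasFDerivAt (fun y : Rn (m + 2) => y 0)
            (ContinuousLinearMap.proj (R := ℝ) (φ := fun _ : Fin (m+2) => ℝ) 0) x :=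
            (ContinuousLinearMap.proj (R := ℝ) (φ := fun _ : Fin (m+2) => ℝ) 0).hasFDerivAt
          have h2 := (((hasDerivAt_pow (q - l.length) (x 0)).div_const
            ((q - l.length).factorial : ℝ))).comp_hasFDerivAt x h1
          exact h2
        rw [hd.fderiv]
        simp only [ContinuousLinearMap.comp_apply, ContinuousLinearMap.smul_apply,
          ContinuousLinearMap.proj_apply, Complex.ofRealCLM_apply, smul_eq_mul]
        by_cases hi : i = 0
        · subst hi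
          simp only [Pi.single_eq_same, mul_one]
          by_cases hlen : (0 :: l).length ≤ q
          · rw [if_pos ⟨hpos, by simpa using hl.1, hlen⟩]
            simp only [List.length_cons] at hlen ⊢
            obtain ⟨k, hk⟩ : ∃ k, q - l.length = k + 1 := ⟨q - l.length - 1, by omega⟩
            have hk2 : q - (l.length + 1) = k := by omega
            rw [hk, hk2, Nat.factorial_succ]
            congr 1
            push_cast
            have hf : (k.factorial : ℝ) ≠ 0 := by positivity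
            field_simp
          · rw [if_neg (fun h1 => hlen h1.2.2)]
            simp only [List.length_cons] at hlen
            have : q - l.length = 0 := by omega
            simp [this]
        · rw [if_neg, Pi.single_eq_of_ne (Ne.symm hi)]
          · simp
          · intro h1
            exact hi (h1.2.1 i (by simp))
      · have hev : D l (fr m q h) =ᶠ[𝓝 x] fun _ => (0 : ℂ) := by
          filter_upwards [hopen.mem_nhds hx, hopen2.mem_nhds hpos] with y hy1 hy2
          rw [ih y hy1, if_neg]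
          intro h1
          exact hl h1.2
        rw [hev.fderiv_eq, if_neg]
        · simp
        · intro h1
          apply hl
          refine ⟨fun j hj => h1.2.1 j (by simp [hj]), ?_⟩
          have := h1.2.2
          simp only [List.length_cons] at this
          omega

theorem fr_contDiffOn (m q : ℕ) (h : ℝ → ℝ) (hh : ContDiff ℝ ∞ h) (h0 : ∀ t, 0 ≤ h t) :
    ContDiffOn ℝ ∞ (fr m q h) {x | x 0 ≠ 0 ∨ h (x 1) ≠ 0} := by
  intro x hx
  apply ContDiffAt.contDiffWithinAt
  have hc := hh.continuous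
  by_cases h1 : h (x 1) = 0
  · have hx0 : x 0 ≠ 0 := by
      rcases hx with hx | hx
      · exact hx
      · exact absurd h1 hx
    have hopen : IsOpen {y : Rn (m + 2) | h (y 1) / 2 < |y 0|} :=
      isOpen_lt (by fun_prop) (by fun_prop)
    have hxm : x ∈ {y : Rn (m + 2) | h (y 1) / 2 < |y 0|} := by
      simp only [Set.mem_setOf_eq, h1, zero_div, abs_pos]
      exact hx0
    rcases lt_or_gt_of_ne hx0 with hneg | hpos
    · have hopen2 : IsOpen {y : Rn (m + 2) | y 0 < 0} := isOpen_lt (by fun_prop) (by fun_prop)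
      have hev : fr m q h =ᶠ[𝓝 x] fun _ => (0 : ℂ) := by
        filter_upwards [hopen.mem_nhds hxm, hopen2.mem_nhds hneg] with y hy1 hy2
        simp only [fr, tr_far h h0 _ _ hy1]
        rw [if_neg (not_lt.mpr (le_of_lt hy2))]
        simp
      exact (contDiffAt_const).congr_of_eventuallyEq hev
    · have hopen2 : IsOpen {y : Rn (m + 2) | 0 < y 0} := isOpen_lt (by fun_prop) (by fun_prop)
      have hev : fr m q h =ᶠ[𝓝 x] fun y => Complex.ofRealCLM (y 0 ^ q / q.factorial) := by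
        filter_upwards [hopen.mem_nhds hxm, hopen2.mem_nhds hpos] with y hy1 hy2
        simp only [fr, tr_far h h0 _ _ hy1]
        rw [if_pos hy2]
        simp
      refine ContDiffAt.congr_of_eventuallyEq ?_ hev
      fun_prop
  · have hopen : IsOpen {y : Rn (m + 2) | h (y 1) ≠ 0} :=
      isOpen_ne_fun (by fun_prop) (by fun_prop)
    have hev : fr m q h =ᶠ[𝓝 x] fun y => Complex.ofRealCLM (y 0 ^ q / q.factorial *
        Real.smoothTransition (y 0 / h (y 1) + 1 / 2)) := by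
      filter_upwards [hopen.mem_nhds h1] with y hy1
      simp only [fr, tr]
      rw [if_neg hy1]
      rfl
    refine ContDiffAt.congr_of_eventuallyEq ?_ hev
    have hs : ContDiff ℝ ∞ Real.smoothTransition := Real.smoothTransition.contDiff
    have hquot : ContDiffAt ℝ ∞ (fun y : Rn (m + 2) => y 0 / h (y 1) + 1 / 2) x := by
      refine ContDiffAt.add (ContDiffAt.div (by fun_prop) ?_ h1) contDiffAt_const
      exact (hh.contDiffAt).comp x (by fun_prop)
    have h3 : ContDiffAt ℝ ∞ (fun y : Rn (m + 2) =>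
        Real.smoothTransition (y 0 / h (y 1) + 1 / 2)) x :=
      (hs.contDiffAt).comp x hquot
    have h4 : ContDiffAt ℝ ∞ (fun y : Rn (m + 2) => y 0 ^ q / (q.factorial : ℝ) *
        Real.smoothTransition (y 0 / h (y 1) + 1 / 2)) x :=
      ContDiffAt.mul (by fun_prop) h3
    exact (Complex.ofRealCLM.contDiff.contDiffAt).comp x h4

theorem D_fr_far (m q : ℕ) (h : ℝ → ℝ) (hh : Continuous h) (h0 : ∀ t, 0 ≤ h t)
    (l : List (Fin (m + 2))) (x : Rn (m + 2)) (hx : h (x 1) / 2 < |x 0|) :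
    D l (fr m q h) x = if 0 < x 0 ∧ (∀ i ∈ l, i = 0) ∧ l.length ≤ q then
      ((x 0 ^ (q - l.length) / (q - l.length).factorial : ℝ) : ℂ) else 0 :=
  D_fr_far_aux m q h hh h0 l x hx

/-- one term -/
noncomputable def term (m q : ℕ) (h : ℝ → ℝ) (k : ℕ) (a ζ : ℝ → ℝ) : Rn (m + 2) → ℝ :=
  fun x => a (x 1) * h (x 1) ^ ((q : ℤ) - k) * ζ (x 0 / h (x 1))

/-- the sums of terms -/
noncomputable def K (m q : ℕ) (h : ℝ → ℝ) (k : ℕ) : AddSubmonoid (Rn (m + 2) → ℝ) :=
  AddSubmonoid.closure {F | ∃ a ζ : ℝ → ℝ, ContDiff ℝ ∞ a ∧ ContDiff ℝ ∞ ζ ∧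
    F = term m q h k a ζ}

theorem term_mem {m q : ℕ} {h : ℝ → ℝ} {k : ℕ} {a ζ : ℝ → ℝ} (ha : ContDiff ℝ ∞ a)
    (hζ : ContDiff ℝ ∞ ζ) : term m q h k a ζ ∈ K m q h k :=
  AddSubmonoid.subset_closure ⟨a, ζ, ha, hζ, rfl⟩

theorem term_hasFDerivAt {m q : ℕ} {h : ℝ → ℝ} (hh : ContDiff ℝ ∞ h) {k : ℕ} {a ζ : ℝ → ℝ}
    (ha : ContDiff ℝ ∞ a) (hζ : ContDiff ℝ ∞ ζ) (x : Rn (m + 2)) (hx : h (x 1) ≠ 0) :
    HasFDerivAt (term m q h k a ζ)
      ((term m q h (k + 1) (fun t => deriv a t * h t) ζ x +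
        term m q h (k + 1) (fun t => a t * (((q : ℤ) - k : ℤ) : ℝ) * deriv h t) ζ x +
        term m q h (k + 1) (fun t => - a t * deriv h t) (fun u => u * deriv ζ u) x) •
          (ContinuousLinearMap.proj (R := ℝ) (φ := fun _ : Fin (m+2) => ℝ) 1) +
        (term m q h (k + 1) a (deriv ζ) x) •
          (ContinuousLinearMap.proj (R := ℝ) (φ := fun _ : Fin (m+2) => ℝ) 0)) x := by
  have p0 : HasFDerivAt (fun y : Rn (m + 2) => y 0)
      (ContinuousLinearMap.proj (R := ℝ) (φ := fun _ : Fin (m+2) => ℝ) 0) x :=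
    (ContinuousLinearMap.proj (R := ℝ) (φ := fun _ : Fin (m+2) => ℝ) 0).hasFDerivAt
  have p1 : HasFDerivAt (fun y : Rn (m + 2) => y 1)
      (ContinuousLinearMap.proj (R := ℝ) (φ := fun _ : Fin (m+2) => ℝ) 1) x :=
    (ContinuousLinearMap.proj (R := ℝ) (φ := fun _ : Fin (m+2) => ℝ) 1).hasFDerivAt
  have da : HasDerivAt a (deriv a (x 1)) (x 1) :=
    ((ha.differentiable (by simp)) (x 1)).hasDerivAt
  have dh : HasDerivAt h (deriv h (x 1)) (x 1) :=
    ((hh.differentiable (by simp)) (x 1)).hasDerivAt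
  have dζ : HasDerivAt ζ (deriv ζ (x 0 / h (x 1))) (x 0 / h (x 1)) :=
    ((hζ.differentiable (by simp)) _).hasDerivAt
  have da' := da.comp_hasFDerivAt x p1
  have dh' := dh.comp_hasFDerivAt x p1
  have dp := ((hasDerivAt_zpow ((q : ℤ) - k) (h (x 1)) (Or.inl hx)).comp (x 1) dh).comp_hasFDerivAt x p1
  have dinv := (dh.inv hx).comp_hasFDerivAt x p1
  have dq := p0.mul dinv
  have dζ0 : HasDerivAt ζ (deriv ζ (x 0 * (h (x 1))⁻¹)) (x 0 * (h (x 1))⁻¹) := by
    simpa [div_eq_mul_inv] using dζ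
  have dζ' := dζ0.comp_hasFDerivAt x dq
  have tot := (da'.mul dp).mul dζ'
  refine HasFDerivAt.congr_fderiv (tot.congr_of_eventuallyEq (Filter.Eventually.of_forall ?_)) ?_
  · intro y
    simp [term, div_eq_mul_inv]
  · ext v
    have e1 : h (x 1) ^ ((q : ℤ) - k) = h (x 1) ^ ((q : ℤ) - ((k + 1 : ℕ) : ℤ)) * h (x 1) := by
      rw [← zpow_add_one₀ hx]
      congr 1
      push_cast
      ring
    have e2 : h (x 1) ^ ((q : ℤ) - k - 1) = h (x 1) ^ ((q : ℤ) - ((k + 1 : ℕ) : ℤ)) := by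
      congr 1
      push_cast
      ring
    simp only [ContinuousLinearMap.add_apply, ContinuousLinearMap.smul_apply,
      ContinuousLinearMap.proj_apply, smul_eq_mul, Function.comp_apply, term, Pi.mul_apply, Pi.inv_apply]
    rw [e1, e2]
    simp only [div_eq_mul_inv]
    field_simp
    ring

theorem K_deriv {m q : ℕ} {h : ℝ → ℝ} (hh : ContDiff ℝ ∞ h) {k : ℕ} {F : Rn (m + 2) → ℝ}
    (hF : F ∈ K m q h k) (i : Fin (m + 2)) :
    (∀ x, h (x 1) ≠ 0 → DifferentiableAt ℝ F x) ∧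
    ∃ G ∈ K m q h (k + 1), ∀ x, h (x 1) ≠ 0 → fderiv ℝ F x (Pi.single i 1) = G x := by
  induction hF using AddSubmonoid.closure_induction with
  | mem F hF =>
    obtain ⟨a, ζ, ha, hζ, rfl⟩ := hF
    have hda : ContDiff ℝ ∞ (deriv a) := by
      have := (contDiff_infty_iff_deriv (𝕜 := ℝ)).1 ha
      exact this.2
    have hdh : ContDiff ℝ ∞ (deriv h) := ((contDiff_infty_iff_deriv (𝕜 := ℝ)).1 hh).2
    have hdζ : ContDiff ℝ ∞ (deriv ζ) := ((contDiff_infty_iff_deriv (𝕜 := ℝ)).1 hζ).2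
    refine ⟨fun x hx => (term_hasFDerivAt hh ha hζ x hx).differentiableAt, ?_⟩
    refine ⟨fun x => (Pi.single (M := fun _ => ℝ) i (1:ℝ) (1 : Fin (m+2))) * (term m q h (k + 1) (fun t => deriv a t * h t) ζ x +
        term m q h (k + 1) (fun t => a t * (((q : ℤ) - k : ℤ) : ℝ) * deriv h t) ζ x +
        term m q h (k + 1) (fun t => - a t * deriv h t) (fun u => u * deriv ζ u) x) +
        (Pi.single (M := fun _ => ℝ) i (1:ℝ) (0 : Fin (m+2))) * (term m q h (k + 1) a (deriv ζ) x), ?_, ?_⟩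
    · have key : ∀ (c : ℝ) (a ζ : ℝ → ℝ), ContDiff ℝ ∞ a → ContDiff ℝ ∞ ζ →
          (fun x => c * term m q h (k+1) a ζ x) ∈ K m q h (k+1) := by
        intro c a ζ ha hζ
        have : (fun x => c * term m q h (k+1) a ζ x) = term m q h (k+1) (fun t => c * a t) ζ := by
          funext x
          simp only [term]
          ring
        rw [this]
        exact term_mem (by fun_prop) hζ
      have : (fun x => (Pi.single (M := fun _ => ℝ) i (1:ℝ) (1 : Fin (m+2))) * (term m q h (k + 1) (fun t => deriv a t * h t) ζ x +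
        term m q h (k + 1) (fun t => a t * (((q : ℤ) - k : ℤ) : ℝ) * deriv h t) ζ x +
        term m q h (k + 1) (fun t => - a t * deriv h t) (fun u => u * deriv ζ u) x) +
        (Pi.single (M := fun _ => ℝ) i (1:ℝ) (0 : Fin (m+2))) * (term m q h (k + 1) a (deriv ζ) x)) =
        (fun x => (Pi.single (M := fun _ => ℝ) i (1:ℝ) (1 : Fin (m+2))) * term m q h (k + 1) (fun t => deriv a t * h t) ζ x) +
        (fun x => (Pi.single (M := fun _ => ℝ) i (1:ℝ) (1 : Fin (m+2))) * term m q h (k + 1) (fun t => a t * (((q : ℤ) - k : ℤ) : ℝ) * deriv h t) ζ x) +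
        (fun x => (Pi.single (M := fun _ => ℝ) i (1:ℝ) (1 : Fin (m+2))) * term m q h (k + 1) (fun t => - a t * deriv h t) (fun u => u * deriv ζ u) x) +
        (fun x => (Pi.single (M := fun _ => ℝ) i (1:ℝ) (0 : Fin (m+2))) * (term m q h (k + 1) a (deriv ζ) x)) := by
        funext x
        simp only [Pi.add_apply]
        ring
      rw [this]
      refine add_mem (add_mem (add_mem ?_ ?_) ?_) ?_
      · exact key _ _ _ (by fun_prop) hζ
      · exact key _ _ _ (by fun_prop) hζ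
      · exact key _ _ _ (by fun_prop) (by fun_prop)
      · exact key _ _ _ ha hdζ
    · intro x hx
      rw [(term_hasFDerivAt hh ha hζ x hx).fderiv]
      simp only [ContinuousLinearMap.add_apply, ContinuousLinearMap.smul_apply,
        ContinuousLinearMap.proj_apply, smul_eq_mul]
      ring
  | zero =>
    refine ⟨fun x _ => ?_, 0, zero_mem _, ?_⟩
    · exact differentiableAt_const (c := (0:ℝ))
    · intro x _
      have : (0 : Rn (m + 2) → ℝ) = fun _ => 0 := rfl
      rw [this]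
      simp
  | add F1 F2 _ _ h1 h2 =>
    obtain ⟨d1, G1, hG1, e1⟩ := h1
    obtain ⟨d2, G2, hG2, e2⟩ := h2
    refine ⟨fun x hx => (d1 x hx).add (d2 x hx), G1 + G2, add_mem hG1 hG2, ?_⟩
    intro x hx
    rw [fderiv_add (d1 x hx) (d2 x hx)]
    simp [e1 x hx, e2 x hx]

theorem K_bound {m q : ℕ} {h : ℝ → ℝ} (h0 : ∀ t, 0 ≤ h t)
    (h1 : ∀ t, h t ≤ 1) {k : ℕ} (hk : k ≤ q + 1) {F : Rn (m + 2) → ℝ}
    (hF : F ∈ K m q h k) (R : ℝ) :
    ∃ C : ℝ, ∀ x : Rn (m + 2), (∀ i, |x i| ≤ R) → h (x 1) ≠ 0 → |x 0| ≤ h (x 1) →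
      |F x| ≤ C / h (x 1) := by
  induction hF using AddSubmonoid.closure_induction with
  | mem F hF =>
    obtain ⟨a, ζ, ha, hζ, rfl⟩ := hF
    obtain ⟨A, hA⟩ := (isCompact_Icc (a := -R) (b := R)).exists_bound_of_continuousOn
      ha.continuous.continuousOn
    obtain ⟨Z, hZ⟩ := (isCompact_Icc (a := (-1:ℝ)) (b := 1)).exists_bound_of_continuousOn
      hζ.continuous.continuousOn
    refine ⟨A * Z, ?_⟩
    intro x hx hne hle
    have hpos : 0 < h (x 1) := lt_of_le_of_ne (h0 _) (Ne.symm hne)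
    have hA' := hA (x 1) (abs_le.1 (hx 1))
    have hZ' := hZ (x 0 / h (x 1)) (by
      rw [Set.mem_Icc, ← abs_le, abs_div, abs_of_pos hpos, div_le_one hpos]
      exact hle)
    simp only [Real.norm_eq_abs] at hA' hZ'
    have hA0 : 0 ≤ A := le_trans (abs_nonneg _) hA'
    have hZ0 : 0 ≤ Z := le_trans (abs_nonneg _) hZ'
    have hp : h (x 1) ^ ((q : ℤ) - k) ≤ (h (x 1))⁻¹ := by
      rw [← zpow_neg_one]
      exact zpow_le_zpow_right_of_le_one₀ hpos (h1 _) (by omega)
    have hp0 : 0 ≤ h (x 1) ^ ((q : ℤ) - k) := zpow_nonneg hpos.le _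
    simp only [term]
    rw [abs_mul, abs_mul, abs_of_nonneg hp0]
    calc |a (x 1)| * h (x 1) ^ ((q : ℤ) - k) * |ζ (x 0 / h (x 1))|
        ≤ A * (h (x 1))⁻¹ * Z := by gcongr
      _ = A * Z / h (x 1) := by rw [div_eq_mul_inv]; ring
  | zero =>
    refine ⟨0, fun x _ _ _ => ?_⟩
    simp
  | add F1 F2 _ _ h2 h3 =>
    obtain ⟨C1, hC1⟩ := h2
    obtain ⟨C2, hC2⟩ := h3
    refine ⟨C1 + C2, fun x hx hne hle => ?_⟩
    calc |(F1 + F2) x| ≤ |F1 x| + |F2 x| := abs_add_le _ _
      _ ≤ C1 / h (x 1) + C2 / h (x 1) := add_le_add (hC1 x hx hne hle) (hC2 x hx hne hle)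
      _ = (C1 + C2) / h (x 1) := by ring

theorem D_fr_K (m q : ℕ) (h : ℝ → ℝ) (hh : ContDiff ℝ ∞ h) (l : List (Fin (m + 2))) :
    ∃ F ∈ K m q h l.length, ∀ x, h (x 1) ≠ 0 → D l (fr m q h) x = ((F x : ℝ) : ℂ) := by
  have hc := hh.continuous
  induction l with
  | nil =>
    refine ⟨term m q h 0 (fun _ => (q.factorial : ℝ)⁻¹)
      (fun u => u ^ q * Real.smoothTransition (u + 1 / 2)), term_mem contDiff_const ?_, ?_⟩
    · have hs : ContDiff ℝ ∞ Real.smoothTransition := Real.smoothTransition.contDiff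
      exact ContDiff.mul (by fun_prop) (hs.comp (by fun_prop))
    · intro x hx
      simp only [D, fr, tr, if_neg hx, term]
      congr 1
      simp only [Nat.cast_zero, sub_zero, zpow_natCast, div_pow]
      have : h (x 1) ^ q ≠ 0 := pow_ne_zero _ hx
      field_simp
  | cons i l ih =>
    obtain ⟨F, hF, hFe⟩ := ih
    obtain ⟨hd, G, hG, hGe⟩ := K_deriv hh hF i
    refine ⟨G, hG, ?_⟩
    intro x hx
    change fderiv ℝ (D l (fr m q h)) x (Pi.single i 1) = _
    have hopen : IsOpen {y : Rn (m + 2) | h (y 1) ≠ 0} :=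
      isOpen_ne_fun (by fun_prop) (by fun_prop)
    have hev : D l (fr m q h) =ᶠ[𝓝 x] fun y => Complex.ofRealCLM (F y) := by
      filter_upwards [hopen.mem_nhds hx] with y hy1
      rw [hFe y hy1]
      rfl
    rw [hev.fderiv_eq]
    have h3 := (Complex.ofRealCLM.hasFDerivAt (x := F x)).comp x (hd x hx).hasFDerivAt
    have h4 : fderiv ℝ (fun y => Complex.ofRealCLM (F y)) x =
      Complex.ofRealCLM.comp (fderiv ℝ F x) := h3.fderiv
    rw [h4, ContinuousLinearMap.comp_apply, hGe x hx]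
    rfl

theorem D_fr_near (m q : ℕ) (h : ℝ → ℝ) (hh : ContDiff ℝ ∞ h) (h0 : ∀ t, 0 ≤ h t)
    (h1 : ∀ t, h t ≤ 1) (l : List (Fin (m + 2))) (hl : l.length ≤ q + 1) (R : ℝ) :
    ∃ C : ℝ, ∀ x : Rn (m + 2), (∀ i, |x i| ≤ R) → h (x 1) ≠ 0 → |x 0| ≤ h (x 1) →
      ‖D l (fr m q h) x‖ ≤ C / h (x 1) := by
  obtain ⟨F, hF, hFe⟩ := D_fr_K m q h hh l
  obtain ⟨C, hC⟩ := K_bound h0 h1 hl hF R
  refine ⟨C, fun x hx hne hle => ?_⟩
  rw [hFe x hne, Complex.norm_real]
  exact hC x hx hne hle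

end Pool.Agent.Helper960.Rou
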