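import Pool.Agent.Helper960.Rou.Fub

open MeasureTheory Filter Topology
open scoped ContDiff

set_option linter.unusedVariables false

namespace Pool.Agent.Helper960.Rou

theorem weak_gen (m : ℕ) (H : Rn m → ℂ) (i : Fin m) (ℓ : Rn m → ℝ)
    (hinv : ∀ (x : Rn m) (t : ℝ), ℓ (x + t • (Pi.single i 1 : Rn m)) = ℓ x)
    (hdiff : ∀ x, ℓ x ≠ 0 → DifferentiableAt ℝ H x)
    (hnull : volume {x | ℓ x = 0} = 0)
    (h1 : LocallyIntegrable H volume) (h2 : LocallyIntegrable (pd i H) volume)
    (φ : Rn m → ℂ) (hφ : ContDiff ℝ ∞ φ) (hφs : HasCompactSupport φ) :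
    ∫ x, H x * pd i φ x = - ∫ x, pd i H x * φ x := by
  classical
  let v : Rn m := Pi.single i 1
  let f : Rn m → ℂ := fun x => if ℓ x = 0 then 0 else H x
  let f' : Rn m → ℂ := fun x => if ℓ x = 0 then 0 else pd i H x
  have hae : ∀ᵐ x ∂(volume : Measure (Rn m)), ℓ x ≠ 0 := by
    rw [ae_iff]
    simpa using hnull
  have hf : f =ᵐ[volume] H := by
    filter_upwards [hae] with x hx
    simp only [f, if_neg hx]
  have hf' : f' =ᵐ[volume] pd i H := by
    filter_upwards [hae] with x hx
    simp only [f', if_neg hx]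
  have hpc : Continuous (pd i φ) := by
    have := hφ.continuous_fderiv (by simp)
    exact this.clm_apply continuous_const
  have hps : HasCompactSupport (pd i φ) := by
    have := hφs.fderiv_apply (𝕜 := ℝ) v
    exact this
  have i1 : Integrable (fun x => H x * pd i φ x) volume :=
    h1.integrable_smul_right_of_hasCompactSupport hpc hps
  have i2 : Integrable (fun x => pd i H x * φ x) volume :=
    h2.integrable_smul_right_of_hasCompactSupport hφ.continuous hφs
  have i3 : Integrable (fun x => H x * φ x) volume :=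
    h1.integrable_smul_right_of_hasCompactSupport hφ.continuous hφs
  have e1 : (fun x => f x * pd i φ x) =ᵐ[volume] fun x => H x * pd i φ x := by
    filter_upwards [hf] with x hx
    rw [hx]
  have e2 : (fun x => f' x * φ x) =ᵐ[volume] fun x => pd i H x * φ x := by
    filter_upwards [hf'] with x hx
    rw [hx]
  have e3 : (fun x => f x * φ x) =ᵐ[volume] fun x => H x * φ x := by
    filter_upwards [hf] with x hx
    rw [hx]
  have hline : ∀ x, HasLineDerivAt ℝ f (f' x) x v := by
    intro x
    unfold HasLineDerivAt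
    by_cases hx : ℓ x = 0
    · have a1 : (fun t : ℝ => f (x + t • v)) = fun _ => 0 := by
        funext t
        simp only [f]
        rw [if_pos (by rw [hinv]; exact hx)]
      have a2 : f' x = 0 := by simp only [f', if_pos hx]
      rw [a1, a2]
      exact hasDerivAt_const _ _
    · have a1 : (fun t : ℝ => f (x + t • v)) = fun t => H (x + t • v) := by
        funext t
        simp only [f]
        rw [if_neg (by rw [hinv]; exact hx)]
      have a2 : f' x = pd i H x := by simp only [f', if_neg hx]
      rw [a1, a2]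
      exact (hdiff x hx).hasFDerivAt.hasLineDerivAt v
  have key := integral_bilinear_hasLineDerivAt_right_eq_neg_left_of_integrable (μ := volume)
    (f := f) (f' := f') (g := φ) (g' := pd i φ) (v := v) (B := ContinuousLinearMap.mul ℝ ℂ)
    (i2.congr e2.symm) (i1.congr e1.symm) (i3.congr e3.symm) (fun x _ => hline x)
    (fun x _ => ((hφ.differentiable (by simp)) x).hasFDerivAt.hasLineDerivAt v)
  simp only [ContinuousLinearMap.mul_apply'] at key
  rw [integral_congr_ae e1, integral_congr_ae e2] at key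
  exact key

theorem weak_first (m : ℕ) (h : ℝ → ℝ) (hh : ContDiff ℝ ∞ h) (h0 : ∀ t, 0 ≤ h t)
    (hN : volume {t | h t = 0} = 0) (H : Rn (m + 2) → ℂ)
    (hH : ContDiffOn ℝ ∞ H {x | x 0 ≠ 0 ∨ h (x 1) ≠ 0}) (i : Fin (m + 2))
    (h1 : LocallyIntegrable H volume) (h2 : LocallyIntegrable (pd i H) volume)
    (φ : Rn (m + 2) → ℂ) (hφ : ContDiff ℝ ∞ φ) (hφs : HasCompactSupport φ) :
    ∫ x, H x * pd i φ x = - ∫ x, pd i H x * φ x := by
  have _ := h0
  have hopen : IsOpen {x : Rn (m + 2) | x 0 ≠ 0 ∨ h (x 1) ≠ 0} := by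
    have a1 : IsOpen {x : Rn (m + 2) | x 0 ≠ 0} :=
      isOpen_ne_fun (continuous_apply 0) continuous_const
    have a2 : IsOpen {x : Rn (m + 2) | h (x 1) ≠ 0} :=
      isOpen_ne_fun (hh.continuous.comp (continuous_apply 1)) continuous_const
    exact a1.union a2
  have hd : ∀ x ∈ {x : Rn (m + 2) | x 0 ≠ 0 ∨ h (x 1) ≠ 0}, DifferentiableAt ℝ H x := by
    intro x hx
    exact (hH.contDiffAt (hopen.mem_nhds hx)).differentiableAt (by simp)
  by_cases hi : i = 0
  · refine weak_gen (m + 2) H i (fun x => h (x 1)) ?_ (fun x hx => hd x (Or.inr hx)) ?_ h1 h2 φ hφ hφs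
    · intro x t
      have h10 : (1 : Fin (m + 2)) ≠ i := by
        rw [hi]
        simp [Fin.ext_iff]
      simp only [Pi.add_apply, Pi.smul_apply, Pi.single_eq_of_ne h10, smul_zero, add_zero]
    · exact null_coord (m + 2) 1 {t | h t = 0} hN
  · refine weak_gen (m + 2) H i (fun x => x 0) ?_ (fun x hx => hd x (Or.inl hx)) ?_ h1 h2 φ hφ hφs
    · intro x t
      have h10 : (0 : Fin (m + 2)) ≠ i := fun h => hi h.symm
      simp only [Pi.add_apply, Pi.smul_apply, Pi.single_eq_of_ne h10, smul_zero, add_zero]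
    · have := null_coord (m + 2) 0 {t | t = 0} (by simp)
      exact this

end Pool.Agent.Helper960.Rou
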