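import Pool.Agent.Helper960.Rou.Sob
import Pool.Agent.Helper960.Rou.Str
import Pool.Agent.Helper960.Rou.Wk

open MeasureTheory Filter Topology
open scoped ContDiff NNReal

namespace Pool.Agent.Helper960.Rou

section smooth

variable {n : ℕ}

lemma pd_ibp (i : Fin n) {H φ : Rn n → ℂ} (hH : ContDiff ℝ ∞ H) (hφ : ContDiff ℝ ∞ φ)
    (hc : HasCompactSupport φ) : ∫ x, H x * pd i φ x = - ∫ x, pd i H x * φ x := by
  have h1 : Integrable (fun x => pd i H x * φ x) :=
    integrable_mul_test (contDiff_pd i hH).continuous.locallyIntegrable hφ.continuous hc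
  have h2 : Integrable (fun x => H x * pd i φ x) :=
    integrable_mul_test hH.continuous.locallyIntegrable (contDiff_pd i hφ).continuous (hcs_pd i hc)
  have h3 : Integrable (fun x => H x * φ x) :=
    integrable_mul_test hH.continuous.locallyIntegrable hφ.continuous hc
  exact integral_mul_fderiv_eq_neg_fderiv_mul_of_integrable (v := (Pi.single i 1 : Rn n)) h1 h2 h3
    (fun x _ => (hH.differentiable (by simp)) x) (fun x _ => (hφ.differentiable (by simp)) x)

lemma isWeakD_smooth (l : List (Fin n)) {H : Rn n → ℂ} (hH : ContDiff ℝ ∞ H) :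
    IsWeakD l H (D l H) := by
  induction l with
  | nil => intro φ _ _; simp [D]
  | cons i l ih =>
    intro φ hφ hc
    rw [D_cons_comm i l hφ]
    rw [ih (pd i φ) (contDiff_pd i hφ) (hcs_pd i hc), pd_ibp i (contDiff_D l hH) hφ hc]
    simp only [List.length_cons, pow_succ, D]
    ring

lemma smooth_mem_W (s : ℕ) {H : Rn n → ℂ} (hH : ContDiff ℝ ∞ H) : H ∈ Wsub n s :=
  ⟨hH.continuous.locallyIntegrable, fun l _ =>
    ⟨D l H, (contDiff_D l hH).continuous.locallyIntegrable, isWeakD_smooth l hH⟩⟩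

lemma D_congr_open (l : List (Fin n)) {U : Set (Rn n)} (hU : IsOpen U) {f g : Rn n → ℂ}
    (h : ∀ x ∈ U, f x = g x) : ∀ x ∈ U, D l f x = D l g x := by
  induction l with
  | nil => exact h
  | cons i l ih =>
    intro x hx
    have hev : D l f =ᶠ[𝓝 x] D l g := by
      filter_upwards [hU.mem_nhds hx] with y hy
      exact ih y hy
    show fderiv ℝ (D l f) x _ = fderiv ℝ (D l g) x _
    rw [hev.fderiv_eq]

end smooth

section weakfr

variable {m q : ℕ}

/-- iterated first order weak derivatives -/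
lemma isWeakD_of_sing (h : ℝ → ℝ) (hh : ContDiff ℝ ∞ h) (h0 : ∀ t, 0 ≤ h t)
    (hN : volume {t | h t = 0} = 0) (H : Rn (m + 2) → ℂ)
    (hD : ∀ l : List (Fin (m + 2)), ContDiffOn ℝ ∞ (D l H) {x | x 0 ≠ 0 ∨ h (x 1) ≠ 0})
    (k : ℕ) (hint : ∀ l : List (Fin (m + 2)), l.length ≤ k → LocallyIntegrable (D l H) volume)
    (l : List (Fin (m + 2))) (hl : l.length ≤ k) : IsWeakD l H (D l H) := by
  induction l with
  | nil => intro φ _ _; simp [D]
  | cons i l ih =>
    intro φ hφ hc
    have hl' : l.length ≤ k := by simp at hl; omega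
    rw [D_cons_comm i l hφ]
    rw [ih hl' (pd i φ) (contDiff_pd i hφ) (hcs_pd i hc),
      weak_first m h hh h0 hN (D l H) (hD l) i (hint l hl') (hint (i :: l) hl) φ hφ hc]
    simp only [List.length_cons, pow_succ, D]
    ring

end weakfr

section functional

variable {n s : ℕ}

/-- bounded measurable functions supported in the cube `[-3,3]^n` -/
structure GoodB (b : Rn n → ℂ) : Prop where
  meas : Measurable b
  bdd : ∃ C : ℝ, ∀ x, ‖b x‖ ≤ C
  supp : ∀ x, b x ≠ 0 → x ∈ Set.Icc (fun _ => (-3 : ℝ)) (fun _ => 3)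

lemma Icc_sub_ball (x : Rn n) (hx : x ∈ Set.Icc (fun _ => (-3 : ℝ)) (fun _ => 3)) :
    x ∈ Metric.closedBall (0 : Rn n) ((3 : ℕ) : ℝ) := by
  rw [mem_closedBall_zero_iff, pi_norm_le_iff_of_nonneg (by norm_num)]
  intro i
  rw [Real.norm_eq_abs, abs_le]
  exact ⟨by exact_mod_cast hx.1 i, by exact_mod_cast hx.2 i⟩

lemma GoodB.integrable_mul {b : Rn n → ℂ} (hb : GoodB b) {g : Rn n → ℂ}
    (hg : LocallyIntegrable g volume) : Integrable (fun x => b x * g x) := by
  have h1 : IntegrableOn g (Metric.closedBall (0 : Rn n) ((3 : ℕ) : ℝ)) :=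
    hg.integrableOn_isCompact (isCompact_closedBall 0 _)
  obtain ⟨C, hC⟩ := hb.bdd
  have h2 : IntegrableOn (fun x => b x * g x) (Metric.closedBall (0 : Rn n) ((3 : ℕ) : ℝ)) := by
    refine Integrable.bdd_mul (c := C) h1 ?_ ?_
    · exact hb.meas.aestronglyMeasurable
    · exact Eventually.of_forall hC
  refine h2.integrable_of_forall_notMem_eq_zero fun x hx => ?_
  have : b x = 0 := by
    by_contra hne
    exact hx (Icc_sub_ball x (hb.supp x hne))
  simp [this]

/-- the functional `v ↦ ∫ b D^l v` -/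
noncomputable def lam (s : ℕ) {b : Rn n → ℂ} (hb : GoodB b) (l : List (Fin n)) :
    WSp n s →ₗ[ℂ] ℂ where
  toFun v := ∫ x, b x * wD l v x
  map_add' := by
    intro v w
    rw [← integral_add (hb.integrable_mul (wD_locInt l v)) (hb.integrable_mul (wD_locInt l w))]
    refine integral_congr_ae ?_
    filter_upwards [wD_add l v w] with x hx
    rw [hx]
    simp [mul_add]
  map_smul' := by
    intro c v
    simp only [RingHom.id_apply, smul_eq_mul]
    rw [← integral_const_mul]
    refine integral_congr_ae ?_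
    filter_upwards [wD_smul l c v] with x hx
    rw [hx]
    simp only [Pi.smul_apply, smul_eq_mul]
    ring

lemma lam_apply {b : Rn n → ℂ} (hb : GoodB b) (l : List (Fin n)) (v : WSp n s) :
    lam s hb l v = ∫ x, b x * wD l v x := rfl

lemma lam_continuous {b : Rn n → ℂ} (hb : GoodB b) (l : List (Fin n)) :
    Continuous (lam s hb l) := by
  obtain ⟨C, hC⟩ := hb.bdd
  have hC0 : 0 ≤ C := (norm_nonneg _).trans (hC 0)
  refine WithSeminorms.continuous_normedSpace_rng ℂ (withSeminorms_sn n s) _ ⟨{(l, 3)}, ⟨C, hC0⟩, ?_⟩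
  intro v
  simp only [Finset.sup_singleton]
  show ‖lam s hb l v‖ ≤ C * sn n s (l, 3) v
  rw [lam_apply]
  have e : sn n s (l, 3) v = ∫ x in Metric.closedBall (0 : Rn n) ((3 : ℕ) : ℝ), ‖wD l v x‖ := rfl
  rw [e, ← integral_const_mul]
  have h1 : ∫ x, b x * wD l v x =
      ∫ x in Metric.closedBall (0 : Rn n) ((3 : ℕ) : ℝ), b x * wD l v x := by
    rw [setIntegral_eq_integral_of_forall_compl_eq_zero]
    intro x hx
    have : b x = 0 := by
      by_contra hne
      exact hx (Icc_sub_ball x (hb.supp x hne))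
    simp [this]
  rw [h1]
  refine norm_integral_le_of_norm_le ((wD_intOn l v _).norm.const_mul C) ?_
  refine Eventually.of_forall fun x => ?_
  rw [norm_mul]
  exact mul_le_mul_of_nonneg_right (hC x) (norm_nonneg _)

end functional

end Pool.Agent.Helper960.Rou
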