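import Pool.Agent.Helper960.Rou.ZygA

open MeasureTheory Filter Topology

namespace Pool.Agent.Helper960.Rou.Zyg

lemma Fm_dist (m : ℕ) (x : ℝ) : dist (Fm m x) (Fm (m + 1) x) ≤ 1 * (1 / 4 : ℝ) ^ m := by
  rw [dist_comm, Real.dist_eq, one_mul]
  exact Fm_step m x

lemma exists_lim (x : ℝ) : ∃ y, Tendsto (fun m => Fm m x) atTop (𝓝 y) :=
  cauchySeq_tendsto_of_complete
    (cauchySeq_of_le_geometric (1 / 4 : ℝ) 1 (by norm_num) fun m => Fm_dist m x)

/-- distribution function of the singular Zygmund measure -/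
noncomputable def Fl (x : ℝ) : ℝ := (exists_lim x).choose

lemma Fl_tendsto (x : ℝ) : Tendsto (fun m => Fm m x) atTop (𝓝 (Fl x)) := (exists_lim x).choose_spec

lemma Fl_dist (m : ℕ) (x : ℝ) : |Fm m x - Fl x| ≤ 4 / 3 * (1 / 4 : ℝ) ^ m := by
  have h := dist_le_of_le_geometric_of_tendsto (1 / 4 : ℝ) 1 (by norm_num)
    (fun m => Fm_dist m x) (Fl_tendsto x) m
  rw [Real.dist_eq] at h
  refine h.trans (le_of_eq ?_)
  ring

lemma Fl_continuous : Continuous Fl := by
  have hu : TendstoUniformly Fm Fl atTop := by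
    rw [Metric.tendstoUniformly_iff]
    intro ε hε
    have h1 : Tendsto (fun m : ℕ => 4 / 3 * (1 / 4 : ℝ) ^ m) atTop (𝓝 (4 / 3 * 0)) :=
      (tendsto_pow_atTop_nhds_zero_of_lt_one (by norm_num) (by norm_num)).const_mul _
    rw [mul_zero] at h1
    filter_upwards [h1.eventually (gt_mem_nhds hε)] with m hm x
    rw [dist_comm, Real.dist_eq]
    exact (Fl_dist m x).trans_lt hm
  exact hu.continuous (Frequently.of_forall fun m => Fm_continuous m)

lemma Fl_mem (x : ℝ) : 0 ≤ Fl x ∧ Fl x ≤ 1 :=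
  ⟨ge_of_tendsto' (Fl_tendsto x) fun m => (Fm_mem m x).1,
    le_of_tendsto' (Fl_tendsto x) fun m => (Fm_mem m x).2⟩

lemma Fl_nonpos (x : ℝ) (hx : x ≤ 0) : Fl x = 0 := by
  refine tendsto_nhds_unique (Fl_tendsto x) ?_
  simp_rw [Fm_nonpos _ x hx]
  exact tendsto_const_nhds

lemma Fl_one_le (x : ℝ) (hx : 1 ≤ x) : Fl x = 1 := by
  refine tendsto_nhds_unique (Fl_tendsto x) ?_
  simp_rw [Fm_one_le _ x hx]
  exact tendsto_const_nhds

lemma Fl_zyg_nonneg (x t : ℝ) (ht : 0 ≤ t) :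
    |Fl (x + t) + Fl (x - t) - 2 * Fl x| ≤ 28 * t := by
  rcases eq_or_lt_of_le ht with h0 | h0
  · subst h0
    simp only [add_zero, sub_zero, mul_zero]
    rw [show Fl x + Fl x - 2 * Fl x = 0 by ring, abs_zero]
  rcases le_or_gt 1 t with h1 | h1
  · have a := Fl_mem (x + t)
    have b := Fl_mem (x - t)
    have c := Fl_mem x
    rw [abs_le]
    constructor <;> linarith [a.1, a.2, b.1, b.2, c.1, c.2]
  · -- choose m with (1/4)^(m+1) ≤ t ≤ (1/4)^m
    obtain ⟨m, hm1, hm2⟩ := exists_nat_pow_near_of_lt_one (x := t) (y := (1 / 4 : ℝ)) h0 h1.le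
      (by norm_num) (by norm_num)
    have hz := Fm_zyg sig_adjacent m x t ht hm2
    have d1 := Fl_dist m (x + t)
    have d2 := Fl_dist m (x - t)
    have d3 := Fl_dist m x
    have hp : (1 / 4 : ℝ) ^ m ≤ 4 * t := by
      have : (1 / 4 : ℝ) ^ (m + 1) = (1 / 4) ^ m * (1 / 4) := pow_succ _ _
      rw [this] at hm1
      linarith
    rw [abs_le] at hz d1 d2 d3 ⊢
    constructor <;> linarith [hz.1, hz.2, d1.1, d1.2, d2.1, d2.2, d3.1, d3.2]

lemma Fl_zyg (x t : ℝ) : |Fl (x + t) + Fl (x - t) - 2 * Fl x| ≤ 28 * |t| := by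
  rcases le_total 0 t with h | h
  · rw [abs_of_nonneg h]
    exact Fl_zyg_nonneg x t h
  · have h2 := Fl_zyg_nonneg x (-t) (by linarith)
    rw [abs_of_nonpos h]
    rw [show x + -t = x - t by ring, show x - -t = x + t by ring] at h2
    rw [show Fl (x + t) + Fl (x - t) - 2 * Fl x = Fl (x - t) + Fl (x + t) - 2 * Fl x by ring]
    exact h2

/-- the support -/
def NN : Set ℝ := ⋂ m, Nm m

lemma NN_compact : IsCompact NN := by
  have h : IsClosed NN := isClosed_iInter fun m => (isCompact_Nm m).isClosed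
  exact (isCompact_Nm 0).of_isClosed_subset h (Set.iInter_subset _ 0)

lemma NN_nonempty : NN.Nonempty := ⟨0, Set.mem_iInter.2 zero_mem_Nm⟩

lemma NN_sub : NN ⊆ Set.Icc 0 1 := (Set.iInter_subset _ 0).trans (Nm_sub_Icc 0)

lemma NN_null : volume NN = 0 := by
  refine le_antisymm (le_of_forall_pos_le_add fun ε hε => ?_) bot_le
  by_cases hε2 : ε = ⊤
  · rw [hε2]; simp
  obtain ⟨M, hM⟩ := act_small ε.toReal (ENNReal.toReal_pos hε.ne' hε2)
  calc volume NN ≤ volume (Nm M) := measure_mono (Set.iInter_subset _ M)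
    _ ≤ ENNReal.ofReal (act M 1) := volume_Nm M
    _ ≤ ENNReal.ofReal ε.toReal := ENNReal.ofReal_le_ofReal (hM M le_rfl).le
    _ = ε := ENNReal.ofReal_toReal hε2
    _ = 0 + ε := (zero_add _).symm

lemma Nm_antitone : Antitone Nm := antitone_nat_of_succ_le Nm_anti

lemma Fl_const (x s : ℝ) (hs : 0 ≤ s) (h : s < Metric.infDist x NN) (y : ℝ)
    (hy : y ∈ Set.Icc (x - s) (x + s)) : Fl y = Fl x := by
  have hdisj : ∀ z ∈ Set.Icc (x - s) (x + s), z ∉ NN := by
    intro z hz hzN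
    have h1 := Metric.infDist_le_dist_of_mem (x := x) hzN
    have h2 : dist x z ≤ s := by
      rw [Real.dist_eq, abs_le]
      constructor <;> linarith [hz.1, hz.2]
    linarith
  obtain ⟨M, hM⟩ : ∃ M, Set.Icc (x - s) (x + s) ∩ Nm M = ∅ := by
    by_contra hcon
    push Not at hcon
    have hne : ∀ m, (Set.Icc (x - s) (x + s) ∩ Nm m).Nonempty := fun m =>
      Set.nonempty_iff_ne_empty.2 (by simpa [Set.nonempty_iff_ne_empty] using hcon m)
    have := IsCompact.nonempty_iInter_of_sequence_nonempty_isCompact_isClosed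
      (fun m => Set.Icc (x - s) (x + s) ∩ Nm m)
      (fun m => Set.inter_subset_inter_right _ (Nm_anti m)) hne
      (isCompact_Icc.inter (isCompact_Nm 0))
      (fun m => (isCompact_Icc.inter (isCompact_Nm m)).isClosed)
    obtain ⟨z, hz⟩ := this
    rw [Set.mem_iInter] at hz
    exact hdisj z (hz 0).1 (Set.mem_iInter.2 fun m => (hz m).2)
  have hg : ∀ m, M ≤ m → ∀ z ∈ Set.Icc (x - s) (x + s), g m z = 0 := by
    intro m hm z hz
    by_contra hne
    have hpos : 0 < sig m ⌊(4 : ℝ) ^ m * z⌋ := by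
      rcases Nat.eq_zero_or_pos (sig m ⌊(4 : ℝ) ^ m * z⌋) with h0 | h0
      · exact absurd (by simp [g, h0]) hne
      · exact h0
    have hzN : z ∈ Nm m := ⟨_, hpos, Int.floor_le _, (Int.lt_floor_add_one _).le⟩
    have : z ∈ Set.Icc (x - s) (x + s) ∩ Nm M := ⟨hz, Nm_antitone hm hzN⟩
    rw [hM] at this
    exact this
  have hF : ∀ m, M ≤ m → Fm m y = Fm m x := by
    intro m hm
    have e1 := Fm_const m (x - s) (x + s) (by linarith) (hg m hm) y hy
    have e2 := Fm_const m (x - s) (x + s) (by linarith) (hg m hm) x ⟨by linarith, by linarith⟩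
    rw [e1, e2]
  refine tendsto_nhds_unique (Fl_tendsto y) ?_
  refine (Fl_tendsto x).congr' ?_
  filter_upwards [eventually_ge_atTop M] with m hm
  exact (hF m hm).symm

theorem exists_zygmund_sing : ∃ (F : ℝ → ℝ) (N : Set ℝ) (C : ℝ), Continuous F ∧
    (∀ x, 0 ≤ F x ∧ F x ≤ 1) ∧
    (∀ x, x ≤ 0 → F x = 0) ∧ (∀ x, 1 ≤ x → F x = 1) ∧
    IsCompact N ∧ N.Nonempty ∧ N ⊆ Set.Icc 0 1 ∧ volume N = 0 ∧
    (∀ x t : ℝ, |F (x + t) + F (x - t) - 2 * F x| ≤ C * |t|) ∧
    (∀ x s : ℝ, 0 ≤ s → s < Metric.infDist x N → ∀ y ∈ Set.Icc (x - s) (x + s), F y = F x) :=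
  ⟨Fl, NN, 28, Fl_continuous, Fl_mem, Fl_nonpos, Fl_one_le, NN_compact, NN_nonempty, NN_sub,
    NN_null, Fl_zyg, Fl_const⟩

end Pool.Agent.Helper960.Rou.Zyg
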