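import Pool.Agent.Helper960.Rou.Mass
import Pool.Agent.Helper960.Rou.Fun
import Pool.Agent.Helper960.Rou.Zyg

open MeasureTheory Filter Topology
open scoped ContDiff

namespace Pool.Agent.Helper960.Rou

/-- sign -/
noncomputable def sg (t : ℝ) : ℝ := if 0 < t then 1 else if t < 0 then -1 else 0

/-- indicator of the positive half line -/
noncomputable def hp (t : ℝ) : ℝ := if 0 < t then 1 else 0

/-- one sided cutoff -/
noncomputable def kp (t : ℝ) : ℝ := Real.smoothTransition (t - 1)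

/-- odd cutoff -/
noncomputable def kk (t : ℝ) : ℝ := kp t - kp (-t)

/-- rescaled cutoff -/
noncomputable def resc (c : ℝ → ℝ) (j : ℕ) (t : ℝ) : ℝ := c (((j : ℝ) + 1) * t)

lemma kp_smooth : ContDiff ℝ ∞ kp :=
  Real.smoothTransition.contDiff.comp (contDiff_id.sub contDiff_const)

lemma kk_smooth : ContDiff ℝ ∞ kk := kp_smooth.sub (kp_smooth.comp contDiff_neg)

lemma kp_zero {t : ℝ} (h : t ≤ 1) : kp t = 0 := Real.smoothTransition.zero_of_nonpos (by linarith)

lemma kp_one {t : ℝ} (h : 2 ≤ t) : kp t = 1 := Real.smoothTransition.one_of_one_le (by linarith)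

lemma kp_nonneg (t : ℝ) : 0 ≤ kp t := Real.smoothTransition.nonneg _

lemma kp_le (t : ℝ) : kp t ≤ 1 := Real.smoothTransition.le_one _

lemma kp_abs (t : ℝ) : |kp t| ≤ 1 := by rw [abs_of_nonneg (kp_nonneg t)]; exact kp_le t

lemma kk_zero {t : ℝ} (h : |t| ≤ 1) : kk t = 0 := by
  have := abs_le.1 h
  simp [kk, kp_zero this.2, kp_zero (show -t ≤ 1 by linarith [this.1])]

lemma kk_abs (t : ℝ) : |kk t| ≤ 1 := by
  unfold kk
  rw [abs_le]
  constructor <;> linarith [kp_nonneg t, kp_nonneg (-t), kp_le t, kp_le (-t)]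

lemma kk_odd (t : ℝ) : kk (-t) = - kk t := by simp [kk]

lemma kk_const {t : ℝ} (h : 2 ≤ |t|) : kk t = 1 ∨ kk t = -1 := by
  rcases le_or_gt 0 t with h0 | h0
  · rw [abs_of_nonneg h0] at h
    left
    rw [kk, kp_one h, kp_zero (by linarith)]; ring
  · rw [abs_of_neg h0] at h
    right
    rw [kk, kp_one h, kp_zero (show t ≤ 1 by linarith)]; ring

/-- cutoff conditions -/
structure Cut (c e : ℝ → ℝ) : Prop where
  sm : ContDiff ℝ ∞ c
  z : ∀ t, |t| ≤ 1 → c t = 0
  b : ∀ t, |c t| ≤ 1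
  l : ∀ t, Tendsto (fun j : ℕ => resc c j t) atTop (𝓝 (e t))
  d0 : ∀ t, 2 < |t| → deriv c t = 0

lemma cut_kp : Cut kp hp where
  sm := kp_smooth
  z := fun t h => kp_zero (abs_le.1 h).2
  b := kp_abs
  l := by
    intro t
    unfold hp resc
    split_ifs with h
    · refine tendsto_const_nhds.congr' ?_
      obtain ⟨J, hJ⟩ := exists_nat_gt (2 / t)
      filter_upwards [eventually_ge_atTop J] with j hj
      rw [kp_one]
      have h1 : (J : ℝ) ≤ j := by exact_mod_cast hj
      have h2 : 2 / t < (j : ℝ) + 1 := by linarith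
      rw [div_lt_iff₀ h] at h2
      exact h2.le
    · refine tendsto_const_nhds.congr fun j => ?_
      rw [kp_zero]
      push Not at h
      have : ((j : ℝ) + 1) * t ≤ 0 := mul_nonpos_of_nonneg_of_nonpos (by positivity) h
      linarith
  d0 := by
    intro t ht
    rcases lt_or_ge t 0 with h | h
    · have hev : kp =ᶠ[𝓝 t] fun _ => (0:ℝ) := by
        filter_upwards [Iio_mem_nhds h] with s hs
        exact kp_zero (by simp at hs; linarith)
      rw [hev.deriv_eq]; simp
    · rw [abs_of_nonneg h] at ht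
      have hev : kp =ᶠ[𝓝 t] fun _ => (1:ℝ) := by
        filter_upwards [Ioi_mem_nhds ht] with s hs
        exact kp_one (le_of_lt hs)
      rw [hev.deriv_eq]; simp

lemma cut_kk : Cut kk sg where
  sm := kk_smooth
  z := fun t h => kk_zero h
  b := kk_abs
  l := by
    intro t
    have h1 := cut_kp.l t
    have h2 := cut_kp.l (-t)
    have h3 := h1.sub h2
    have e : hp t - hp (-t) = sg t := by
      unfold hp sg
      rcases lt_trichotomy t 0 with h | h | h
      · rw [if_neg (by linarith), if_pos (by linarith), if_neg (by linarith), if_pos h]; ring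
      · simp [h]
      · rw [if_pos h, if_neg (by linarith), if_pos h]; ring
    rw [e] at h3
    refine h3.congr fun j => ?_
    simp [resc, kk]
  d0 := by
    intro t ht
    have h1 : ∀ t, HasDerivAt kp (deriv kp t) t := fun t =>
      ((kp_smooth.differentiable (by simp)) t).hasDerivAt
    have h2 : HasDerivAt kk (deriv kp t - deriv kp (-t) * (-1)) t :=
      (h1 t).sub ((h1 (-t)).comp t (hasDerivAt_neg t))
    rw [h2.deriv, cut_kp.d0 t ht, cut_kp.d0 (-t) (by rwa [abs_neg])]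
    ring

lemma Cut.resc_smooth {c e : ℝ → ℝ} (h : Cut c e) (j : ℕ) : ContDiff ℝ ∞ (resc c j) :=
  h.sm.comp (contDiff_const.mul contDiff_id)

lemma Cut.resc_zero {c e : ℝ → ℝ} (h : Cut c e) (j : ℕ) :
    ∀ t, |t| ≤ 1 / ((j : ℝ) + 1) → resc c j t = 0 := by
  intro t ht
  apply h.z
  have hj : (0:ℝ) < (j:ℝ) + 1 := by positivity
  rw [abs_mul, abs_of_pos hj]
  rw [le_div_iff₀ hj] at ht
  linarith [mul_comm |t| ((j:ℝ) + 1)]

lemma Cut.resc_deriv {c e : ℝ → ℝ} (h : Cut c e) (j : ℕ) (t : ℝ) :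
    deriv (resc c j) t = ((j : ℝ) + 1) * deriv c (((j : ℝ) + 1) * t) := by
  have h1 : HasDerivAt c (deriv c (((j : ℝ) + 1) * t)) (((j : ℝ) + 1) * t) :=
    ((h.sm.differentiable (by simp)) _).hasDerivAt
  have h2 : HasDerivAt (fun t : ℝ => ((j : ℝ) + 1) * t) ((j : ℝ) + 1) t := by
    simpa using (hasDerivAt_id t).const_mul ((j : ℝ) + 1)
  have h3 := h1.comp t h2
  rw [show resc c j = c ∘ (fun t : ℝ => ((j : ℝ) + 1) * t) from rfl, h3.deriv]
  ring

lemma Cut.deriv_bdd {c e : ℝ → ℝ} (h : Cut c e) : ∃ C, ∀ t, |deriv c t| ≤ C := by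
  have hcs : HasCompactSupport (deriv c) := by
    refine HasCompactSupport.intro (isCompact_Icc (a := (-2:ℝ)) (b := 2)) fun x hx => h.d0 x ?_
    by_contra hcon
    push Not at hcon
    exact hx (abs_le.1 hcon)
  obtain ⟨C, hC⟩ := (smooth_deriv h.sm).continuous.bounded_above_of_compact_support hcs
  exact ⟨C, fun t => by simpa using hC t⟩

variable {m : ℕ}

/-- dominated convergence with cutoffs -/
lemma Cut.lim {c e : ℝ → ℝ} (h : Cut c e) {b : Rn (m + 2) → ℂ} (hb : GoodB b)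
    {H : Rn (m + 2) → ℂ} (hH : Continuous H) :
    Tendsto (fun j : ℕ => ∫ x, ((resc c j (x 0) : ℝ) : ℂ) * (b x * H x)) atTop
      (𝓝 (∫ x, ((e (x 0) : ℝ) : ℂ) * (b x * H x))) := by
  have hint := hb.integrable_mul (hH.locallyIntegrable (μ := volume))
  refine tendsto_integral_of_dominated_convergence (fun x => ‖b x * H x‖) ?_ hint.norm ?_ ?_
  · intro j
    refine AEStronglyMeasurable.mul ?_ hint.aestronglyMeasurable
    exact (Complex.continuous_ofReal.comp
      ((h.resc_smooth j).continuous.comp (continuous_apply 0))).aestronglyMeasurable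
  · intro j
    refine Eventually.of_forall fun x => ?_
    rw [norm_mul, Complex.norm_real]
    have := h.b (((j : ℝ) + 1) * x 0)
    calc ‖resc c j (x 0)‖ * ‖b x * H x‖ ≤ 1 * ‖b x * H x‖ :=
          mul_le_mul_of_nonneg_right this (norm_nonneg _)
      _ = _ := one_mul _
  · refine Eventually.of_forall fun x => ?_
    exact ((Complex.continuous_ofReal.tendsto _).comp (h.l (x 0))).mul_const _

/-- the slab limit -/
lemma Cut.slab {c e : ℝ → ℝ} (h : Cut c e) {N : Set ℝ} (hN : IsCompact N) (hne : N.Nonempty)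
    (hN0 : volume N = 0) (E : Rn (m + 2) → ℂ) (Ce : ℝ) (hE : ∀ x, ‖E x‖ ≤ Ce)
    (hE0 : ∀ x, E x ≠ 0 → x ∈ Set.Icc (fun _ => (-3 : ℝ)) (fun _ => 3) ∧
      Metric.infDist (x 1) N ≤ |x 0|) :
    Tendsto (fun j : ℕ => ∫ x, ((deriv (resc c j) (x 0) : ℝ) : ℂ) * E x) atTop (𝓝 0) := by
  obtain ⟨C, hC⟩ := h.deriv_bdd
  have hC0 : 0 ≤ C := (abs_nonneg _).trans (hC 0)
  have hCe : 0 ≤ Ce := (norm_nonneg _).trans (hE 0)
  refine tendsto_slab m N hN hne hN0 (C * Ce) 3 _ ?_ ?_
  · intro j x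
    rw [norm_mul, Complex.norm_real, h.resc_deriv, norm_mul]
    have hj : (0:ℝ) ≤ (j:ℝ) + 1 := by positivity
    rw [Real.norm_of_nonneg hj, Real.norm_eq_abs]
    calc ((j:ℝ) + 1) * |deriv c (((j:ℝ) + 1) * x 0)| * ‖E x‖
        ≤ ((j:ℝ) + 1) * C * Ce := by
          apply mul_le_mul (mul_le_mul_of_nonneg_left (hC _) hj) (hE x) (norm_nonneg _)
          positivity
      _ = C * Ce * (j + 1) := by ring
  · intro j x hx
    have hE1 : E x ≠ 0 := right_ne_zero_of_mul hx
    have hd1 : deriv (resc c j) (x 0) ≠ 0 := by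
      intro h0
      apply hx
      rw [h0]; simp
    rw [h.resc_deriv] at hd1
    have hd2 : deriv c (((j:ℝ) + 1) * x 0) ≠ 0 := right_ne_zero_of_mul hd1
    have h3 : |((j:ℝ) + 1) * x 0| ≤ 2 := by
      by_contra hcon
      push Not at hcon
      exact hd2 (h.d0 _ hcon)
    have hj : (0:ℝ) < (j:ℝ) + 1 := by positivity
    have h4 : |x 0| ≤ 2 / ((j:ℝ) + 1) := by
      rw [abs_mul, abs_of_pos hj] at h3
      rw [le_div_iff₀ hj]
      linarith [mul_comm |x 0| ((j:ℝ) + 1)]
    exact ⟨(hE0 x hE1).1, h4, (hE0 x hE1).2.trans h4⟩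

end Pool.Agent.Helper960.Rou
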