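import Pool.Agent.Helper960.Rou.Core

open MeasureTheory Filter Topology
open scoped ContDiff

namespace Pool.Agent.Helper960.Rou

variable {m : ℕ}

lemma Q_measurable {F k : ℝ → ℝ} (hF : Continuous F) (hk : Continuous k) :
    Measurable (fun q : ℝ × ℝ => Q F k q.1 q.2) := by
  unfold Q
  refine (by fun_prop : Measurable fun q : ℝ × ℝ => (q.1 ^ 2)⁻¹).mul ?_
  have h : Measurable (fun p : (ℝ × ℝ) × ℝ => k ((p.1.2 - p.2) / p.1.1) * F p.2) := by
    refine Measurable.mul (hk.measurable.comp ?_) (hF.measurable.comp measurable_snd)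
    fun_prop
  exact (h.stronglyMeasurable.integral_prod_right').measurable

variable {F : ℝ → ℝ} {N : Set ℝ} {Cz : ℝ} {φ θ ρ : ℝ → ℝ}

lemma Dat.absF (d : Dat F N Cz φ θ ρ) (x : ℝ) : |F x| ≤ 1 := by
  rw [abs_of_nonneg (d.bF x).1]; exact (d.bF x).2

/-- kernels used -/
structure Kn (k : ℝ → ℝ) : Prop where
  s : ContDiff ℝ ∞ k
  z : ∀ y, 1 < |y| → k y = 0
  i : ∫ y, k y = 0

lemma Dat.knφ (d : Dat F N Cz φ θ ρ) : Kn (deriv φ) :=
  ⟨smooth_deriv d.sφ, deriv_zero_of_zero d.zφ, integral_deriv_zero d.sφ d.zφ⟩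

lemma Dat.knθ (d : Dat F N Cz φ θ ρ) : Kn (deriv θ) :=
  ⟨smooth_deriv d.sθ, deriv_zero_of_zero d.zθ, integral_deriv_zero d.sθ d.zθ⟩

lemma Dat.knρ' (d : Dat F N Cz φ θ ρ) : Kn (deriv ρ) :=
  ⟨smooth_deriv d.sρ, deriv_zero_of_zero d.zρ, integral_deriv_zero d.sρ d.zρ⟩

lemma Dat.knρ (d : Dat F N Cz φ θ ρ) : Kn ρ := by
  refine ⟨d.sρ, d.zρ, ?_⟩
  have h : ∫ y, ρ (-y) = ∫ y, ρ y := integral_neg_eq_self ρ volume
  simp_rw [d.oρ] at h
  rw [integral_neg] at h
  linarith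

lemma Kn.c {k : ℝ → ℝ} (h : Kn k) : HasCompactSupport k := hcs_of_zero h.z

lemma Dat.Q_supp (d : Dat F N Cz φ θ ρ) {k : ℝ → ℝ} (hk : Kn k) (s x : ℝ)
    (hne : Q F k s x ≠ 0) : Metric.infDist x N ≤ |s| := by
  by_contra hcon
  push Not at hcon
  apply hne
  by_cases hs : s = 0
  · simp [Q, hs]
  · exact Q_zero F k hk.s.continuous hk.z hk.i s x hs (d.loc x |s| (abs_nonneg _) hcon)

/-- boundedness by the Zygmund condition -/
lemma Dat.Q_bdd (d : Dat F N Cz φ θ ρ) {k : ℝ → ℝ} (hk : Kn k) (hev : ∀ y, k (-y) = k y) :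
    ∃ C, ∀ s x, |Q F k s x| ≤ C := by
  have hCz : 0 ≤ Cz := by
    have := (abs_nonneg _).trans (d.zyg 0 1)
    simpa using this
  refine ⟨Cz / 2 * ∫ y, |y| * |k y|, fun s x => ?_⟩
  by_cases hs : s = 0
  · have : Q F k s x = 0 := by simp [Q, hs]
    rw [this, abs_zero]
    have : 0 ≤ ∫ y, |y| * |k y| := integral_nonneg fun y => by positivity
    positivity
  · exact Q_zyg_bound F k Cz d.cF d.zyg hk.s.continuous hk.c hev hk.i s x hs

lemma Dat.evθ (d : Dat F N Cz φ θ ρ) : ∀ y, deriv θ (-y) = deriv θ y := by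
  intro y
  have h1 : ∀ z, θ (-z) = - θ z := fun z => by rw [d.dθ, d.dθ, d.eφ]; ring
  have h2 := deriv_comp_neg θ y
  have h3 : deriv (fun z => θ (-z)) y = - deriv θ y := by
    simp_rw [h1]
    exact deriv.fun_neg
  rw [h3] at h2
  linarith

lemma Dat.evρ (d : Dat F N Cz φ θ ρ) : ∀ y, deriv ρ (-y) = deriv ρ y := by
  intro y
  have h2 := deriv_comp_neg ρ y
  have h3 : deriv (fun z => ρ (-z)) y = - deriv ρ y := by
    simp_rw [d.oρ]
    exact deriv.fun_neg
  rw [h3] at h2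
  linarith

lemma Dat.oddφ (d : Dat F N Cz φ θ ρ) : ∀ y, deriv φ (-y) = - deriv φ y := by
  intro y
  have h2 := deriv_comp_neg φ y
  have h3 : deriv (fun z => φ (-z)) y = deriv φ y := by
    simp_rw [d.eφ]
  rw [h3] at h2
  linarith

lemma Dat.Qφ_odd (d : Dat F N Cz φ θ ρ) (s x : ℝ) :
    Q F (deriv φ) (-s) x = - Q F (deriv φ) s x := by
  unfold Q
  have : ∀ z, deriv φ ((x - z) / -s) * F z = -(deriv φ ((x - z) / s) * F z) := by
    intro z
    rw [div_neg, d.oddφ]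
    ring
  simp_rw [this]
  rw [integral_neg, neg_sq]
  ring

lemma Dat.Q_away (d : Dat F N Cz φ θ ρ) {k : ℝ → ℝ} (hk : Kn k) :
    ∃ C, 0 ≤ C ∧ ∀ s x, |s| * |Q F k s x| ≤ C := by
  refine ⟨∫ y, |k y|, integral_nonneg fun y => abs_nonneg _, fun s x => ?_⟩
  by_cases hs : s = 0
  · rw [hs]
    simp only [abs_zero, zero_mul]
    exact integral_nonneg fun y => abs_nonneg _
  · have h := Q_bound F k d.cF d.absF hk.s.continuous hk.c s x hs
    have hs' : 0 < |s| := abs_pos.2 hs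
    calc |s| * |Q F k s x| ≤ |s| * (|s|⁻¹ * ∫ y, |k y|) := mul_le_mul_of_nonneg_left h hs'.le
      _ = ∫ y, |k y| := by field_simp

/-- products with the kernels are good -/
lemma goodB_QY (d : Dat F N Cz φ θ ρ) {k : ℝ → ℝ} (hk : Kn k) {Y : Rn (m + 2) → ℂ}
    (hY : Continuous Y) (hYs : ∀ x, Y x ≠ 0 → x ∈ Set.Icc (fun _ => (-3 : ℝ)) (fun _ => 3))
    {Cb : ℝ} (hCb0 : 0 ≤ Cb) (hCb : ∀ x, Y x ≠ 0 → |Q F k (x 0) (x 1)| ≤ Cb) :
    GoodB (fun x : Rn (m + 2) => ((Q F k (x 0) (x 1) : ℝ) : ℂ) * Y x) := by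
  refine ⟨?_, ?_, ?_⟩
  · refine Measurable.mul (Complex.measurable_ofReal.comp ?_) hY.measurable
    have hm : Measurable (fun a : Rn (m + 2) => (a 0, a 1)) :=
      (measurable_pi_apply 0).prodMk (measurable_pi_apply 1)
    exact (Q_measurable d.cF hk.s.continuous).comp hm
  · have hcs : HasCompactSupport Y := by
      refine HasCompactSupport.intro (isCompact_Icc (a := fun _ : Fin (m+2) => (-3:ℝ))
        (b := fun _ => 3)) fun x hx => ?_
      by_contra hne
      exact hx (hYs x hne)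
    obtain ⟨C, hC⟩ := hY.bounded_above_of_compact_support hcs
    refine ⟨Cb * C, fun x => ?_⟩
    rw [norm_mul, Complex.norm_real]
    by_cases h0 : Y x = 0
    · rw [h0, norm_zero, mul_zero]
      exact mul_nonneg hCb0 ((norm_nonneg _).trans (hC 0))
    · exact mul_le_mul (hCb x h0) (hC x) (norm_nonneg _) hCb0
  · intro x hx
    exact hYs x (right_ne_zero_of_mul hx)

lemma goodB_add {a b : Rn (m + 2) → ℂ} (ha : GoodB a) (hb : GoodB b) :
    GoodB (fun x => a x + b x) := by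
  obtain ⟨Ca, hCa⟩ := ha.bdd
  obtain ⟨Cb, hCb⟩ := hb.bdd
  refine ⟨ha.meas.add hb.meas, ⟨Ca + Cb, fun x => (norm_add_le _ _).trans (add_le_add (hCa x) (hCb x))⟩,
    fun x hx => ?_⟩
  by_cases h : a x = 0
  · exact hb.supp x (by intro h2; exact hx (by simp [h, h2]))
  · exact ha.supp x h

lemma goodB_neg {a : Rn (m + 2) → ℂ} (ha : GoodB a) : GoodB (fun x => - a x) := by
  obtain ⟨Ca, hCa⟩ := ha.bdd
  exact ⟨ha.meas.neg, ⟨Ca, fun x => by rw [norm_neg]; exact hCa x⟩,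
    fun x hx => ha.supp x (by simpa using hx)⟩

lemma sg_measurable : Measurable sg := by
  unfold sg
  refine Measurable.ite measurableSet_Ioi measurable_const ?_
  exact Measurable.ite measurableSet_Iio measurable_const measurable_const

lemma hp_measurable : Measurable hp := by
  unfold hp
  exact Measurable.ite measurableSet_Ioi measurable_const measurable_const

lemma sg_abs (t : ℝ) : |sg t| ≤ 1 := by
  unfold sg
  split_ifs <;> simp

lemma goodB_real {r : ℝ → ℝ} (hr : Measurable r) (C : ℝ) (hC : 0 ≤ C)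
    {a : Rn (m + 2) → ℂ} (ha : GoodB a) (hrC : ∀ t, |t| ≤ 3 → |r t| ≤ C) :
    GoodB (fun x => ((r (x 0) : ℝ) : ℂ) * a x) := by
  obtain ⟨Ca, hCa⟩ := ha.bdd
  have hCa0 : 0 ≤ Ca := (norm_nonneg _).trans (hCa 0)
  refine ⟨Measurable.mul (Complex.measurable_ofReal.comp (hr.comp (measurable_pi_apply 0))) ha.meas,
    ⟨C * Ca, fun x => ?_⟩, fun x hx => ha.supp x (right_ne_zero_of_mul hx)⟩
  rw [norm_mul, Complex.norm_real]
  by_cases h0 : a x = 0
  · rw [h0, norm_zero, mul_zero]; positivity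
  · have h1 := ha.supp x h0
    have h2 : |x 0| ≤ 3 := abs_le.2 ⟨h1.1 0, h1.2 0⟩
    exact mul_le_mul (hrC _ h2) (hCa x) (norm_nonneg _) hC

/-- the cutoff function of one variable -/
noncomputable def chi0 : ContDiffBump (0 : ℝ) := ⟨2, 3, by norm_num, by norm_num⟩

/-- the cutoff function -/
noncomputable def X (m : ℕ) : Rn (m + 2) → ℂ :=
  fun x => ((∏ i : Fin (m + 2), chi0 (x i) : ℝ) : ℂ)

lemma X_smooth (m : ℕ) : ContDiff ℝ ∞ (X m) := by
  have h1 : ∀ i : Fin (m + 2), ContDiff ℝ ∞ (fun x : Rn (m + 2) => chi0 (x i)) := fun i =>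
    chi0.contDiff.comp (contDiff_apply ℝ ℝ i)
  have h2 : ContDiff ℝ ∞ (fun x : Rn (m + 2) => ∏ i : Fin (m + 2), chi0 (x i)) :=
    contDiff_prod fun i _ => h1 i
  exact Complex.ofRealCLM.contDiff.comp h2

lemma X_supp (m : ℕ) (x : Rn (m + 2)) (hx : X m x ≠ 0) :
    x ∈ Set.Icc (fun _ => (-3 : ℝ)) (fun _ => 3) := by
  have h1 : ∏ i, chi0 (x i) ≠ 0 := by
    intro h0
    apply hx
    simp only [X, h0, Complex.ofReal_zero]
  have h2 : ∀ i, |x i| ≤ 3 := by
    intro i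
    have h3 : chi0 (x i) ≠ 0 := fun h => h1 (Finset.prod_eq_zero (Finset.mem_univ i) h)
    have h4 : x i ∈ Function.support chi0 := h3
    rw [chi0.support_eq, Metric.mem_ball, Real.dist_eq, sub_zero] at h4
    exact h4.le
  exact ⟨fun i => (abs_le.1 (h2 i)).1, fun i => (abs_le.1 (h2 i)).2⟩

lemma X_tsupp (m : ℕ) : tsupport (X m) ⊆ Set.Icc (fun _ => (-3 : ℝ)) (fun _ => 3) :=
  closure_minimal (fun x hx => X_supp m x hx) isClosed_Icc

lemma X_hcs (m : ℕ) : HasCompactSupport (X m) :=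
  HasCompactSupport.of_support_subset_isCompact (isCompact_Icc (a := fun _ : Fin (m+2) => (-3:ℝ))
        (b := fun _ => 3)) (fun x hx => X_supp m x hx)

lemma D_supp_of_tsupp {n : ℕ} (l : List (Fin n)) (f : Rn n → ℂ) {S : Set (Rn n)} (hS : IsClosed S)
    (h : ∀ x, f x ≠ 0 → x ∈ S) : ∀ x, D l f x ≠ 0 → x ∈ S := by
  intro x hx
  by_contra hcon
  apply hx
  have h1 := D_congr_open l hS.isOpen_compl (f := f) (g := fun _ => 0) (fun y hy => by
    by_contra hne
    exact hy (h y hne)) x hcon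
  rw [h1]
  clear h1 hx
  induction l generalizing x with
  | nil => rfl
  | cons i l ih =>
    show fderiv ℝ (D l fun _ => (0:ℂ)) x _ = 0
    have : D l (fun _ : Rn n => (0:ℂ)) = fun _ => 0 := by
      have hD : ∀ l : List (Fin n), D l (fun _ : Rn n => (0:ℂ)) = fun _ => 0 := by
        intro l
        induction l with
        | nil => rfl
        | cons j l ih2 =>
          funext y
          show fderiv ℝ (D l fun _ => (0:ℂ)) y _ = 0
          rw [ih2]; simp
      exact hD l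
    rw [this]; simp

lemma pd_supp {n : ℕ} (i : Fin n) (f : Rn n → ℂ) {S : Set (Rn n)} (hS : IsClosed S)
    (h : ∀ x, f x ≠ 0 → x ∈ S) : ∀ x, pd i f x ≠ 0 → x ∈ S :=
  D_supp_of_tsupp [i] f hS h

/-- the cutoff does not vary near the centre -/
lemma pd_X_zero (m : ℕ) (i : Fin (m + 2)) (x : Rn (m + 2)) (hx : |x i| < 2) : pd i (X m) x = 0 := by
  have hd : HasFDerivAt (X m) (fderiv ℝ (X m) x) x :=
    (((X_smooth m).differentiable (by simp)) x).hasFDerivAt
  have hl : HasLineDerivAt ℝ (X m) (fderiv ℝ (X m) x (Pi.single i 1)) x (Pi.single i 1) :=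
    hd.hasLineDerivAt _
  have hl2 : HasLineDerivAt ℝ (X m) 0 x (Pi.single i 1) := by
    unfold HasLineDerivAt
    refine (hasDerivAt_const (0:ℝ) (X m x)).congr_of_eventuallyEq ?_
    have h1 : ∀ᶠ t : ℝ in 𝓝 0, |x i + t| < 2 := by
      have hc : Continuous fun t : ℝ => |x i + t| := by fun_prop
      exact hc.continuousAt.eventually (gt_mem_nhds (by simpa using hx))
    filter_upwards [h1] with t ht
    simp only [X]
    congr 1
    refine Finset.prod_congr rfl fun j _ => ?_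
    by_cases hj : j = i
    · subst hj
      have e1 : (x + t • (Pi.single j 1 : Rn (m + 2))) j = x j + t := by simp
      rw [e1]
      rw [chi0.one_of_mem_closedBall, chi0.one_of_mem_closedBall]
      · rw [Metric.mem_closedBall, Real.dist_eq, sub_zero]; exact hx.le
      · rw [Metric.mem_closedBall, Real.dist_eq, sub_zero]; exact ht.le
    · have e1 : (x + t • (Pi.single i 1 : Rn (m + 2))) j = x j := by simp [hj]
      rw [e1]
  exact hl.unique hl2

end Pool.Agent.Helper960.Rou
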