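import Pool.Agent.Helper960.Rou.Core2

open MeasureTheory Filter Topology
open scoped ContDiff

namespace Pool.Agent.Helper960.Rou

variable {m : ℕ} {F : ℝ → ℝ} {N : Set ℝ} {Cz : ℝ} {φ θ ρ : ℝ → ℝ}

lemma goodB_rQY (d : Dat F N Cz φ θ ρ) {k : ℝ → ℝ} (hk : Kn k) {r : ℝ → ℝ} (hr : Measurable r)
    {Y : Rn (m + 2) → ℂ} (hY : Continuous Y)
    (hYs : ∀ x, Y x ≠ 0 → x ∈ Set.Icc (fun _ => (-3 : ℝ)) (fun _ => 3))
    {Cb : ℝ} (hCb0 : 0 ≤ Cb) (hCb : ∀ x, Y x ≠ 0 → |r (x 0) * Q F k (x 0) (x 1)| ≤ Cb) :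
    GoodB (fun x : Rn (m + 2) => ((r (x 0) * Q F k (x 0) (x 1) : ℝ) : ℂ) * Y x) := by
  refine ⟨?_, ?_, ?_⟩
  · refine Measurable.mul (Complex.measurable_ofReal.comp ?_) hY.measurable
    have hm : Measurable (fun a : Rn (m + 2) => (a 0, a 1)) :=
      (measurable_pi_apply 0).prodMk (measurable_pi_apply 1)
    exact (hr.comp (measurable_pi_apply 0)).mul ((Q_measurable d.cF hk.s.continuous).comp hm)
  · have hcs : HasCompactSupport Y := by
      refine HasCompactSupport.intro (isCompact_Icc (a := fun _ : Fin (m+2) => (-3:ℝ))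
        (b := fun _ => 3)) fun x hx => ?_
      by_contra hne
      exact hx (hYs x hne)
    obtain ⟨C, hC⟩ := hY.bounded_above_of_compact_support hcs
    refine ⟨Cb * C, fun x => ?_⟩
    rw [norm_mul, Complex.norm_real]
    by_cases h0 : Y x = 0
    · rw [h0, norm_zero, mul_zero]
      exact mul_nonneg hCb0 ((norm_nonneg _).trans (hC 0))
    · exact mul_le_mul (hCb x h0) (hC x) (norm_nonneg _) hCb0
  · intro x hx
    exact hYs x (right_ne_zero_of_mul hx)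

section ID

variable (d : Dat F N Cz φ θ ρ) {c : ℝ → ℝ} (hc : ContDiff ℝ ∞ c) {δ : ℝ} (hδ : 0 < δ)
  (hc0 : ∀ t, |t| ≤ δ → c t = 0) {H : Rn (m + 2) → ℂ} (hH : ContDiff ℝ ∞ H)

lemma pd_mul {n : ℕ} (i : Fin n) {f g : Rn n → ℂ} (hf : ContDiff ℝ ∞ f) (hg : ContDiff ℝ ∞ g)
    (x : Rn n) : pd i (fun x => f x * g x) x = pd i f x * g x + f x * pd i g x := by
  have h1 : DifferentiableAt ℝ f x := (hf.differentiable (by simp)) x
  have h2 : DifferentiableAt ℝ g x := (hg.differentiable (by simp)) x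
  simp only [pd]
  rw [fderiv_fun_mul h1 h2]
  simp only [add_apply, smul_apply, smul_eq_mul]
  ring

include d hc hδ hc0 hH

/-- first identity -/
lemma ID0 : ∫ x, ((c (x 0) * Q F (deriv φ) (x 0) (x 1) : ℝ) : ℂ) * (X m x * pd 0 H x) =
    - (∫ x, ((c (x 0) * Q F (deriv θ) (x 0) (x 1) : ℝ) : ℂ) * (X m x * pd 1 H x))
    - (∫ x, ((c (x 0) * Q F (deriv θ) (x 0) (x 1) : ℝ) : ℂ) * (pd 1 (X m) x * H x))
    - (∫ x, ((c (x 0) * Q F (deriv φ) (x 0) (x 1) : ℝ) : ℂ) * (pd 0 (X m) x * H x))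
    - (∫ x, ((deriv c (x 0) * Q F (deriv φ) (x 0) (x 1) : ℝ) : ℂ) * (X m x * H x)) := by
  have hX := X_smooth m
  have hXc := X_hcs m
  have hG : ContDiff ℝ ∞ (fun x => X m x * H x) := hX.mul hH
  have hGs : HasCompactSupport (fun x => X m x * H x) := hXc.mul_right
  have h := P1 d m hc hδ hc0 hG hGs
  have cφ := d.knφ
  have cθ := d.knθ
  have I : ∀ {k : ℝ → ℝ}, Kn k → ∀ {Y : Rn (m + 2) → ℂ}, Continuous Y → HasCompactSupport Y →
      Integrable (fun x : Rn (m + 2) => ((c (x 0) * Q F k (x 0) (x 1) : ℝ) : ℂ) * Y x) :=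
    fun {k} hk {Y} hY hYs => cutQ_int m d.cF hk.s hk.c hc.continuous hδ hc0 hY hYs
  have c1 : ∀ i, Continuous (fun x => X m x * pd i H x) := fun i =>
    hX.continuous.mul (contDiff_pd i hH).continuous
  have s1 : ∀ i, HasCompactSupport (fun x => X m x * pd i H x) := fun i => hXc.mul_right
  have c2 : ∀ i, Continuous (fun x => pd i (X m) x * H x) := fun i =>
    (contDiff_pd i hX).continuous.mul hH.continuous
  have s2 : ∀ i, HasCompactSupport (fun x => pd i (X m) x * H x) := fun i =>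
    (hcs_pd i hXc).mul_right
  have e0 : ∀ k : ℝ → ℝ, Kn k → ∀ i : Fin (m + 2),
      ∫ x, ((c (x 0) * Q F k (x 0) (x 1) : ℝ) : ℂ) * pd i (fun x => X m x * H x) x =
      (∫ x, ((c (x 0) * Q F k (x 0) (x 1) : ℝ) : ℂ) * (pd i (X m) x * H x)) +
      (∫ x, ((c (x 0) * Q F k (x 0) (x 1) : ℝ) : ℂ) * (X m x * pd i H x)) := by
    intro k hk i
    rw [← integral_add (I hk (c2 i) (s2 i)) (I hk (c1 i) (s1 i))]
    congr 1
    funext x
    rw [pd_mul i hX hH]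
    ring
  rw [e0 _ cφ 0, e0 _ cθ 1] at h
  linear_combination h

/-- second identity -/
lemma ID1 : ∫ x, ((c (x 0) * Q F (deriv φ) (x 0) (x 1) : ℝ) : ℂ) * (X m x * pd 1 H x) =
    (∫ x, ((c (x 0) * Q F (deriv ρ) (x 0) (x 1) : ℝ) : ℂ) * (X m x * pd 0 H x))
    + (∫ x, ((c (x 0) * Q F (deriv ρ) (x 0) (x 1) : ℝ) : ℂ) * (pd 0 (X m) x * H x))
    - (∫ x, ((c (x 0) * Q F (deriv φ) (x 0) (x 1) : ℝ) : ℂ) * (pd 1 (X m) x * H x))
    + (∫ x, ((deriv c (x 0) * Q F (deriv ρ) (x 0) (x 1) : ℝ) : ℂ) * (X m x * H x)) := by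
  have hX := X_smooth m
  have hXc := X_hcs m
  have hG : ContDiff ℝ ∞ (fun x => X m x * H x) := hX.mul hH
  have hGs : HasCompactSupport (fun x => X m x * H x) := hXc.mul_right
  have h := P2 d m hc hδ hc0 hG hGs
  have cφ := d.knφ
  have cρ := d.knρ'
  have I : ∀ {k : ℝ → ℝ}, Kn k → ∀ {Y : Rn (m + 2) → ℂ}, Continuous Y → HasCompactSupport Y →
      Integrable (fun x : Rn (m + 2) => ((c (x 0) * Q F k (x 0) (x 1) : ℝ) : ℂ) * Y x) :=
    fun {k} hk {Y} hY hYs => cutQ_int m d.cF hk.s hk.c hc.continuous hδ hc0 hY hYs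
  have c1 : ∀ i, Continuous (fun x => X m x * pd i H x) := fun i =>
    hX.continuous.mul (contDiff_pd i hH).continuous
  have s1 : ∀ i, HasCompactSupport (fun x => X m x * pd i H x) := fun i => hXc.mul_right
  have c2 : ∀ i, Continuous (fun x => pd i (X m) x * H x) := fun i =>
    (contDiff_pd i hX).continuous.mul hH.continuous
  have s2 : ∀ i, HasCompactSupport (fun x => pd i (X m) x * H x) := fun i =>
    (hcs_pd i hXc).mul_right
  have e0 : ∀ k : ℝ → ℝ, Kn k → ∀ i : Fin (m + 2),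
      ∫ x, ((c (x 0) * Q F k (x 0) (x 1) : ℝ) : ℂ) * pd i (fun x => X m x * H x) x =
      (∫ x, ((c (x 0) * Q F k (x 0) (x 1) : ℝ) : ℂ) * (pd i (X m) x * H x)) +
      (∫ x, ((c (x 0) * Q F k (x 0) (x 1) : ℝ) : ℂ) * (X m x * pd i H x)) := by
    intro k hk i
    rw [← integral_add (I hk (c2 i) (s2 i)) (I hk (c1 i) (s1 i))]
    congr 1
    funext x
    rw [pd_mul i hX hH]
    ring
  rw [e0 _ cφ 1, e0 _ cρ 0] at h
  linear_combination h

/-- third identity -/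
lemma ID2 (i : Fin (m + 2)) (hi0 : i ≠ 0) (hi1 : i ≠ 1) :
    ∫ x, ((c (x 0) * Q F (deriv φ) (x 0) (x 1) : ℝ) : ℂ) * (X m x * pd i H x) =
    (∫ x, ((c (x 0) * x 0 * Q F ρ (x 0) (x 1) : ℝ) : ℂ) * (pd i (X m) x * pd 0 H x))
    + (∫ x, ((c (x 0) * x 0 * Q F ρ (x 0) (x 1) : ℝ) : ℂ) * (pd 0 (pd i (X m)) x * H x))
    + (∫ x, ((deriv c (x 0) * x 0 * Q F ρ (x 0) (x 1) : ℝ) : ℂ) * (pd i (X m) x * H x)) := by
  have hX := X_smooth m
  have hXc := X_hcs m
  have hXi := contDiff_pd i hX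
  have hXic := hcs_pd i hXc
  have hG : ContDiff ℝ ∞ (fun x => X m x * H x) := hX.mul hH
  have hGs : HasCompactSupport (fun x => X m x * H x) := hXc.mul_right
  have hG2 : ContDiff ℝ ∞ (fun x => pd i (X m) x * H x) := hXi.mul hH
  have hG2s : HasCompactSupport (fun x => pd i (X m) x * H x) := hXic.mul_right
  have cφ := d.knφ
  have cρ := d.knρ
  have h := P3 d m hc hδ hc0 hG2 hG2s
  have h4 := ibp_other Q_continuousOn m F (deriv φ) c d.cF cφ.s cφ.c hc δ hδ hc0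
    (fun x => X m x * H x) hG hGs i hi0 hi1
  have I : ∀ {k : ℝ → ℝ}, Kn k → ∀ {Y : Rn (m + 2) → ℂ}, Continuous Y → HasCompactSupport Y →
      Integrable (fun x : Rn (m + 2) => ((c (x 0) * Q F k (x 0) (x 1) : ℝ) : ℂ) * Y x) :=
    fun {k} hk {Y} hY hYs => cutQ_int m d.cF hk.s hk.c hc.continuous hδ hc0 hY hYs
  have hc1 : Continuous (fun t => c t * t) := hc.continuous.mul continuous_id
  have hc10 : ∀ t, |t| ≤ δ → (fun t => c t * t) t = 0 := fun t ht => by simp [hc0 t ht]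
  have I2 : ∀ {Y : Rn (m + 2) → ℂ}, Continuous Y → HasCompactSupport Y →
      Integrable (fun x : Rn (m + 2) => ((c (x 0) * x 0 * Q F ρ (x 0) (x 1) : ℝ) : ℂ) * Y x) :=
    fun {Y} hY hYs => cutQ_int m d.cF cρ.s cρ.c hc1 hδ hc10 hY hYs
  have c1 : Continuous (fun x => X m x * pd i H x) :=
    hX.continuous.mul (contDiff_pd i hH).continuous
  have s1 : HasCompactSupport (fun x => X m x * pd i H x) := hXc.mul_right
  have e0 : ∫ x, ((c (x 0) * Q F (deriv φ) (x 0) (x 1) : ℝ) : ℂ) * pd i (fun x => X m x * H x) x =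
      (∫ x, ((c (x 0) * Q F (deriv φ) (x 0) (x 1) : ℝ) : ℂ) * (pd i (X m) x * H x)) +
      (∫ x, ((c (x 0) * Q F (deriv φ) (x 0) (x 1) : ℝ) : ℂ) * (X m x * pd i H x)) := by
    rw [← integral_add (I cφ hG2.continuous hG2s) (I cφ c1 s1)]
    congr 1
    funext x
    rw [pd_mul i hX hH]
    ring
  have c3 : Continuous (fun x => pd 0 (pd i (X m)) x * H x) :=
    (contDiff_pd 0 hXi).continuous.mul hH.continuous
  have s3 : HasCompactSupport (fun x => pd 0 (pd i (X m)) x * H x) := (hcs_pd 0 hXic).mul_right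
  have c4 : Continuous (fun x => pd i (X m) x * pd 0 H x) :=
    hXi.continuous.mul (contDiff_pd 0 hH).continuous
  have s4 : HasCompactSupport (fun x => pd i (X m) x * pd 0 H x) := hXic.mul_right
  have e1 : ∫ x, (((fun t => c t * t) (x 0) * Q F ρ (x 0) (x 1) : ℝ) : ℂ) *
        pd 0 (fun x => pd i (X m) x * H x) x =
      (∫ x, ((c (x 0) * x 0 * Q F ρ (x 0) (x 1) : ℝ) : ℂ) * (pd 0 (pd i (X m)) x * H x)) +
      (∫ x, ((c (x 0) * x 0 * Q F ρ (x 0) (x 1) : ℝ) : ℂ) * (pd i (X m) x * pd 0 H x)) := by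
    rw [← integral_add (I2 c3 s3) (I2 c4 s4)]
    congr 1
    funext x
    rw [pd_mul 0 hXi hH]
    ring
  rw [e0] at h4
  rw [e1] at h
  linear_combination h4 - h

end ID

end Pool.Agent.Helper960.Rou
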