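import Pool.Agent.Helper960.Rou.Core3

open MeasureTheory Filter Topology
open scoped ContDiff

namespace Pool.Agent.Helper960.Rou

variable {m : ℕ} {F : ℝ → ℝ} {N : Set ℝ} {Cz : ℝ} {φ θ ρ : ℝ → ℝ}

/-- the other index -/
def tau (i : Fin (m + 2)) : Fin (m + 2) := if i = 0 then 1 else 0

/-- coefficient of the first order term, without sign -/
noncomputable def ca (F θ ρ : ℝ → ℝ) (i : Fin (m + 2)) (x : Rn (m + 2)) : ℂ :=
  if i = 0 then -(((Q F (deriv θ) (x 0) (x 1) : ℝ) : ℂ) * X m x)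
  else if i = 1 then ((Q F (deriv ρ) (x 0) (x 1) : ℝ) : ℂ) * X m x
  else ((x 0 * Q F ρ (x 0) (x 1) : ℝ) : ℂ) * pd i (X m) x

/-- coefficient of the zero order term, without sign -/
noncomputable def cb (F φ θ ρ : ℝ → ℝ) (i : Fin (m + 2)) (x : Rn (m + 2)) : ℂ :=
  if i = 0 then -(((Q F (deriv θ) (x 0) (x 1) : ℝ) : ℂ) * pd 1 (X m) x +
    ((Q F (deriv φ) (x 0) (x 1) : ℝ) : ℂ) * pd 0 (X m) x)
  else if i = 1 then ((Q F (deriv ρ) (x 0) (x 1) : ℝ) : ℂ) * pd 0 (X m) x -
    ((Q F (deriv φ) (x 0) (x 1) : ℝ) : ℂ) * pd 1 (X m) x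
  else ((x 0 * Q F ρ (x 0) (x 1) : ℝ) : ℂ) * pd 0 (pd i (X m)) x

/-- the error term without cutoff -/
noncomputable def ce (F φ ρ : ℝ → ℝ) (i : Fin (m + 2)) (H : Rn (m + 2) → ℂ) (x : Rn (m + 2)) : ℂ :=
  if i = 0 then -(((Q F (deriv φ) (x 0) (x 1) : ℝ) : ℂ) * (X m x * H x))
  else if i = 1 then ((Q F (deriv ρ) (x 0) (x 1) : ℝ) : ℂ) * (X m x * H x)
  else ((x 0 * Q F ρ (x 0) (x 1) : ℝ) : ℂ) * (pd i (X m) x * H x)

lemma pdX_supp (i : Fin (m + 2)) : ∀ x, pd i (X m) x ≠ 0 →
    x ∈ Set.Icc (fun _ => (-3 : ℝ)) (fun _ => 3) :=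
  pd_supp i (X m) isClosed_Icc (X_supp m)

lemma pdpdX_supp (i : Fin (m + 2)) : ∀ x, pd 0 (pd i (X m)) x ≠ 0 →
    x ∈ Set.Icc (fun _ => (-3 : ℝ)) (fun _ => 3) :=
  pd_supp 0 _ isClosed_Icc (pdX_supp i)

lemma good_one (d : Dat F N Cz φ θ ρ) {k : ℝ → ℝ} (hk : Kn k) (hev : ∀ y, k (-y) = k y)
    {Y : Rn (m + 2) → ℂ} (hY : Continuous Y)
    (hYs : ∀ x, Y x ≠ 0 → x ∈ Set.Icc (fun _ => (-3 : ℝ)) (fun _ => 3)) :
    GoodB (fun x : Rn (m + 2) => ((Q F k (x 0) (x 1) : ℝ) : ℂ) * Y x) := by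
  obtain ⟨C, hC⟩ := d.Q_bdd hk hev
  have hC0 : 0 ≤ C := (abs_nonneg _).trans (hC 0 0)
  exact goodB_QY d hk hY hYs hC0 (fun x _ => hC _ _)

lemma good_x0 (d : Dat F N Cz φ θ ρ) {k : ℝ → ℝ} (hk : Kn k)
    {Y : Rn (m + 2) → ℂ} (hY : Continuous Y)
    (hYs : ∀ x, Y x ≠ 0 → x ∈ Set.Icc (fun _ => (-3 : ℝ)) (fun _ => 3)) :
    GoodB (fun x : Rn (m + 2) => ((x 0 * Q F k (x 0) (x 1) : ℝ) : ℂ) * Y x) := by
  obtain ⟨C, hC0, hC⟩ := d.Q_away hk
  exact goodB_rQY d hk (r := fun t => t) measurable_id hY hYs hC0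
    (fun x _ => by rw [abs_mul]; exact hC _ _)

/-- the kernel of `φ` times derivative of the cutoff is bounded -/
lemma good_phi (d : Dat F N Cz φ θ ρ) {Y : Rn (m + 2) → ℂ} (hY : Continuous Y)
    (hYs : ∀ x, Y x ≠ 0 → x ∈ Set.Icc (fun _ => (-3 : ℝ)) (fun _ => 3))
    (hY1 : ∀ x, Y x ≠ 0 → 2 ≤ |x 0| ∨ 2 ≤ |x 1|) :
    GoodB (fun x : Rn (m + 2) => ((Q F (deriv φ) (x 0) (x 1) : ℝ) : ℂ) * Y x) := by
  obtain ⟨C, hC0, hC⟩ := d.Q_away d.knφ
  refine goodB_QY d d.knφ hY hYs hC0 fun x hx => ?_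
  by_cases hQ : Q F (deriv φ) (x 0) (x 1) = 0
  · rw [hQ, abs_zero]; exact hC0
  · have h1 : 1 ≤ |x 0| := by
      rcases hY1 x hx with h | h
      · linarith
      · have h2 := d.Q_supp d.knφ _ _ hQ
        refine le_trans ?_ h2
        by_contra hcon
        push Not at hcon
        rw [Metric.infDist_lt_iff d.neN] at hcon
        obtain ⟨y, hy, hxy⟩ := hcon
        have hy1 := d.sN hy
        rw [Real.dist_eq, abs_lt] at hxy
        rcases abs_cases (x 1) with ⟨h3, _⟩ | ⟨h3, _⟩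
        · rw [h3] at h; linarith [hxy.1, hxy.2, hy1.1, hy1.2]
        · rw [h3] at h; linarith [hxy.1, hxy.2, hy1.1, hy1.2]
    calc |Q F (deriv φ) (x 0) (x 1)| = 1 * |Q F (deriv φ) (x 0) (x 1)| := (one_mul _).symm
      _ ≤ |x 0| * |Q F (deriv φ) (x 0) (x 1)| := mul_le_mul_of_nonneg_right h1 (abs_nonneg _)
      _ ≤ C := hC _ _

lemma pdX_far (i : Fin (m + 2)) (x : Rn (m + 2)) (hx : pd i (X m) x ≠ 0) : 2 ≤ |x i| := by
  by_contra hcon
  push Not at hcon
  exact hx (pd_X_zero m i x hcon)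

lemma good_ca (d : Dat F N Cz φ θ ρ) (i : Fin (m + 2)) : GoodB (ca F θ ρ i) := by
  unfold ca
  by_cases h0 : i = 0
  · simp only [h0, if_true]
    exact goodB_neg (good_one d d.knθ d.evθ (X_smooth m).continuous (X_supp m))
  · by_cases h1 : i = 1
    · simp only [h1, if_true, one_ne_zero, if_false]
      exact good_one d d.knρ' d.evρ (X_smooth m).continuous (X_supp m)
    · simp only [h0, h1, if_false]
      exact good_x0 d d.knρ (contDiff_pd i (X_smooth m)).continuous (pdX_supp i)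

lemma good_cb (d : Dat F N Cz φ θ ρ) (i : Fin (m + 2)) : GoodB (cb F φ θ ρ i) := by
  have hX := X_smooth m
  have g1 := good_one d d.knθ d.evθ (contDiff_pd 1 hX).continuous (pdX_supp (m := m) 1)
  have g2 := good_phi d (contDiff_pd 0 hX).continuous (pdX_supp (m := m) 0)
    (fun x hx => Or.inl (pdX_far 0 x hx))
  have g3 := good_one d d.knρ' d.evρ (contDiff_pd 0 hX).continuous (pdX_supp (m := m) 0)
  have g4 := good_phi d (contDiff_pd 1 hX).continuous (pdX_supp (m := m) 1)
    (fun x hx => Or.inr (pdX_far 1 x hx))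
  unfold cb
  by_cases h0 : i = 0
  · simp only [h0, if_true]
    exact goodB_neg (goodB_add g1 g2)
  · by_cases h1 : i = 1
    · simp only [h1, if_true, one_ne_zero, if_false]
      have := goodB_add g3 (goodB_neg g4)
      simpa only [sub_eq_add_neg] using this
    · simp only [h0, h1, if_false]
      exact good_x0 d d.knρ (contDiff_pd 0 (contDiff_pd i hX)).continuous (pdpdX_supp i)

/-- the basic identity with a cutoff -/
lemma basic (d : Dat F N Cz φ θ ρ) {c : ℝ → ℝ} (hc : ContDiff ℝ ∞ c) {δ : ℝ} (hδ : 0 < δ)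
    (hc0 : ∀ t, |t| ≤ δ → c t = 0) {H : Rn (m + 2) → ℂ} (hH : ContDiff ℝ ∞ H)
    (i : Fin (m + 2)) :
    ∫ x, ((c (x 0) * Q F (deriv φ) (x 0) (x 1) : ℝ) : ℂ) * (X m x * pd i H x) =
    (∫ x, ((c (x 0) : ℝ) : ℂ) * (ca F θ ρ i x * pd (tau i) H x))
    + (∫ x, ((c (x 0) : ℝ) : ℂ) * (cb F φ θ ρ i x * H x))
    + (∫ x, ((deriv c (x 0) : ℝ) : ℂ) * ce F φ ρ i H x) := by
  have hX := X_smooth m
  have hXc := X_hcs m
  have I : ∀ {k : ℝ → ℝ}, Kn k → ∀ {Y : Rn (m + 2) → ℂ}, Continuous Y → HasCompactSupport Y →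
      Integrable (fun x : Rn (m + 2) => ((c (x 0) * Q F k (x 0) (x 1) : ℝ) : ℂ) * Y x) :=
    fun {k} hk {Y} hY hYs => cutQ_int m d.cF hk.s hk.c hc.continuous hδ hc0 hY hYs
  by_cases h0 : i = 0
  · subst h0
    rw [ID0 d hc hδ hc0 hH]
    have e1 : (∫ x, ((c (x 0) : ℝ) : ℂ) * (ca F θ ρ 0 x * pd (tau 0) H x)) =
        - ∫ x, ((c (x 0) * Q F (deriv θ) (x 0) (x 1) : ℝ) : ℂ) * (X m x * pd 1 H x) := by
      rw [← integral_neg]
      congr 1
      funext x
      simp only [ca, tau, if_true]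
      push_cast
      ring
    have e2 : (∫ x, ((c (x 0) : ℝ) : ℂ) * (cb F φ θ ρ 0 x * H x)) =
        -(∫ x, ((c (x 0) * Q F (deriv θ) (x 0) (x 1) : ℝ) : ℂ) * (pd 1 (X m) x * H x))
        - (∫ x, ((c (x 0) * Q F (deriv φ) (x 0) (x 1) : ℝ) : ℂ) * (pd 0 (X m) x * H x)) := by
      rw [← integral_neg, ← integral_sub]
      · congr 1
        funext x
        simp only [cb, if_true]
        push_cast
        ring
      · exact (I d.knθ ((contDiff_pd 1 hX).continuous.mul hH.continuous)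
          ((hcs_pd 1 hXc).mul_right)).neg
      · exact I d.knφ ((contDiff_pd 0 hX).continuous.mul hH.continuous)
          ((hcs_pd 0 hXc).mul_right)
    have e3 : (∫ x, ((deriv c (x 0) : ℝ) : ℂ) * ce F φ ρ 0 H x) =
        -(∫ x, ((deriv c (x 0) * Q F (deriv φ) (x 0) (x 1) : ℝ) : ℂ) * (X m x * H x)) := by
      rw [← integral_neg]
      congr 1
      funext x
      simp only [ce, if_true]
      push_cast
      ring
    rw [e1, e2, e3]
    ring
  · by_cases h1 : i = 1
    · subst h1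
      rw [ID1 d hc hδ hc0 hH]
      have e1 : (∫ x, ((c (x 0) : ℝ) : ℂ) * (ca F θ ρ 1 x * pd (tau 1) H x)) =
          ∫ x, ((c (x 0) * Q F (deriv ρ) (x 0) (x 1) : ℝ) : ℂ) * (X m x * pd 0 H x) := by
        congr 1
        funext x
        simp only [ca, tau, if_true, one_ne_zero, if_false]
        push_cast
        ring
      have e2 : (∫ x, ((c (x 0) : ℝ) : ℂ) * (cb F φ θ ρ 1 x * H x)) =
          (∫ x, ((c (x 0) * Q F (deriv ρ) (x 0) (x 1) : ℝ) : ℂ) * (pd 0 (X m) x * H x))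
          - (∫ x, ((c (x 0) * Q F (deriv φ) (x 0) (x 1) : ℝ) : ℂ) * (pd 1 (X m) x * H x)) := by
        rw [← integral_sub]
        · congr 1
          funext x
          simp only [cb, if_true, one_ne_zero, if_false]
          push_cast
          ring
        · exact I d.knρ' ((contDiff_pd 0 hX).continuous.mul hH.continuous)
            ((hcs_pd 0 hXc).mul_right)
        · exact I d.knφ ((contDiff_pd 1 hX).continuous.mul hH.continuous)
            ((hcs_pd 1 hXc).mul_right)
      have e3 : (∫ x, ((deriv c (x 0) : ℝ) : ℂ) * ce F φ ρ 1 H x) =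
          ∫ x, ((deriv c (x 0) * Q F (deriv ρ) (x 0) (x 1) : ℝ) : ℂ) * (X m x * H x) := by
        congr 1
        funext x
        simp only [ce, if_true, one_ne_zero, if_false]
        push_cast
        ring
      rw [e1, e2, e3]
      ring
    · rw [ID2 d hc hδ hc0 hH i h0 h1]
      have e1 : (∫ x, ((c (x 0) : ℝ) : ℂ) * (ca F θ ρ i x * pd (tau i) H x)) =
          ∫ x, ((c (x 0) * x 0 * Q F ρ (x 0) (x 1) : ℝ) : ℂ) * (pd i (X m) x * pd 0 H x) := by
        congr 1
        funext x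
        simp only [ca, tau, h0, h1, if_false]
        push_cast
        ring
      have e2 : (∫ x, ((c (x 0) : ℝ) : ℂ) * (cb F φ θ ρ i x * H x)) =
          ∫ x, ((c (x 0) * x 0 * Q F ρ (x 0) (x 1) : ℝ) : ℂ) * (pd 0 (pd i (X m)) x * H x) := by
        congr 1
        funext x
        simp only [cb, h0, h1, if_false]
        push_cast
        ring
      have e3 : (∫ x, ((deriv c (x 0) : ℝ) : ℂ) * ce F φ ρ i H x) =
          ∫ x, ((deriv c (x 0) * x 0 * Q F ρ (x 0) (x 1) : ℝ) : ℂ) * (pd i (X m) x * H x) := by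
        congr 1
        funext x
        simp only [ce, h0, h1, if_false]
        push_cast
        ring
      rw [e1, e2, e3]

/-- support of kernel products -/
lemma supp_Q (d : Dat F N Cz φ θ ρ) {k : ℝ → ℝ} (hk : Kn k) (x : Rn (m + 2)) (Y : ℂ)
    (h : ((Q F k (x 0) (x 1) : ℝ) : ℂ) * Y ≠ 0) : Metric.infDist (x 1) N ≤ |x 0| := by
  apply d.Q_supp hk
  intro h0
  apply h
  rw [h0]; simp

lemma supp_xQ (d : Dat F N Cz φ θ ρ) {k : ℝ → ℝ} (hk : Kn k) (x : Rn (m + 2)) (Y : ℂ)
    (h : ((x 0 * Q F k (x 0) (x 1) : ℝ) : ℂ) * Y ≠ 0) : Metric.infDist (x 1) N ≤ |x 0| := by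
  apply d.Q_supp hk
  intro h0
  apply h
  rw [h0]; simp

lemma supp_ca (d : Dat F N Cz φ θ ρ) (i : Fin (m + 2)) (x : Rn (m + 2)) (h : ca F θ ρ i x ≠ 0) :
    Metric.infDist (x 1) N ≤ |x 0| := by
  unfold ca at h
  split_ifs at h with h0 h1
  · exact supp_Q d d.knθ x _ (neg_ne_zero.1 h)
  · exact supp_Q d d.knρ' x _ h
  · exact supp_xQ d d.knρ x _ h

lemma supp_cb (d : Dat F N Cz φ θ ρ) (i : Fin (m + 2)) (x : Rn (m + 2)) (h : cb F φ θ ρ i x ≠ 0) :
    Metric.infDist (x 1) N ≤ |x 0| := by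
  by_contra hcon
  have hz : ∀ {k : ℝ → ℝ}, Kn k → Q F k (x 0) (x 1) = 0 := by
    intro k hk
    by_contra h1
    exact hcon (d.Q_supp hk _ _ h1)
  apply h
  unfold cb
  rw [hz d.knθ, hz d.knφ, hz d.knρ', hz d.knρ]
  simp

/-- error terms vanish in the limit, directions other than the first -/
lemma err_other (d : Dat F N Cz φ θ ρ) {c e : ℝ → ℝ} (hc : Cut c e) (i : Fin (m + 2)) (hi : i ≠ 0)
    {H : Rn (m + 2) → ℂ} (hH : Continuous H) :
    Tendsto (fun j : ℕ => ∫ x, ((deriv (resc c j) (x 0) : ℝ) : ℂ) * ce F φ ρ i H x) atTop (𝓝 0) := by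
  have hX := X_smooth m
  have hg : GoodB (fun x => ce F φ ρ i H x) := by
    unfold ce
    by_cases h1 : i = 1
    · simp only [h1, if_true, one_ne_zero, if_false]
      exact good_one d d.knρ' d.evρ (hX.continuous.mul hH)
        (fun x hx => X_supp m x (left_ne_zero_of_mul hx))
    · simp only [hi, h1, if_false]
      exact good_x0 d d.knρ ((contDiff_pd i hX).continuous.mul hH)
        (fun x hx => pdX_supp i x (left_ne_zero_of_mul hx))
  obtain ⟨C, hC⟩ := hg.bdd
  refine hc.slab d.cN d.neN d.nN _ C hC fun x hx => ⟨hg.supp x hx, ?_⟩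
  unfold ce at hx
  rw [if_neg hi] at hx
  split_ifs at hx with h1
  · exact supp_Q d d.knρ' x _ hx
  · exact supp_xQ d d.knρ x _ hx

/-- error term in the first direction, odd cutoff -/
lemma err_zero (d : Dat F N Cz φ θ ρ) {H : Rn (m + 2) → ℂ} (hH : ContDiff ℝ ∞ H) :
    Tendsto (fun j : ℕ => ∫ x, ((deriv (resc kk j) (x 0) : ℝ) : ℂ) * ce F φ ρ 0 H x) atTop (𝓝 0) := by
  have hX := X_smooth m
  have hG : ContDiff ℝ ∞ (fun x => X m x * H x) := hX.mul hH
  have hGs : HasCompactSupport (fun x => X m x * H x) := (X_hcs m).mul_right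
  set G : Rn (m + 2) → ℂ := fun x => X m x * H x with hGdef
  obtain ⟨L, hL⟩ := hG.lipschitzWith_of_hasCompactSupport hGs (by simp)
  obtain ⟨C, hC0, hC⟩ := d.Q_away d.knφ
  set rf : Rn (m + 2) → Rn (m + 2) := fun x => Function.update x 0 (-x 0) with hrf
  have rf0 : ∀ x, rf x 0 = - x 0 := fun x => by simp [hrf]
  have rf1 : ∀ x, rf x 1 = x 1 := fun x => by simp [hrf]
  set E : Rn (m + 2) → ℂ := fun x => ((Q F (deriv φ) (x 0) (x 1) : ℝ) : ℂ) * (G x - G (rf x)) with hE
  have hEb : ∀ x, ‖E x‖ ≤ 2 * L * C := by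
    intro x
    have h1 : dist x (rf x) ≤ 2 * |x 0| := by
      rw [dist_pi_le_iff (by positivity)]
      intro i
      by_cases hi : i = 0
      · subst hi
        rw [rf0, Real.dist_eq, show x 0 - -x 0 = 2 * x 0 by ring, abs_mul]
        simp
      · have : rf x i = x i := by simp [hrf, hi]
        rw [this, dist_self]; positivity
    have h2 : ‖G x - G (rf x)‖ ≤ L * (2 * |x 0|) := by
      rw [← dist_eq_norm]
      exact (hL.dist_le_mul _ _).trans (mul_le_mul_of_nonneg_left h1 L.2)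
    calc ‖E x‖ = |Q F (deriv φ) (x 0) (x 1)| * ‖G x - G (rf x)‖ := by
          rw [hE]; simp only [norm_mul, Complex.norm_real, Real.norm_eq_abs]
      _ ≤ |Q F (deriv φ) (x 0) (x 1)| * (L * (2 * |x 0|)) :=
          mul_le_mul_of_nonneg_left h2 (abs_nonneg _)
      _ = 2 * L * (|x 0| * |Q F (deriv φ) (x 0) (x 1)|) := by ring
      _ ≤ 2 * L * C := mul_le_mul_of_nonneg_left (hC _ _) (by positivity)
  have hEs : ∀ x, E x ≠ 0 → x ∈ Set.Icc (fun _ => (-3 : ℝ)) (fun _ => 3) ∧
      Metric.infDist (x 1) N ≤ |x 0| := by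
    intro x hx
    refine ⟨?_, supp_Q d d.knφ x _ hx⟩
    have h1 : G x ≠ 0 ∨ G (rf x) ≠ 0 := by
      by_contra hcon
      push Not at hcon
      apply hx
      rw [hE]
      simp only [hcon.1, hcon.2, sub_zero, mul_zero]
    rcases h1 with h1 | h1
    · exact X_supp m x (left_ne_zero_of_mul h1)
    · have h2 := X_supp m _ (left_ne_zero_of_mul h1)
      constructor
      · intro i
        by_cases hi : i = 0
        · subst hi
          have := h2.2 0
          rw [rf0] at this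
          show (-3:ℝ) ≤ x 0
          linarith
        · have := h2.1 i
          have e : rf x i = x i := by simp [hrf, hi]
          rwa [e] at this
      · intro i
        by_cases hi : i = 0
        · subst hi
          have := h2.1 0
          rw [rf0] at this
          show x 0 ≤ (3:ℝ)
          linarith
        · have := h2.2 i
          have e : rf x i = x i := by simp [hrf, hi]
          rwa [e] at this
  have hlim := cut_kk.slab d.cN d.neN d.nN E _ hEb hEs
  have h5 := hlim.const_mul (-(1/2 : ℂ))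
  rw [mul_zero] at h5
  refine h5.congr fun j => ?_
  -- symmetrisation
  have hcz : ∀ t, |t| ≤ 1 / ((j : ℝ) + 1) / 2 → deriv (resc kk j) t = 0 :=
    deriv_cut_zero (by positivity) (cut_kk.resc_zero j)
  have hint : Integrable (fun x : Rn (m + 2) =>
      ((deriv (resc kk j) (x 0) * Q F (deriv φ) (x 0) (x 1) : ℝ) : ℂ) * G x) :=
    cutQ_int m d.cF d.knφ.s d.knφ.c (smooth_deriv (cut_kk.resc_smooth j)).continuous
      (by positivity) hcz hG.continuous hGs
  set Y : Rn (m + 2) → ℂ := fun x =>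
      ((deriv (resc kk j) (x 0) * Q F (deriv φ) (x 0) (x 1) : ℝ) : ℂ) * G x with hY
  have hdev : ∀ t, deriv (resc kk j) (-t) = deriv (resc kk j) t := by
    intro t
    have h2 := deriv_comp_neg (resc kk j) t
    have h3 : deriv (fun z => resc kk j (-z)) t = - deriv (resc kk j) t := by
      have : (fun z => resc kk j (-z)) = fun z => - resc kk j z := by
        funext z
        unfold resc
        rw [mul_neg, kk_odd]
      rw [this]
      exact deriv.fun_neg
    rw [h3] at h2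
    linarith
  have hYr : ∀ x, Y (rf x) = -(((deriv (resc kk j) (x 0) * Q F (deriv φ) (x 0) (x 1) : ℝ) : ℂ) *
      G (rf x)) := by
    intro x
    simp only [hY]
    rw [rf0, rf1, hdev, d.Qφ_odd]
    push_cast
    ring
  have hsum : (∫ x, Y x) + ∫ x, Y (rf x) = ∫ x, ((deriv (resc kk j) (x 0) : ℝ) : ℂ) * E x := by
    have hcr : Continuous rf := by
      refine continuous_pi fun i => ?_
      by_cases hi : i = 0
      · subst hi
        simp only [rf0]
        fun_prop
      · have : (fun x : Rn (m + 2) => rf x i) = fun x => x i := by funext x; simp [hrf, hi]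
        rw [this]
        fun_prop
    have hint2 : Integrable (fun x => Y (rf x)) := by
      have hcY : Continuous Y := (Complex.continuous_ofReal.comp
        (cutQ_continuous Q_continuousOn m F (deriv φ) (deriv (resc kk j)) d.cF d.knφ.s d.knφ.c
          (smooth_deriv (cut_kk.resc_smooth j)).continuous _ (by positivity) hcz)).mul hG.continuous
      refine (hcY.comp hcr).integrable_of_hasCompactSupport ?_
      refine HasCompactSupport.intro (isCompact_Icc (a := fun _ : Fin (m+2) => (-3:ℝ))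
        (b := fun _ => 3)) fun x hx => ?_
      by_contra hne
      apply hx
      have h1 : G (rf x) ≠ 0 := right_ne_zero_of_mul (a := ((deriv (resc kk j) ((rf x) 0) *
        Q F (deriv φ) ((rf x) 0) ((rf x) 1) : ℝ) : ℂ)) hne
      have h2 := X_supp m _ (left_ne_zero_of_mul h1)
      constructor
      · intro i
        by_cases hi : i = 0
        · subst hi
          have := h2.2 0
          rw [rf0] at this
          show (-3:ℝ) ≤ x 0
          linarith
        · have := h2.1 i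
          have e : rf x i = x i := by simp [hrf, hi]
          rwa [e] at this
      · intro i
        by_cases hi : i = 0
        · subst hi
          have := h2.1 0
          rw [rf0] at this
          show x 0 ≤ (3:ℝ)
          linarith
        · have := h2.2 i
          have e : rf x i = x i := by simp [hrf, hi]
          rwa [e] at this
    rw [← integral_add hint hint2]
    congr 1
    funext x
    rw [hYr x]
    simp only [hY, hE]
    push_cast
    ring
  have hre : ∫ x, Y (rf x) = ∫ x, Y x := integral_reflect m Y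
  have hce : ∫ x, ((deriv (resc kk j) (x 0) : ℝ) : ℂ) * ce F φ ρ 0 H x = - ∫ x, Y x := by
    rw [← integral_neg]
    congr 1
    funext x
    simp only [ce, if_true, hY, hGdef]
    push_cast
    ring
  rw [hce, ← hsum, hre]
  ring

end Pool.Agent.Helper960.Rou
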