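import Pool.Agent.Helper960.Rou.Core4

open MeasureTheory Filter Topology
open scoped ContDiff

namespace Pool.Agent.Helper960.Rou

variable {m : ℕ} {F : ℝ → ℝ} {N : Set ℝ} {Cz : ℝ} {φ θ ρ : ℝ → ℝ}

/-- the outcome of the analytic construction -/
structure CoreData (m : ℕ) (N : Set ℝ) (A B : Fin (m + 2) → Rn (m + 2) → ℂ)
    (om : ℕ → Rn (m + 2) → ℂ) : Prop where
  cN : IsCompact N
  neN : N.Nonempty
  nN : volume N = 0
  gA : ∀ i, GoodB (A i)
  gB : ∀ i, GoodB (B i)
  sA : ∀ i x, A i x ≠ 0 → Metric.infDist (x 1) N ≤ |x 0|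
  sB : ∀ i x, B i x ≠ 0 → Metric.infDist (x 1) N ≤ |x 0|
  com : ∀ j, Continuous (om j)
  som : ∀ j x, om j x ≠ 0 → x ∈ Set.Icc (fun _ => (-3 : ℝ)) (fun _ => 3) ∧
    Metric.infDist (x 1) N ≤ |x 0|
  lim : ∀ i (H : Rn (m + 2) → ℂ), ContDiff ℝ ∞ H →
    Tendsto (fun j => ∫ x, om j x * pd i H x) atTop
      (𝓝 ((∫ x, A i x * pd (tau i) H x) + ∫ x, B i x * H x))
  ne : ∫ x : Rn (m + 2), ((hp (x 0) : ℝ) : ℂ) * B 0 x ≠ 0
  zero : ∀ i, i ≠ 0 → ∫ x : Rn (m + 2), ((hp (x 0) : ℝ) : ℂ) * B i x = 0

lemma hp_mul_sg (t : ℝ) : hp t * sg t = hp t := by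
  unfold hp sg
  split_ifs <;> simp

lemma chi0_pos : 0 < ∫ t, chi0 t := chi0.integral_pos

lemma pd_const {n : ℕ} (i : Fin n) (c : ℂ) (x : Rn n) : pd i (fun _ => c) x = 0 := by
  simp [pd]

/-- limits with the one sided cutoff -/
lemma lim_hp (d : Dat F N Cz φ θ ρ) (i : Fin (m + 2)) :
    Tendsto (fun j : ℕ => - ∫ x, ((deriv (resc kp j) (x 0) : ℝ) : ℂ) * ce F φ ρ i (fun _ => 1) x)
      atTop (𝓝 (∫ x : Rn (m + 2), ((hp (x 0) : ℝ) : ℂ) * (cb F φ θ ρ i x * 1))) := by
  have h1 := cut_kp.lim (good_cb (m := m) d i) (H := fun _ => 1) continuous_const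
  refine h1.congr fun j => ?_
  have h2 := basic d (cut_kp.resc_smooth j) (δ := 1 / ((j:ℝ) + 1)) (by positivity)
    (cut_kp.resc_zero j) (H := fun _ : Rn (m + 2) => (1:ℂ)) contDiff_const i
  simp only [pd_const, mul_zero, integral_zero, zero_add] at h2
  linear_combination -h2

theorem core_data (d : Dat F N Cz φ θ ρ) :
    CoreData m N (fun i x => ((sg (x 0) : ℝ) : ℂ) * ca F θ ρ i x)
      (fun i x => ((sg (x 0) : ℝ) : ℂ) * cb F φ θ ρ i x)
      (fun j x => ((resc kk j (x 0) * Q F (deriv φ) (x 0) (x 1) : ℝ) : ℂ) * X m x) where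
  cN := d.cN
  neN := d.neN
  nN := d.nN
  gA := fun i => goodB_real sg_measurable 1 zero_le_one (good_ca d i) (fun t _ => sg_abs t)
  gB := fun i => goodB_real sg_measurable 1 zero_le_one (good_cb d i) (fun t _ => sg_abs t)
  sA := fun i x hx => supp_ca d i x (right_ne_zero_of_mul hx)
  sB := fun i x hx => supp_cb d i x (right_ne_zero_of_mul hx)
  com := by
    intro j
    refine (Complex.continuous_ofReal.comp ?_).mul (X_smooth m).continuous
    exact cutQ_continuous Q_continuousOn m F (deriv φ) (resc kk j) d.cF d.knφ.s d.knφ.c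
      (cut_kk.resc_smooth j).continuous _ (by positivity) (cut_kk.resc_zero j)
  som := by
    intro j x hx
    refine ⟨X_supp m x (right_ne_zero_of_mul hx), ?_⟩
    apply d.Q_supp d.knφ
    intro h0
    apply hx
    rw [h0]; simp
  lim := by
    intro i H hH
    have h1 := cut_kk.lim (good_ca (m := m) d i) (H := pd (tau i) H)
      (contDiff_pd _ hH).continuous
    have h2 := cut_kk.lim (good_cb (m := m) d i) (H := H) hH.continuous
    have h3 : Tendsto (fun j : ℕ => ∫ x, ((deriv (resc kk j) (x 0) : ℝ) : ℂ) * ce F φ ρ i H x)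
        atTop (𝓝 0) := by
      by_cases hi : i = 0
      · subst hi
        exact err_zero d hH
      · exact err_other d cut_kk i hi hH.continuous
    have h4 := (h1.add h2).add h3
    rw [add_zero] at h4
    have e1 : (∫ x, ((sg (x 0) : ℝ) : ℂ) * (ca F θ ρ i x * pd (tau i) H x)) +
        (∫ x, ((sg (x 0) : ℝ) : ℂ) * (cb F φ θ ρ i x * H x)) =
        (∫ x, ((sg (x 0) : ℝ) : ℂ) * ca F θ ρ i x * pd (tau i) H x) +
        ∫ x, ((sg (x 0) : ℝ) : ℂ) * cb F φ θ ρ i x * H x := by
      simp only [mul_assoc]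
    rw [e1] at h4
    refine h4.congr fun j => ?_
    have h5 := basic d (cut_kk.resc_smooth j) (δ := 1 / ((j:ℝ) + 1)) (by positivity)
      (cut_kk.resc_zero j) hH i
    rw [← h5]
    congr 1
    funext x
    ring
  ne := by
    have h1 := lim_hp (m := m) d 0
    have hval : ∀ j : ℕ, 1 ≤ j →
        (- ∫ x, ((deriv (resc kp j) (x 0) : ℝ) : ℂ) * ce F φ ρ (0 : Fin (m + 2)) (fun _ => 1) x) =
        (((∫ t, chi0 t) ^ m : ℝ) : ℂ) := by
      intro j hj
      have hj1 : (1:ℝ) ≤ j := by exact_mod_cast hj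
      have hjp : (0:ℝ) < (j:ℝ) + 1 := by positivity
      have hcs : ∀ t, deriv (resc kp j) t ≠ 0 → 1 / ((j:ℝ) + 1) ≤ t ∧ t ≤ 1 := by
        intro t ht
        rw [cut_kp.resc_deriv] at ht
        have h2 : deriv kp (((j:ℝ) + 1) * t) ≠ 0 := right_ne_zero_of_mul ht
        have h3 : 1 ≤ ((j:ℝ) + 1) * t := by
          by_contra hcon
          push Not at hcon
          apply h2
          have hev : kp =ᶠ[𝓝 (((j:ℝ) + 1) * t)] fun _ => (0:ℝ) := by
            filter_upwards [Iio_mem_nhds hcon] with s hs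
            exact kp_zero (le_of_lt hs)
          rw [hev.deriv_eq]; simp
        have h4 : ((j:ℝ) + 1) * t ≤ 2 := by
          by_contra hcon
          push Not at hcon
          apply h2
          apply cut_kp.d0
          rw [abs_of_pos (by linarith)]
          exact hcon
        constructor
        · rw [div_le_iff₀ hjp]; linarith [mul_comm t ((j:ℝ) + 1)]
        · by_contra hcon
          push Not at hcon
          nlinarith
      have hcont : ∀ (m : ℕ), Continuous (fun x : Rn (m + 2) =>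
          deriv (resc kp j) (x 0) * Q F (deriv φ) (x 0) (x 1)) := fun m =>
        cutQ_continuous Q_continuousOn m F (deriv φ) (deriv (resc kp j)) d.cF d.knφ.s d.knφ.c
          (smooth_deriv (cut_kp.resc_smooth j)).continuous (1 / ((j:ℝ) + 1) / 2) (by positivity)
          (deriv_cut_zero (by positivity) (cut_kp.resc_zero j))
      have hchi1 : ∀ x ∈ Set.Icc (-2:ℝ) 2, chi0 x = 1 := by
        intro x hx
        apply chi0.one_of_mem_closedBall
        rw [Metric.mem_closedBall, Real.dist_eq, sub_zero]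
        exact abs_le.2 hx
      have hmass := mass_n m F (deriv φ) (Q_continuousOn F (deriv φ) d.cF d.knφ.s d.knφ.c)
        (fun t => chi0 t) chi0.continuous chi0.hasCompactSupport hchi1
        (fun s hs hs1 => Q_mass F φ d.cF d.F0 d.F1 d.sφ d.zφ d.iφ (fun t => chi0 t)
          chi0.continuous hchi1 s hs hs1)
        (deriv (resc kp j)) (smooth_deriv (cut_kp.resc_smooth j)).continuous
        (1 / ((j:ℝ) + 1)) (by positivity) hcs hcont integral_cons
      have hone : ∫ t, deriv (resc kp j) t = 1 := by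
        have hd : ∀ t, HasDerivAt (resc kp j) (deriv (resc kp j) t) t := fun t =>
          (((cut_kp.resc_smooth j).differentiable (by simp)) t).hasDerivAt
        have hi : Integrable (deriv (resc kp j)) := by
          refine (smooth_deriv (cut_kp.resc_smooth j)).continuous.integrable_of_hasCompactSupport ?_
          refine HasCompactSupport.intro (isCompact_Icc (a := (0:ℝ)) (b := 1)) fun x hx => ?_
          by_contra hne
          have := hcs x hne
          exact hx ⟨le_trans (by positivity) this.1, this.2⟩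
        have hb : Tendsto (resc kp j) atBot (𝓝 0) := by
          refine tendsto_const_nhds.congr' ?_
          filter_upwards [eventually_le_atBot (0:ℝ)] with t ht
          unfold resc
          rw [kp_zero]
          have : ((j:ℝ) + 1) * t ≤ 0 := mul_nonpos_of_nonneg_of_nonpos hjp.le ht
          linarith
        have ht : Tendsto (resc kp j) atTop (𝓝 1) := by
          refine tendsto_const_nhds.congr' ?_
          filter_upwards [eventually_ge_atTop (2:ℝ)] with t ht
          unfold resc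
          rw [kp_one]
          nlinarith
        have := integral_of_hasDerivAt_of_tendsto hd hi hb ht
        rw [this]; ring
      rw [hone, one_mul] at hmass
      have e2 := integral_ofReal (𝕜 := ℂ) (μ := (volume : Measure (Rn (m + 2))))
        (f := fun x => deriv (resc kp j) (x 0) * Q F (deriv φ) (x 0) (x 1) * ∏ i, chi0 (x i))
      rw [← hmass, ← integral_neg]
      refine Eq.trans ?_ e2
      congr 1
      funext x
      simp only [ce, if_true, X, mul_one]
      simp only [Complex.coe_algebraMap, Complex.ofReal_mul, Complex.ofReal_prod]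
      ring
    have h2 : Tendsto (fun j : ℕ => - ∫ x, ((deriv (resc kp j) (x 0) : ℝ) : ℂ) *
        ce F φ ρ (0 : Fin (m + 2)) (fun _ => 1) x) atTop (𝓝 (((∫ t, chi0 t) ^ m : ℝ) : ℂ)) := by
      refine tendsto_const_nhds.congr' ?_
      filter_upwards [eventually_ge_atTop 1] with j hj
      exact (hval j hj).symm
    have h3 := tendsto_nhds_unique h1 h2
    have e1 : ∫ x : Rn (m + 2), ((hp (x 0) : ℝ) : ℂ) * (((sg (x 0) : ℝ) : ℂ) * cb F φ θ ρ 0 x) =
        (((∫ t, chi0 t) ^ m : ℝ) : ℂ) := by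
      rw [← h3]
      congr 1
      funext x
      rw [← mul_assoc, ← Complex.ofReal_mul, hp_mul_sg, mul_one]
    rw [e1]
    exact Complex.ofReal_ne_zero.2 (pow_pos chi0_pos m).ne'
  zero := by
    intro i hi
    have h1 := lim_hp (m := m) d i
    have h2 := (err_other (m := m) d cut_kp i hi (H := fun _ => 1) continuous_const).neg
    rw [neg_zero] at h2
    have h3 := tendsto_nhds_unique h1 h2
    rw [← h3]
    congr 1
    funext x
    rw [← mul_assoc, ← Complex.ofReal_mul, hp_mul_sg, mul_one]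

theorem exists_core (m : ℕ) : ∃ (N : Set ℝ) (A B : Fin (m + 2) → Rn (m + 2) → ℂ)
    (om : ℕ → Rn (m + 2) → ℂ), CoreData m N A B om := by
  obtain ⟨F, N, C, h1, h2, h3, h4, h5, h6, h7, h8, h9, h10⟩ := Zyg.exists_zygmund_sing
  obtain ⟨φ, θ, ρ, g1, g2, g3, g4, g5, g6, g7, g8, g9, g10, g11⟩ := exists_kernels
  exact ⟨N, _, _, _, core_data (m := m)
    ⟨h1, h2, h3, h4, h5, h6, h7, h8, h9, h10, g1, g2, g3, g4, g5, g6, g7, g8, g9, g10, g11⟩⟩

end Pool.Agent.Helper960.Rou
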