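import Mathlib

open MeasureTheory
open scoped ContDiff

namespace Pool.Agent.Helper960.Rou

/-- the space `ℝⁿ` -/
abbrev Rn (n : ℕ) := Fin n → ℝ

/-- the partial derivative `∂_i` -/
noncomputable def pd {n : ℕ} (i : Fin n) (f : Rn n → ℂ) : Rn n → ℂ :=
  fun x => fderiv ℝ f x (Pi.single i 1)

/-- iterated partial derivatives: `D [i₁, …, i_k] f = ∂_{i₁} ⋯ ∂_{i_k} f` -/
noncomputable def D {n : ℕ} : List (Fin n) → (Rn n → ℂ) → Rn n → ℂ
  | [], f => f
  | i :: l, f => pd i (D l f)

/-- `g` is the weak derivative `D^l f` -/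
def IsWeakD {n : ℕ} (l : List (Fin n)) (f g : Rn n → ℂ) : Prop :=
  ∀ φ : Rn n → ℂ, ContDiff ℝ ∞ φ → HasCompactSupport φ →
    ∫ x, f x * D l φ x = (-1) ^ l.length * ∫ x, g x * φ x

section basic

variable {n : ℕ}

lemma contDiff_pd (i : Fin n) {f : Rn n → ℂ} (hf : ContDiff ℝ ∞ f) : ContDiff ℝ ∞ (pd i f) := by
  have h := hf.fderiv_right (m := ∞) (by simp)
  exact h.clm_apply contDiff_const

lemma contDiff_D (l : List (Fin n)) {f : Rn n → ℂ} (hf : ContDiff ℝ ∞ f) :
    ContDiff ℝ ∞ (D l f) := by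
  induction l with
  | nil => exact hf
  | cons i l ih => exact contDiff_pd i ih

lemma hcs_pd (i : Fin n) {f : Rn n → ℂ} (hf : HasCompactSupport f) :
    HasCompactSupport (pd i f) := by
  have h := hf.fderiv (𝕜 := ℝ)
  exact h.comp_left (g := fun L : Rn n →L[ℝ] ℂ => L (Pi.single i 1)) (by simp)

lemma hcs_D (l : List (Fin n)) {f : Rn n → ℂ} (hf : HasCompactSupport f) :
    HasCompactSupport (D l f) := by
  induction l with
  | nil => exact hf
  | cons i l ih => exact hcs_pd i ih

lemma pd_add (i : Fin n) {f g : Rn n → ℂ} (hf : ContDiff ℝ ∞ f) (hg : ContDiff ℝ ∞ g) :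
    pd i (f + g) = pd i f + pd i g := by
  funext x
  have h1 : DifferentiableAt ℝ f x := (hf.differentiable (by simp)) x
  have h2 : DifferentiableAt ℝ g x := (hg.differentiable (by simp)) x
  simp only [pd, Pi.add_apply]
  rw [fderiv_add h1 h2]
  rfl

/-- partial derivatives of smooth functions commute -/
lemma pd_comm (i j : Fin n) {f : Rn n → ℂ} (hf : ContDiff ℝ ∞ f) :
    pd i (pd j f) = pd j (pd i f) := by
  funext x
  have hsym : IsSymmSndFDerivAt ℝ f x := by
    apply ContDiffAt.isSymmSndFDerivAt (n := ∞) hf.contDiffAt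
    simp only [minSmoothness_of_isRCLikeNormedField]
    show ((2 : ℕ∞) : WithTop ℕ∞) ≤ ((⊤ : ℕ∞) : WithTop ℕ∞)
    exact WithTop.coe_le_coe.2 le_top
  have hd : DifferentiableAt ℝ (fderiv ℝ f) x :=
    ((hf.fderiv_right (m := ∞) (by simp)).differentiable (by simp)) x
  have key : ∀ a b : Fin n, pd a (pd b f) x = fderiv ℝ (fderiv ℝ f) x (Pi.single a 1) (Pi.single b 1) := by
    intro a b
    have e1 : pd b f = fun y => (fderiv ℝ f y) (Pi.single b 1) := rfl
    rw [e1]
    simp only [pd]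
    have := fderiv_clm_apply (𝕜 := ℝ) (c := fderiv ℝ f) (u := fun _ : Rn n => (Pi.single b 1 : Rn n)) (x := x) hd
      (differentiableAt_const _)
    rw [this]
    simp
  rw [key, key]
  exact hsym _ _

/-- `D` of a cons list can be moved to the right for smooth functions -/
lemma D_cons_comm (i : Fin n) (l : List (Fin n)) {f : Rn n → ℂ} (hf : ContDiff ℝ ∞ f) :
    D (i :: l) f = D l (pd i f) := by
  induction l with
  | nil => rfl
  | cons j l ih =>
    have h1 : D (i :: j :: l) f = pd i (pd j (D l f)) := rfl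
    rw [h1, pd_comm i j (contDiff_D l hf)]
    have h2 : D (j :: l) (pd i f) = pd j (D l (pd i f)) := rfl
    rw [h2, ← ih]
    rfl

end basic

end Pool.Agent.Helper960.Rou
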