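import Pool.Agent.Helper960.Rou.Defs

open MeasureTheory Filter Topology
open scoped ContDiff ENNReal

set_option linter.unusedVariables false

namespace Pool.Agent.Helper960.Rou

theorem G_cons (k : ℕ) (a : ℝ) (y : Fin k → ℝ) :
    (MeasurableEquiv.piFinSuccAbove (fun _ : Fin (k + 1) => ℝ) 0).symm (a, y)
      = (Fin.cons a y : Fin (k + 1) → ℝ) := by
  change Fin.insertNth (α := fun _ => ℝ) 0 a y = _
  rw [Fin.insertNth_zero]
  rfl

theorem lintegral_cons (k : ℕ) (G : Rn (k + 1) → ℝ≥0∞) (hG : Measurable G) :
    ∫⁻ x, G x = ∫⁻ s : ℝ, ∫⁻ y : Rn k, G (Fin.cons s y) := by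
  have h1 := (volume_preserving_piFinSuccAbove (fun _ : Fin (k + 1) => ℝ) 0).symm
  have h2 := h1.lintegral_comp hG
  have h2' : ∫⁻ p : Rn (k + 1), G p = ∫⁻ z : ℝ × (Fin k → ℝ),
      G ((MeasurableEquiv.piFinSuccAbove (fun _ : Fin (k + 1) => ℝ) 0).symm z) := h2.symm
  rw [h2']
  have hm : Measurable (fun z : ℝ × (Fin k → ℝ) =>
      G ((MeasurableEquiv.piFinSuccAbove (fun _ : Fin (k + 1) => ℝ) 0).symm z)) :=
    hG.comp (MeasurableEquiv.measurable _)
  change ∫⁻ z : ℝ × (Fin k → ℝ), G ((MeasurableEquiv.piFinSuccAbove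
    (fun _ : Fin (k + 1) => ℝ) 0).symm z) ∂((volume : Measure ℝ).prod (volume : Measure (Fin k → ℝ))) = _
  rw [lintegral_prod _ hm.aemeasurable]
  apply lintegral_congr
  intro a
  apply lintegral_congr
  intro y
  rw [G_cons]

theorem integral_cons (k : ℕ) (G : Rn (k + 1) → ℝ) (hG : Integrable G) :
    ∫ x, G x = ∫ s : ℝ, ∫ y : Rn k, G (Fin.cons s y) := by
  have h1 := (volume_preserving_piFinSuccAbove (fun _ : Fin (k + 1) => ℝ) 0).symm
  have h2 := h1.integral_comp' (g := G)
  rw [← h2]
  have hm : Integrable (fun z : ℝ × (Fin k → ℝ) =>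
      G ((MeasurableEquiv.piFinSuccAbove (fun _ : Fin (k + 1) => ℝ) 0).symm z))
      ((volume : Measure ℝ).prod (volume : Measure (Fin k → ℝ))) :=
    (h1.integrable_comp_emb (MeasurableEquiv.measurableEmbedding _)).2 hG
  change ∫ z : ℝ × (Fin k → ℝ), G ((MeasurableEquiv.piFinSuccAbove
    (fun _ : Fin (k + 1) => ℝ) 0).symm z) ∂((volume : Measure ℝ).prod (volume : Measure (Fin k → ℝ))) = _
  rw [integral_prod _ hm]
  apply integral_congr_ae
  refine ae_of_all _ (fun a => ?_)
  apply integral_congr_ae
  refine ae_of_all _ (fun y => ?_)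
  simp only
  rw [G_cons]

theorem integrableOn_inv_h (m : ℕ) (h : ℝ → ℝ) (hh : Continuous h) (h0 : ∀ t, 0 ≤ h t) (R : ℝ) :
    IntegrableOn (fun x : Rn (m + 2) => if |x 0| ≤ h (x 1) then (h (x 1))⁻¹ else 0)
      (Set.Icc (fun _ => -R) (fun _ => R)) := by
  set f : Rn (m + 2) → ℝ := fun x => if |x 0| ≤ h (x 1) then (h (x 1))⁻¹ else 0 with hf
  have hfm : Measurable f := by
    apply Measurable.ite
    · apply measurableSet_le
      · exact (measurable_pi_apply 0).abs
      · exact hh.measurable.comp (measurable_pi_apply 1)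
    · exact (hh.measurable.comp (measurable_pi_apply 1)).inv
    · exact measurable_const
  have hf0 : ∀ x, 0 ≤ f x := by
    intro x
    simp only [hf]
    split_ifs
    · exact inv_nonneg.2 (h0 _)
    · exact le_rfl
  have hbox : MeasurableSet (Set.Icc (fun _ => -R) (fun _ => R) : Set (Rn (m + 2))) :=
    measurableSet_Icc
  refine ⟨hfm.aestronglyMeasurable, ?_⟩
  rw [hasFiniteIntegral_iff_ofReal (ae_of_all _ hf0), ← lintegral_indicator hbox]
  have hGm : Measurable ((Set.Icc (fun _ => -R) (fun _ => R) : Set (Rn (m + 2))).indicator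
      (fun x => ENNReal.ofReal (f x))) := (hfm.ennreal_ofReal).indicator hbox
  rw [lintegral_cons _ _ hGm]
  have hcm : Measurable (fun z : ℝ × Rn (m + 1) => (Fin.cons z.1 z.2 : Rn (m + 2))) := by
    rw [measurable_pi_iff]
    intro i
    refine Fin.cases ?_ (fun j => ?_) i
    · exact measurable_fst
    · exact (measurable_pi_apply j).comp measurable_snd
  have hsw := lintegral_lintegral_swap (μ := (volume : Measure ℝ))
    (ν := (volume : Measure (Rn (m + 1))))
    (f := fun s y => (Set.Icc (fun _ => -R) (fun _ => R) : Set (Rn (m + 2))).indicator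
      (fun x => ENNReal.ofReal (f x)) (Fin.cons s y)) (hGm.comp hcm).aemeasurable
  rw [hsw]
  have hbox' : MeasurableSet (Set.Icc (fun _ => -R) (fun _ => R) : Set (Rn (m + 1))) :=
    measurableSet_Icc
  have hle : ∀ y : Rn (m + 1), ∫⁻ s : ℝ, (Set.Icc (fun _ => -R) (fun _ => R) :
      Set (Rn (m + 2))).indicator (fun x => ENNReal.ofReal (f x)) (Fin.cons s y)
      ≤ (Set.Icc (fun _ => -R) (fun _ => R) : Set (Rn (m + 1))).indicator (fun _ => 2) y := by
    intro y
    by_cases hy : y ∈ (Set.Icc (fun _ => -R) (fun _ => R) : Set (Rn (m + 1)))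
    · rw [Set.indicator_of_mem hy]
      calc ∫⁻ s : ℝ, (Set.Icc (fun _ => -R) (fun _ => R) :
            Set (Rn (m + 2))).indicator (fun x => ENNReal.ofReal (f x)) (Fin.cons s y)
          ≤ ∫⁻ s : ℝ, (Set.Icc (-(h (y 0))) (h (y 0))).indicator
              (fun _ => ENNReal.ofReal ((h (y 0))⁻¹)) s := by
            apply lintegral_mono
            intro s
            refine (Set.indicator_le_self _ _ _).trans ?_
            have e1 : f (Fin.cons s y) = if |s| ≤ h (y 0) then (h (y 0))⁻¹ else 0 := rfl
            rw [e1]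
            split_ifs with hs
            · rw [Set.indicator_of_mem (by rw [Set.mem_Icc, ← abs_le]; exact hs)]
            · simp
        _ = ENNReal.ofReal ((h (y 0))⁻¹) * ENNReal.ofReal (h (y 0) - -(h (y 0))) := by
            rw [lintegral_indicator measurableSet_Icc, setLIntegral_const, Real.volume_Icc]
        _ ≤ 2 := by
            rw [← ENNReal.ofReal_mul (inv_nonneg.2 (h0 _))]
            have : (h (y 0))⁻¹ * (h (y 0) - -(h (y 0))) ≤ 2 := by
              have e : (h (y 0))⁻¹ * (h (y 0) - -(h (y 0))) = 2 * ((h (y 0))⁻¹ * h (y 0)) := by ring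
              rw [e]
              have : (h (y 0))⁻¹ * h (y 0) ≤ 1 := inv_mul_le_one
              linarith
            calc ENNReal.ofReal _ ≤ ENNReal.ofReal 2 := ENNReal.ofReal_le_ofReal this
              _ = 2 := by simp
    · rw [Set.indicator_of_notMem hy]
      have : ∀ s : ℝ, (Set.Icc (fun _ => -R) (fun _ => R) :
          Set (Rn (m + 2))).indicator (fun x => ENNReal.ofReal (f x)) (Fin.cons s y) = 0 := by
        intro s
        apply Set.indicator_of_notMem
        intro hs
        apply hy
        constructor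
        · intro i
          exact hs.1 i.succ
        · intro i
          exact hs.2 i.succ
      simp only [this, lintegral_zero, le_refl]
  refine lt_of_le_of_lt (lintegral_mono hle) ?_
  rw [lintegral_indicator hbox', setLIntegral_const]
  apply ENNReal.mul_lt_top (by simp)
  exact isCompact_Icc.measure_lt_top

theorem null_coord (m : ℕ) (i : Fin m) (N : Set ℝ) (hN : volume N = 0) :
    volume {x : Rn m | x i ∈ N} = 0 := by
  exact (Measure.quasiMeasurePreserving_eval (fun _ : Fin m => (volume : Measure ℝ)) i).preimage_null hN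

theorem tendsto_slab (m : ℕ) (N : Set ℝ) (hN : IsCompact N) (hne : N.Nonempty)
    (hN0 : volume N = 0) (C R : ℝ) (Y : ℕ → Rn (m + 2) → ℂ)
    (hY : ∀ j x, ‖Y j x‖ ≤ C * (j + 1))
    (hY0 : ∀ j x, Y j x ≠ 0 → x ∈ Set.Icc (fun _ => -R) (fun _ => R) ∧
      |x 0| ≤ 2 / (j + 1) ∧ Metric.infDist (x 1) N ≤ 2 / (j + 1)) :
    Tendsto (fun j => ∫ x, Y j x) atTop (𝓝 0) := by
  have hC : 0 ≤ C := by
    have := (norm_nonneg _).trans (hY 0 0)
    simpa using this
  have hpos : ∀ j : ℕ, (0:ℝ) < (j:ℝ) + 1 := fun j => by positivity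
  set T : ℕ → Fin (m + 2) → Set ℝ := fun j => Fin.cons (Set.Icc (-(2 / ((j:ℝ) + 1))) (2 / ((j:ℝ) + 1)))
    (Fin.cons (Metric.cthickening (2 / ((j:ℝ) + 1)) N) (fun _ : Fin m => Set.Icc (-R) R)) with hT
  have hTm : ∀ j i, MeasurableSet (T j i) := by
    intro j i
    refine Fin.cases ?_ (fun i => ?_) i
    · exact measurableSet_Icc
    · refine Fin.cases ?_ (fun i => ?_) i
      · exact Metric.isClosed_cthickening.measurableSet
      · exact measurableSet_Icc
  set S : ℕ → Set (Rn (m + 2)) := fun j => Set.univ.pi (T j) with hS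
  have hSm : ∀ j, MeasurableSet (S j) := fun j => MeasurableSet.univ_pi (hTm j)
  set K : ℝ≥0∞ := ∏ _i : Fin m, volume (Set.Icc (-R) R) with hK
  have hKt : K ≠ ⊤ := by
    rw [hK]
    apply ENNReal.prod_ne_top
    intro i _
    exact isCompact_Icc.measure_lt_top.ne
  have hvol : ∀ j, volume (S j) = ENNReal.ofReal (4 / ((j:ℝ) + 1))
      * (volume (Metric.cthickening (2 / ((j:ℝ) + 1)) N) * K) := by
    intro j
    rw [hS]
    simp only
    rw [volume_pi_pi, Fin.prod_univ_succ, Fin.prod_univ_succ]
    have e0 : T j 0 = Set.Icc (-(2 / ((j:ℝ) + 1))) (2 / ((j:ℝ) + 1)) := rfl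
    have e1 : T j (Fin.succ 0) = Metric.cthickening (2 / ((j:ℝ) + 1)) N := rfl
    have e2 : ∀ i : Fin m, T j i.succ.succ = Set.Icc (-R) R := fun i => rfl
    simp only [e0, e1, e2]
    rw [Real.volume_Icc]
    congr 2
    ring
  have hcth : Tendsto (fun j : ℕ => volume (Metric.cthickening (2 / ((j:ℝ) + 1)) N)) atTop (𝓝 0) := by
    have h1 := tendsto_measure_cthickening_of_isCompact (μ := (volume : Measure ℝ)) hN
    rw [hN0] at h1
    have h2 : Tendsto (fun j : ℕ => 2 / ((j:ℝ) + 1)) atTop (𝓝 0) := by
      have := (tendsto_one_div_add_atTop_nhds_zero_nat (𝕜 := ℝ)).const_mul 2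
      rw [mul_zero] at this
      refine this.congr (fun j => ?_)
      ring
    exact h1.comp h2
  have hcfin : ∀ j : ℕ, volume (Metric.cthickening (2 / ((j:ℝ) + 1)) N) ≠ ⊤ :=
    fun j => hN.cthickening.measure_lt_top.ne
  have hreal : ∀ j, volume.real (S j) = 4 / ((j:ℝ) + 1)
      * ((volume (Metric.cthickening (2 / ((j:ℝ) + 1)) N)).toReal * K.toReal) := by
    intro j
    rw [measureReal_def, hvol, ENNReal.toReal_mul, ENNReal.toReal_mul, ENNReal.toReal_ofReal]
    have := hpos j
    positivity
  have hSfin : ∀ j, volume (S j) ≠ ⊤ := by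
    intro j
    rw [hvol]
    exact ENNReal.mul_ne_top ENNReal.ofReal_ne_top (ENNReal.mul_ne_top (hcfin j) hKt)
  have hbound : ∀ j, ‖∫ x, Y j x‖ ≤ 4 * C * K.toReal
      * (volume (Metric.cthickening (2 / ((j:ℝ) + 1)) N)).toReal := by
    intro j
    have hj := hpos j
    calc ‖∫ x, Y j x‖ ≤ ∫ x, ‖Y j x‖ := norm_integral_le_integral_norm _
      _ ≤ ∫ x, (S j).indicator (fun _ => C * ((j:ℝ) + 1)) x := by
          apply integral_mono_of_nonneg (ae_of_all _ (fun x => norm_nonneg _))
          · exact (integrableOn_const (hs := hSfin j) (C := C * ((j:ℝ) + 1))).integrable_indicator (hSm j)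
          · refine ae_of_all _ (fun x => ?_)
            simp only
            by_cases hx : Y j x = 0
            · rw [hx, norm_zero]
              exact Set.indicator_nonneg (fun _ _ => by positivity) _
            · obtain ⟨h1, h2, h3⟩ := hY0 j x hx
              have hxS : x ∈ S j := by
                rw [hS]
                simp only
                rw [Set.mem_univ_pi]
                intro i
                refine Fin.cases ?_ (fun i => ?_) i
                · exact abs_le.1 h2
                · refine Fin.cases ?_ (fun i => ?_) i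
                  · change x 1 ∈ Metric.cthickening (2 / ((j:ℝ) + 1)) N
                    rw [Metric.mem_cthickening_iff]
                    rw [Metric.infDist] at h3
                    exact (ENNReal.le_ofReal_iff_toReal_le (Metric.infEDist_ne_top hne)
                      (by positivity)).2 h3
                  · exact ⟨h1.1 _, h1.2 _⟩
              rw [Set.indicator_of_mem hxS]
              exact hY j x
      _ = volume.real (S j) * (C * ((j:ℝ) + 1)) := by
          rw [integral_indicator_const _ (hSm j), smul_eq_mul]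
      _ = _ := by
          rw [hreal]
          field_simp
  rw [tendsto_zero_iff_norm_tendsto_zero]
  refine squeeze_zero (fun j => norm_nonneg _) hbound ?_
  have h1 := (ENNReal.tendsto_toReal ENNReal.zero_ne_top).comp hcth
  have h2 := h1.const_mul (4 * C * K.toReal)
  simpa using h2

theorem integral_reflect (m : ℕ) (Y : Rn (m + 2) → ℂ) :
    ∫ x, Y (Function.update x 0 (-x 0)) = ∫ x, Y x := by
  set g : Rn (m + 2) → Rn (m + 2) := fun x => Function.update x 0 (-x 0) with hg
  have hinv : Function.Involutive g := by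
    intro x
    simp only [hg]
    funext i
    by_cases hi : i = 0
    · subst hi; simp
    · simp [Function.update_of_ne hi]
  have hgm : Measurable g := by
    rw [measurable_pi_iff]
    intro i
    by_cases hi : i = 0
    · subst hi
      simp only [hg, Function.update_self]
      exact (measurable_pi_apply 0).neg
    · simp only [hg, Function.update_of_ne hi]
      exact measurable_pi_apply i
  have hmp : MeasurePreserving g volume volume := by
    have h1 := volume_preserving_pi (α' := fun _ : Fin (m + 2) => ℝ) (β' := fun _ : Fin (m + 2) => ℝ)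
      (f := fun i => if i = 0 then (fun t : ℝ => -t) else id) (by
        intro i
        by_cases hi : i = 0
        · rw [if_pos hi]
          exact Measure.measurePreserving_neg volume
        · rw [if_neg hi]
          exact MeasurePreserving.id volume)
    have h2 : g = fun a i => (if i = 0 then (fun t : ℝ => -t) else id) (a i) := by
      funext x i
      by_cases hi : i = 0
      · subst hi; simp [hg]
      · simp [hg, hi]
    rw [h2]
    exact h1
  exact hmp.integral_comp (MeasurableEquiv.ofInvolutive g hinv hgm).measurableEmbedding Y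

end Pool.Agent.Helper960.Rou
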