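import Pool.Agent.Helper960.Rou.Str
import Pool.Agent.Helper960.Rou.Fub

open MeasureTheory Filter Topology
open scoped ContDiff

set_option linter.unusedVariables false

namespace Pool.Agent.Helper960.Rou

theorem exists_h (N : Set ℝ) (hN : IsCompact N) (hne : N.Nonempty) :
    ∃ h : ℝ → ℝ, ContDiff ℝ ∞ h ∧ (∀ t, 0 ≤ h t) ∧ (∀ t, h t ≤ 1) ∧ (∀ t, h t = 0 ↔ t ∈ N) ∧
      ∀ t, |t| ≤ 3 → h t ≤ Metric.infDist t N := by
  obtain ⟨g, hsupp, hg, hrange⟩ :=
    (hN.isClosed.isOpen_compl).exists_contDiff_support_eq (n := (⊤ : ℕ∞))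
  have hg0 : ∀ t, 0 ≤ g t := fun t => (hrange ⟨t, rfl⟩).1
  have hg1 : ∀ t, g t ≤ 1 := fun t => (hrange ⟨t, rfl⟩).2
  have hgz : ∀ t, g t = 0 ↔ t ∈ N := by
    intro t
    have h1 : t ∈ Function.support g ↔ t ∈ Nᶜ := by rw [hsupp]
    rw [Function.mem_support, Set.mem_compl_iff] at h1
    exact not_iff_not.mp h1
  obtain ⟨R, hR⟩ := hN.isBounded.subset_closedBall 0
  have hgd : Differentiable ℝ g := hg.differentiable (by simp)
  have hgc : Continuous (deriv g) := hg.continuous_deriv (by simp)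
  obtain ⟨D, hD⟩ := (isCompact_closedBall (0:ℝ) (max R 3)).exists_bound_of_continuousOn hgc.continuousOn
  have hD0 : 0 ≤ D := by
    refine le_trans (norm_nonneg (deriv g 0)) (hD 0 ?_)
    rw [mem_closedBall_zero_iff, norm_zero]
    exact le_trans (by norm_num) (le_max_right R 3)
  have hc : 0 < 1 / (1 + D) := by positivity
  have hc1 : 1 / (1 + D) ≤ 1 := by
    rw [div_le_one (by linarith)]; linarith
  refine ⟨fun t => 1 / (1 + D) * g t, contDiff_const.mul hg, fun t => mul_nonneg hc.le (hg0 t), ?_, ?_, ?_⟩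
  · intro t
    calc 1 / (1 + D) * g t ≤ 1 * 1 := mul_le_mul hc1 (hg1 t) (hg0 t) zero_le_one
      _ = 1 := one_mul 1
  · intro t
    rw [mul_eq_zero, ← hgz t]
    constructor
    · rintro (h | h)
      · exact absurd h hc.ne'
      · exact h
    · intro h
      exact Or.inr h
  · intro t ht
    obtain ⟨t1, ht1, hdist⟩ := hN.exists_infDist_eq_dist hne t
    rw [hdist, Real.dist_eq]
    have h1 := (convex_closedBall (0:ℝ) (max R 3)).norm_image_sub_le_of_norm_deriv_le
      (f := g) (C := D) (x := t1) (y := t) (fun x _ => hgd x) hD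
      (Metric.closedBall_subset_closedBall (le_max_left R 3) (hR ht1))
      (by
        rw [mem_closedBall_zero_iff, Real.norm_eq_abs]
        exact le_trans ht (le_max_right _ _))
    rw [(hgz t1).mpr ht1, sub_zero, Real.norm_eq_abs, Real.norm_eq_abs, abs_of_nonneg (hg0 t)] at h1
    calc 1 / (1 + D) * g t ≤ 1 / (1 + D) * (D * |t - t1|) := mul_le_mul_of_nonneg_left h1 hc.le
      _ = (D / (1 + D)) * |t - t1| := by ring
      _ ≤ 1 * |t - t1| := by
          apply mul_le_mul_of_nonneg_right _ (abs_nonneg _)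
          rw [div_le_one (by linarith)]
          linarith
      _ = _ := one_mul _

theorem contDiffOn_D (n : ℕ) (U : Set (Rn n)) (hU : IsOpen U) (l : List (Fin n)) (H : Rn n → ℂ)
    (hH : ContDiffOn ℝ ∞ H U) : ContDiffOn ℝ ∞ (D l H) U := by
  induction l with
  | nil => exact hH
  | cons i l ih =>
    show ContDiffOn ℝ ∞ (fun x => fderiv ℝ (D l H) x (Pi.single i 1)) U
    have h1 : ContDiffOn ℝ ∞ (fderiv ℝ (D l H)) U := ih.fderiv_of_isOpen hU (by simp)
    exact h1.clm_apply contDiffOn_const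

theorem locInt_D_fr (m q : ℕ) (h : ℝ → ℝ) (hh : ContDiff ℝ ∞ h) (h0 : ∀ t, 0 ≤ h t)
    (h1 : ∀ t, h t ≤ 1) (hN : volume {t | h t = 0} = 0)
    (hsm : ContDiffOn ℝ ∞ (fr m q h) {x | x 0 ≠ 0 ∨ h (x 1) ≠ 0})
    (hfar : ∀ (l : List (Fin (m + 2))) (x : Rn (m + 2)), h (x 1) / 2 < |x 0| →
      D l (fr m q h) x = if 0 < x 0 ∧ (∀ i ∈ l, i = 0) ∧ l.length ≤ q then
      ((x 0 ^ (q - l.length) / (q - l.length).factorial : ℝ) : ℂ) else 0)
    (hnear : ∀ (l : List (Fin (m + 2))), l.length ≤ q + 1 → ∀ R : ℝ,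
      ∃ C : ℝ, ∀ x : Rn (m + 2), (∀ i, |x i| ≤ R) → h (x 1) ≠ 0 → |x 0| ≤ h (x 1) →
      ‖D l (fr m q h) x‖ ≤ C / h (x 1))
    (hint : ∀ R : ℝ, IntegrableOn (fun x : Rn (m + 2) => if |x 0| ≤ h (x 1) then (h (x 1))⁻¹ else 0)
      (Set.Icc (fun _ => -R) (fun _ => R)))
    (l : List (Fin (m + 2))) (hl : l.length ≤ q + 1) :
    LocallyIntegrable (D l (fr m q h)) volume := by
  have hUo : IsOpen {x : Rn (m + 2) | x 0 ≠ 0 ∨ h (x 1) ≠ 0} := by
    have e : {x : Rn (m + 2) | x 0 ≠ 0 ∨ h (x 1) ≠ 0} =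
        {x : Rn (m + 2) | x 0 ≠ 0} ∪ {x : Rn (m + 2) | h (x 1) ≠ 0} := rfl
    rw [e]
    apply IsOpen.union
    · exact isOpen_ne_fun (continuous_apply 0) continuous_const
    · exact isOpen_ne_fun (hh.continuous.comp (continuous_apply 1)) continuous_const
  have hnull : ∀ᵐ x : Rn (m + 2), h (x 1) ≠ 0 := by
    have h2 := null_coord (m + 2) 1 {t | h t = 0} hN
    rw [ae_iff]
    have e : {x : Rn (m + 2) | ¬ h (x 1) ≠ 0} = {x : Rn (m + 2) | x 1 ∈ {t | h t = 0}} := by
      ext x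
      show ¬ h (x 1) ≠ 0 ↔ h (x 1) = 0
      exact not_not
    rw [e]
    exact h2
  have hG := contDiffOn_D (m + 2) _ hUo l _ hsm
  have haes : AEStronglyMeasurable (D l (fr m q h)) volume := by
    have h2 : AEStronglyMeasurable (D l (fr m q h))
        (volume.restrict {x : Rn (m + 2) | x 0 ≠ 0 ∨ h (x 1) ≠ 0}) :=
      hG.continuousOn.aestronglyMeasurable hUo.measurableSet
    rwa [Measure.restrict_eq_self_of_ae_mem] at h2
    filter_upwards [hnull] with x hx
    exact Or.inr hx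
  rw [locallyIntegrable_iff]
  intro k hk
  obtain ⟨R, hR⟩ := hk.isBounded.subset_closedBall (0 : Rn (m + 2))
  have hkB : k ⊆ Set.Icc (fun _ => -R) (fun _ => R) := by
    intro x hx
    have h2 := hR hx
    rw [mem_closedBall_zero_iff] at h2
    have h3 : ∀ i, |x i| ≤ R := fun i => (norm_le_pi_norm x i).trans h2
    rw [Set.mem_Icc]
    exact ⟨fun i => (abs_le.1 (h3 i)).1, fun i => (abs_le.1 (h3 i)).2⟩
  obtain ⟨C, hC⟩ := hnear l hl R
  have hfin : volume (Set.Icc (fun _ => -R) (fun _ => R) : Set (Rn (m + 2))) ≠ ⊤ :=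
    isCompact_Icc.measure_lt_top.ne
  have hg : IntegrableOn (fun x : Rn (m + 2) => |R| ^ (q - l.length) +
      C * (if |x 0| ≤ h (x 1) then (h (x 1))⁻¹ else 0)) (Set.Icc (fun _ => -R) (fun _ => R)) := by
    apply Integrable.add
    · exact integrableOn_const hfin
    · exact (hint R).const_mul C
  refine IntegrableOn.mono_set (t := Set.Icc (fun _ => -R) (fun _ => R)) ?_ hkB
  refine Integrable.mono' hg haes.restrict ?_
  have hmem : ∀ᵐ x : Rn (m + 2) ∂(volume.restrict (Set.Icc (fun _ => -R) (fun _ => R))),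
      x ∈ (Set.Icc (fun _ => -R) (fun _ => R) : Set (Rn (m + 2))) :=
    ae_restrict_mem measurableSet_Icc
  filter_upwards [hmem, ae_restrict_of_ae hnull] with x hx hx1
  have hxi : ∀ i, |x i| ≤ R := by
    intro i
    rw [Set.mem_Icc] at hx
    exact abs_le.2 ⟨hx.1 i, hx.2 i⟩
  have hK : 0 ≤ |R| ^ (q - l.length) := by positivity
  by_cases hc : |x 0| ≤ h (x 1)
  · rw [if_pos hc]
    have h2 := hC x hxi hx1 hc
    rw [div_eq_mul_inv] at h2
    linarith
  · rw [if_neg hc, mul_zero, add_zero]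
    have h2 : h (x 1) / 2 < |x 0| := by
      have := h0 (x 1)
      rw [not_le] at hc
      linarith
    rw [hfar l x h2]
    split_ifs
    · rw [Complex.norm_real, Real.norm_eq_abs, abs_div, abs_pow, Nat.abs_cast]
      have h3 : |x 0| ^ (q - l.length) ≤ |R| ^ (q - l.length) :=
        pow_le_pow_left₀ (abs_nonneg _) ((hxi 0).trans (le_abs_self R)) _
      have h4 : (1 : ℝ) ≤ ((q - l.length).factorial : ℝ) := by
        exact_mod_cast Nat.succ_le_of_lt (Nat.factorial_pos _)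
      calc |x 0| ^ (q - l.length) / ((q - l.length).factorial : ℝ) ≤ |x 0| ^ (q - l.length) :=
            div_le_self (by positivity) h4
        _ ≤ _ := h3
    · rw [norm_zero]
      exact hK

end Pool.Agent.Helper960.Rou
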