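import Pool.Agent.Helper960.Rou.Core5
import Pool.Agent.Helper960.Rou.Loc

open MeasureTheory Filter Topology
open scoped ContDiff

namespace Pool.Agent.Helper960.Rou

variable {n p s : ℕ}

section T

variable {m q : ℕ} {N : Set ℝ} {A B : Fin (m + 2) → Rn (m + 2) → ℂ} {om : ℕ → Rn (m + 2) → ℂ}

/-- the annihilating functional -/
noncomputable def TT (hd : CoreData m N A B om) (c : (Fin (q + 1) → Fin (m + 2)) → ℂ) :
    WSp (m + 2) (q + 1) →ₗ[ℂ] ℂ :=
  ∑ a : Fin (q + 1) → Fin (m + 2), c a •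
    (lam (q + 1) (hd.gA (a 0)) (tau (a 0) :: List.ofFn (Fin.tail a)) +
      lam (q + 1) (hd.gB (a 0)) (List.ofFn (Fin.tail a)))

lemma TT_apply (hd : CoreData m N A B om) (c : (Fin (q + 1) → Fin (m + 2)) → ℂ)
    (v : WSp (m + 2) (q + 1)) : TT hd c v = ∑ a : Fin (q + 1) → Fin (m + 2), c a *
      ((∫ x, A (a 0) x * wD (tau (a 0) :: List.ofFn (Fin.tail a)) v x) +
        ∫ x, B (a 0) x * wD (List.ofFn (Fin.tail a)) v x) := by
  simp only [TT, lam_apply, LinearMap.sum_apply, LinearMap.smul_apply, LinearMap.add_apply,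
    smul_eq_mul]

lemma TT_continuous (hd : CoreData m N A B om) (c : (Fin (q + 1) → Fin (m + 2)) → ℂ) :
    Continuous (TT hd c) := by
  have h : (TT hd c : WSp (m + 2) (q + 1) → ℂ) = fun v => ∑ a : Fin (q + 1) → Fin (m + 2), c a *
    (lam (q + 1) (hd.gA (a 0)) (tau (a 0) :: List.ofFn (Fin.tail a)) v +
      lam (q + 1) (hd.gB (a 0)) (List.ofFn (Fin.tail a)) v) := by
    funext v
    simp only [TT, LinearMap.sum_apply, LinearMap.smul_apply, LinearMap.add_apply, smul_eq_mul]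
  rw [h]
  refine continuous_finsetSum _ fun a _ => ?_
  exact continuous_const.mul ((lam_continuous _ _).add (lam_continuous _ _))

/-- the compact set -/
def KK (m : ℕ) (h : ℝ → ℝ) : Set (Rn (m + 2)) :=
  Set.Icc (fun _ => (-3 : ℝ)) (fun _ => 3) ∩ {x | h (x 1) ≤ |x 0|}

lemma KK_compact (h : ℝ → ℝ) (hh : Continuous h) : IsCompact (KK m h) := by
  refine isCompact_Icc.inter_right ?_
  exact isClosed_le (hh.comp (continuous_apply 1)) (continuous_apply 0).abs

lemma mem_KK {h : ℝ → ℝ} (hhN : ∀ t, |t| ≤ 3 → h t ≤ Metric.infDist t N) {x : Rn (m + 2)}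
    (hx : x ∈ Set.Icc (fun _ => (-3 : ℝ)) (fun _ => 3)) (hx2 : Metric.infDist (x 1) N ≤ |x 0|) :
    x ∈ KK m h :=
  ⟨hx, (hhN _ (abs_le.2 ⟨hx.1 1, hx.2 1⟩)).trans hx2⟩

/-- a word of length `q+1` splits -/
lemma D_ofFn (a : Fin (q + 1) → Fin (m + 2)) (f : Rn (m + 2) → ℂ) :
    D (List.ofFn a) f = pd (a 0) (D (List.ofFn (Fin.tail a)) f) := by
  rw [List.ofFn_succ]
  rfl

/-- `T` vanishes on the functions of the kernel -/
lemma TT_NK (hd : CoreData m N A B om) (c : (Fin (q + 1) → Fin (m + 2)) → ℂ) {h : ℝ → ℝ}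
    (hhN : ∀ t, |t| ≤ 3 → h t ≤ Metric.infDist t N) (v : WSp (m + 2) (q + 1))
    (hv : v ∈ NK (m + 2) (q + 1) (KK m h)) : TT hd c v = 0 := by
  rw [TT_apply]
  refine Finset.sum_eq_zero fun a _ => ?_
  have e1 : ∫ x, A (a 0) x * wD (tau (a 0) :: List.ofFn (Fin.tail a)) v x = 0 := by
    refine integral_eq_zero_of_ae ?_
    filter_upwards [hv (tau (a 0) :: List.ofFn (Fin.tail a)) (by simp)] with x hx
    by_cases h0 : A (a 0) x = 0
    · simp [h0]
    · rw [hx (mem_KK hhN ((hd.gA _).supp x h0) (hd.sA _ x h0))]; simp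
  have e2 : ∫ x, B (a 0) x * wD (List.ofFn (Fin.tail a)) v x = 0 := by
    refine integral_eq_zero_of_ae ?_
    filter_upwards [hv (List.ofFn (Fin.tail a)) (by simp)] with x hx
    by_cases h0 : B (a 0) x = 0
    · simp [h0]
    · rw [hx (mem_KK hhN ((hd.gB _).supp x h0) (hd.sB _ x h0))]; simp
  rw [e1, e2]; simp

/-- `T` annihilates smooth functions that solve the equation on `K` -/
lemma TT_smooth (hd : CoreData m N A B om) (c : (Fin (q + 1) → Fin (m + 2)) → ℂ) {h : ℝ → ℝ}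
    (hhN : ∀ t, |t| ≤ 3 → h t ≤ Metric.infDist t N) {H : Rn (m + 2) → ℂ} (hH : ContDiff ℝ ∞ H)
    (hHc : HasCompactSupport H)
    (hP : ∀ x ∈ KK m h, opP c H x = 0) :
    ∑ a : Fin (q + 1) → Fin (m + 2), c a *
      ((∫ x, A (a 0) x * D (tau (a 0) :: List.ofFn (Fin.tail a)) H x) +
        ∫ x, B (a 0) x * D (List.ofFn (Fin.tail a)) H x) = 0 := by
  have h1 : Tendsto (fun j => ∑ a : Fin (q + 1) → Fin (m + 2), c a *
      ∫ x, om j x * pd (a 0) (D (List.ofFn (Fin.tail a)) H) x) atTop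
      (𝓝 (∑ a : Fin (q + 1) → Fin (m + 2), c a *
      ((∫ x, A (a 0) x * D (tau (a 0) :: List.ofFn (Fin.tail a)) H x) +
        ∫ x, B (a 0) x * D (List.ofFn (Fin.tail a)) H x))) := by
    refine tendsto_finsetSum _ fun a _ => ?_
    exact (hd.lim (a 0) _ (contDiff_D _ hH)).const_mul _
  have h2 : ∀ j, ∑ a : Fin (q + 1) → Fin (m + 2), c a *
      ∫ x, om j x * pd (a 0) (D (List.ofFn (Fin.tail a)) H) x = 0 := by
    intro j
    have e1 : ∀ a : Fin (q + 1) → Fin (m + 2), c a *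
        ∫ x, om j x * pd (a 0) (D (List.ofFn (Fin.tail a)) H) x =
        ∫ x, om j x * (c a * D (List.ofFn a) H x) := by
      intro a
      rw [← integral_const_mul]
      congr 1
      funext x
      rw [D_ofFn]
      ring
    simp_rw [e1]
    rw [← integral_finsetSum]
    · have e2 : ∀ x, ∑ a : Fin (q + 1) → Fin (m + 2), om j x * (c a * D (List.ofFn a) H x) = 0 := by
        intro x
        rw [← Finset.mul_sum]
        by_cases h0 : om j x = 0
        · rw [h0, zero_mul]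
        · have hx := hd.som j x h0
          have := hP x (mem_KK hhN hx.1 hx.2)
          unfold opP at this
          rw [this, mul_zero]
      simp_rw [e2]
      simp
    · intro a _
      refine Continuous.integrable_of_hasCompactSupport ?_ ?_
      · exact (hd.com j).mul (continuous_const.mul (contDiff_D _ hH).continuous)
      · exact ((hcs_D _ hHc).mul_left).mul_left
  simp_rw [h2] at h1
  exact (tendsto_nhds_unique h1 tendsto_const_nhds)

/-- `T` annihilates `S(K)` -/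
lemma TT_SK (hd : CoreData m N A B om) (c : (Fin (q + 1) → Fin (m + 2)) → ℂ) {h : ℝ → ℝ}
    (hh : Continuous h) (hhN : ∀ t, |t| ≤ 3 → h t ≤ Metric.infDist t N)
    (v : WSp (m + 2) (q + 1)) {U : Set (Rn (m + 2))} (hU : IsOpen U) (hKU : KK m h ⊆ U)
    (hv : ContDiffOn ℝ ∞ v.fn U) (hP : ∀ x ∈ U, opP c v.fn x = 0) : TT hd c v = 0 := by
  have hK := KK_compact (m := m) h hh
  obtain ⟨V, hVo, hKV, hVU, hVc⟩ := exists_open_between_and_isCompact_closure hK hU hKU
  have hsub : KK m h ⊆ interior (closure V) := hKV.trans (interior_maximal subset_closure hVo)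
  obtain ⟨ψ, hψ1, hψ0, -⟩ := exists_contMDiffMap_one_nhds_of_subset_interior (n := (⊤ : ℕ∞))
    (modelWithCornersSelf ℝ (Rn (m + 2))) hK.isClosed hsub
  have hψs : ContDiff ℝ ∞ (fun x => ψ x) := ψ.contMDiff.contDiff
  have hψc : ContDiff ℝ ∞ (fun x => ((ψ x : ℝ) : ℂ)) := Complex.ofRealCLM.contDiff.comp hψs
  set H : Rn (m + 2) → ℂ := fun x => ((ψ x : ℝ) : ℂ) * v.fn x with hHdef
  have hH0 : ∀ x, x ∉ closure V → H x = 0 := fun x hx => by simp [hHdef, hψ0 x hx]
  have hHc : HasCompactSupport H := HasCompactSupport.intro hVc hH0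
  have hH : ContDiff ℝ ∞ H := by
    rw [contDiff_iff_contDiffAt]
    intro x
    by_cases hx : x ∈ U
    · exact hψc.contDiffAt.mul (hv.contDiffAt (hU.mem_nhds hx))
    · have hx2 : x ∈ (closure V)ᶜ := fun h2 => hx (hVU h2)
      have hev : H =ᶠ[𝓝 x] fun _ => (0:ℂ) := by
        filter_upwards [isClosed_closure.isOpen_compl.mem_nhds hx2] with y hy
        exact hH0 y hy
      exact contDiffAt_const.congr_of_eventuallyEq hev
  rw [eventually_nhdsSet_iff_exists] at hψ1
  obtain ⟨W', hW'o, hKW', hW'1⟩ := hψ1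
  have hHv : ∀ x ∈ W', H x = v.fn x := fun x hx => by simp [hHdef, hW'1 x hx]
  have hPH : ∀ x ∈ KK m h, opP c H x = 0 := by
    intro x hx
    have : opP c H x = opP c v.fn x := by
      unfold opP
      refine Finset.sum_congr rfl fun a _ => ?_
      rw [D_congr_open _ hW'o hHv x (hKW' hx)]
    rw [this]
    exact hP x (hKU hx)
  have hwD : ∀ l : List (Fin (m + 2)), l.length ≤ q + 1 → ∀ᵐ x, x ∈ KK m h → wD l v x = D l H x := by
    intro l hl
    have h1 := weakD_ae_eq_on hW'o (wD_locInt l v)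
      ((contDiff_D l hH).continuous.locallyIntegrable (μ := volume))
      (fun x hx => (hHv x hx).symm) (wD_spec hl v) (isWeakD_smooth l hH)
    filter_upwards [h1] with x hx hxK
    exact hx (hKW' hxK)
  have hTT := TT_smooth hd c hhN hH hHc hPH
  rw [TT_apply, ← hTT]
  refine Finset.sum_congr rfl fun a _ => ?_
  congr 2
  · refine integral_congr_ae ?_
    filter_upwards [hwD (tau (a 0) :: List.ofFn (Fin.tail a)) (by simp)] with x hx
    by_cases h0 : A (a 0) x = 0
    · simp [h0]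
    · rw [hx (mem_KK hhN ((hd.gA _).supp x h0) (hd.sA _ x h0))]
  · refine integral_congr_ae ?_
    filter_upwards [hwD (List.ofFn (Fin.tail a)) (by simp)] with x hx
    by_cases h0 : B (a 0) x = 0
    · simp [h0]
    · rw [hx (mem_KK hhN ((hd.gB _).supp x h0) (hd.sB _ x h0))]

end T

end Pool.Agent.Helper960.Rou
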