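import Pool.Agent.Helper960.Rou.Fin

open MeasureTheory Filter Topology
open scoped ContDiff

namespace Pool.Agent.Helper960.Rou

variable {m q : ℕ}

/-- the symbol at the first coordinate direction -/
lemma elliptic_coeff (c : (Fin (q + 1) → Fin (m + 2)) → ℂ) (hc : Elliptic c) :
    c (fun _ => 0) ≠ 0 := by
  have h := hc (Pi.single 0 1) (by
    intro h0
    have := congrFun h0 0
    simp at this)
  intro hc0
  apply h
  refine Finset.sum_eq_zero fun a _ => ?_
  by_cases ha : a = fun _ => 0
  · rw [ha, hc0, zero_mul]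
  · have : ∃ j, a j ≠ 0 := by
      by_contra hcon
      push Not at hcon
      exact ha (funext hcon)
    obtain ⟨j, hj⟩ := this
    have : ∏ j, (((Pi.single 0 1 : Rn (m + 2)) (a j) : ℝ) : ℂ) = 0 := by
      refine Finset.prod_eq_zero (Finset.mem_univ j) ?_
      simp [hj]
    rw [this, mul_zero]

lemma ae_x0 (m : ℕ) : ∀ᵐ x : Rn (m + 2), x 0 ≠ 0 := by
  have h := null_coord (m + 2) 0 {0} (by simp)
  rw [ae_iff]
  simpa using h

theorem final (c : (Fin (q + 1) → Fin (m + 2)) → ℂ) (hc : Elliptic c) :
    ∃ K : Set (Rn (m + 2)), IsCompact K ∧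
      ∃ r ∈ RK c (q + 1) K, r ∉ closure (SK c (q + 1) K) := by
  obtain ⟨N, A, B, om, hd⟩ := exists_core m
  obtain ⟨h, hs, h0, h1, hz, hN⟩ := exists_h N hd.cN hd.neN
  have hnull : volume {t | h t = 0} = 0 := by
    have : {t | h t = 0} = N := by ext t; exact hz t
    rw [this]; exact hd.nN
  have hfar := D_fr_far m q h hs.continuous h0
  have hsm := fr_contDiffOn m q h hs h0
  have hΩ : IsOpen {x : Rn (m + 2) | x 0 ≠ 0 ∨ h (x 1) ≠ 0} :=
    (isOpen_ne_fun (continuous_apply 0) continuous_const).union
      (isOpen_ne_fun (hs.continuous.comp (continuous_apply 1)) continuous_const)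
  have hDsm : ∀ l : List (Fin (m + 2)),
      ContDiffOn ℝ ∞ (D l (fr m q h)) {x | x 0 ≠ 0 ∨ h (x 1) ≠ 0} := fun l =>
    contDiffOn_D (m + 2) _ hΩ l _ hsm
  have hloc : ∀ l : List (Fin (m + 2)), l.length ≤ q + 1 → LocallyIntegrable (D l (fr m q h)) volume :=
    fun l hl => locInt_D_fr m q h hs h0 h1 hnull hsm hfar
      (fun l hl R => D_fr_near m q h hs h0 h1 l hl R)
      (fun R => integrableOn_inv_h m h hs.continuous h0 R) l hl
  have hweak : ∀ l : List (Fin (m + 2)), l.length ≤ q + 1 → IsWeakD l (fr m q h) (D l (fr m q h)) :=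
    fun l hl => isWeakD_of_sing h hs h0 hnull _ hDsm (q + 1) hloc l hl
  set fW : WSp (m + 2) (q + 1) := ⟨fr m q h, hloc [] (by simp), fun l hl =>
    ⟨D l (fr m q h), hloc l hl, hweak l hl⟩⟩ with hfW
  have hwD : ∀ l : List (Fin (m + 2)), l.length ≤ q + 1 → wD l fW =ᵐ[volume] D l (fr m q h) :=
    fun l hl => wD_unique hl fW (hloc l hl) (hweak l hl)
  -- on K off the hyperplane
  have hKfar : ∀ x ∈ KK m h, x 0 ≠ 0 → h (x 1) / 2 < |x 0| := by
    intro x hx hx0
    have h2 : h (x 1) ≤ |x 0| := hx.2
    have h3 : 0 < |x 0| := abs_pos.2 hx0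
    have h4 := h0 (x 1)
    linarith
  have hKD : ∀ x ∈ KK m h, x 0 ≠ 0 → ∀ l : List (Fin (m + 2)), l.length = q + 1 →
      D l (fr m q h) x = 0 := by
    intro x hx hx0 l hl
    rw [hfar l x (hKfar x hx hx0), if_neg]
    rintro ⟨-, -, h3⟩
    omega
  have hint : ∀ x ∈ interior (KK m h), x 0 ≠ 0 := by
    intro x hx hx0
    -- the line in direction 1
    have hcu : Continuous fun t : ℝ => Function.update x 1 t := continuous_const.update 1 continuous_id
    have hx1 : Function.update x 1 (x 1) = x := Function.update_eq_self 1 x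
    have hev : ∀ᶠ t in 𝓝 (x 1), Function.update x 1 t ∈ interior (KK m h) := by
      have : Tendsto (fun t : ℝ => Function.update x 1 t) (𝓝 (x 1)) (𝓝 x) := by
        have := hcu.tendsto (x 1)
        rwa [hx1] at this
      exact this (isOpen_interior.mem_nhds hx)
    have hev2 : {t | h t = 0} ∈ 𝓝 (x 1) := by
      filter_upwards [hev] with t ht
      have h2 : h ((Function.update x 1 t) 1) ≤ |(Function.update x 1 t) 0| := (interior_subset ht).2
      have e1 : (Function.update x 1 t) 1 = t := by simp
      have e2 : (Function.update x 1 t) 0 = 0 := by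
        rw [Function.update_of_ne (by simp)]
        exact hx0
      rw [e1, e2, abs_zero] at h2
      exact le_antisymm h2 (h0 t)
    have := Measure.measure_pos_of_mem_nhds volume hev2
    rw [hnull] at this
    exact lt_irrefl _ this
  refine ⟨KK m h, KK_compact h hs.continuous, Submodule.Quotient.mk fW, ?_, ?_⟩
  · refine ⟨fW, rfl, ⟨fr m q h, ?_, ?_, ?_⟩, ?_⟩
    · refine hsm.mono fun x hx => Or.inl (hint x hx)
    · intro x hx
      unfold opP
      refine Finset.sum_eq_zero fun a _ => ?_
      rw [hKD x (interior_subset hx) (hint x hx) _ (by simp), mul_zero]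
    · exact Eventually.of_forall fun x _ => rfl
    · intro l hl
      have hl0 : l = [] := by
        rw [← List.length_eq_zero_iff]; omega
      subst hl0
      have hall : ∀ᵐ x : Rn (m + 2), ∀ a : Fin (q + 1) → Fin (m + 2),
          wD (List.ofFn a) fW x = D (List.ofFn a) (fr m q h) x := by
        rw [ae_all_iff]
        intro a
        exact hwD _ (by simp)
      filter_upwards [hall, ae_x0 m] with x hx hx0 hxK
      refine Finset.sum_eq_zero fun a _ => ?_
      rw [List.nil_append, hx a, hKD x hxK hx0 _ (by simp), mul_zero]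
  · intro hcl
    -- the functional on the quotient
    have hker : NK (m + 2) (q + 1) (KK m h) ≤ LinearMap.ker (TT hd c) := fun v hv =>
      LinearMap.mem_ker.2 (TT_NK hd c hN v hv)
    set Tq : WK (m + 2) (q + 1) (KK m h) →ₗ[ℂ] ℂ :=
      (NK (m + 2) (q + 1) (KK m h)).liftQ (TT hd c) hker with hTq
    have hTqm : ∀ v, Tq (Submodule.Quotient.mk v) = TT hd c v := fun v =>
      Submodule.liftQ_apply _ _ _
    have hTc : Continuous Tq := by
      have hq : IsQuotientMap (fun v : WSp (m + 2) (q + 1) =>
          (Submodule.Quotient.mk v : WK (m + 2) (q + 1) (KK m h))) := isQuotientMap_quot_mk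
      rw [hq.continuous_iff]
      exact TT_continuous hd c
    have hclosed : IsClosed {r : WK (m + 2) (q + 1) (KK m h) | Tq r = 0} :=
      isClosed_eq hTc continuous_const
    have hsub : SK c (q + 1) (KK m h) ⊆ {r | Tq r = 0} := by
      rintro r ⟨v, rfl, U, hU, hKU, hv, hP⟩
      show Tq _ = 0
      rw [hTqm]
      exact TT_SK hd c hs.continuous hN v hU hKU hv hP
    have hT0 : Tq (Submodule.Quotient.mk fW) = 0 := closure_minimal hsub hclosed hcl
    rw [hTqm, TT_apply] at hT0
    -- evaluation
    have hval : ∀ a : Fin (q + 1) → Fin (m + 2),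
        (∫ x, A (a 0) x * wD (tau (a 0) :: List.ofFn (Fin.tail a)) fW x) +
        (∫ x, B (a 0) x * wD (List.ofFn (Fin.tail a)) fW x) =
        if a = (fun _ => 0) then ∫ x : Rn (m + 2), ((hp (x 0) : ℝ) : ℂ) * B 0 x else 0 := by
      intro a
      have e1 : (∫ x, A (a 0) x * wD (tau (a 0) :: List.ofFn (Fin.tail a)) fW x) = 0 := by
        refine integral_eq_zero_of_ae ?_
        filter_upwards [hwD (tau (a 0) :: List.ofFn (Fin.tail a)) (by simp), ae_x0 m] with x hx hx0
        by_cases hA : A (a 0) x = 0
        · simp [hA]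
        · have hxK : x ∈ KK m h := mem_KK hN ((hd.gA _).supp x hA) (hd.sA _ x hA)
          rw [hx, hKD x hxK hx0 _ (by simp)]; simp
      have e2 : (∫ x, B (a 0) x * wD (List.ofFn (Fin.tail a)) fW x) =
          if ∀ i ∈ List.ofFn (Fin.tail a), i = 0 then
            ∫ x : Rn (m + 2), ((hp (x 0) : ℝ) : ℂ) * B (a 0) x else 0 := by
        by_cases hall : ∀ i ∈ List.ofFn (Fin.tail a), i = 0
        · rw [if_pos hall]
          refine integral_congr_ae ?_
          filter_upwards [hwD (List.ofFn (Fin.tail a)) (by simp), ae_x0 m] with x hx hx0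
          by_cases hB : B (a 0) x = 0
          · simp [hB]
          · have hxK : x ∈ KK m h := mem_KK hN ((hd.gB _).supp x hB) (hd.sB _ x hB)
            rw [hx, hfar _ x (hKfar x hxK hx0)]
            have hlen : (List.ofFn (Fin.tail a)).length = q := by simp
            rw [hlen]
            by_cases hpos : 0 < x 0
            · rw [if_pos ⟨hpos, hall, le_refl q⟩]
              simp [hp, hpos]
            · rw [if_neg (fun h3 => hpos h3.1)]
              simp [hp, hpos]
        · rw [if_neg hall]
          refine integral_eq_zero_of_ae ?_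
          filter_upwards [hwD (List.ofFn (Fin.tail a)) (by simp), ae_x0 m] with x hx hx0
          by_cases hB : B (a 0) x = 0
          · simp [hB]
          · have hxK : x ∈ KK m h := mem_KK hN ((hd.gB _).supp x hB) (hd.sB _ x hB)
            rw [hx, hfar _ x (hKfar x hxK hx0), if_neg (fun h3 => hall h3.2.1)]
            simp
      rw [e1, e2, zero_add]
      by_cases ha : a = fun _ => 0
      · rw [if_pos ha, if_pos, ha]
        intro i hi
        rw [List.mem_ofFn] at hi
        obtain ⟨j, hj⟩ := hi
        rw [← hj, ha]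
        rfl
      · rw [if_neg ha]
        by_cases hall : ∀ i ∈ List.ofFn (Fin.tail a), i = 0
        · rw [if_pos hall]
          apply hd.zero
          intro ha0
          apply ha
          funext j
          refine Fin.cases ha0 (fun j => ?_) j
          exact hall _ (List.mem_ofFn.2 ⟨j, rfl⟩)
        · rw [if_neg hall]
    simp_rw [hval] at hT0
    simp only [mul_ite, mul_zero, Finset.sum_ite_eq', Finset.mem_univ, if_true] at hT0
    exact mul_ne_zero (elliptic_coeff c hc) hd.ne hT0

end Pool.Agent.Helper960.Rou
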