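import Pool.Agent.Helper960.Rou.Ker
import Pool.Agent.Helper960.Rou.Defs

open MeasureTheory Filter Topology
open scoped ContDiff

set_option linter.unusedVariables false

namespace Pool.Agent.Helper960.Rou

theorem ibp_gen {n : ℕ} (i : Fin n) (f f' : Rn n → ℝ) (hf : Continuous f) (hf' : Continuous f')
    (hd : ∀ x, HasLineDerivAt ℝ f (f' x) x (Pi.single i 1))
    (G : Rn n → ℂ) (hG : ContDiff ℝ ∞ G) (hGs : HasCompactSupport G) :
    ∫ x, ((f x : ℝ) : ℂ) * pd i G x = - ∫ x, ((f' x : ℝ) : ℂ) * G x := by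
  have hGc : Continuous G := hG.continuous
  have hpc : Continuous (pd i G) := by
    unfold pd
    exact (hG.continuous_fderiv (by simp)).clm_apply continuous_const
  have hps : HasCompactSupport (pd i G) := hGs.fderiv_apply (𝕜 := ℝ) (v := Pi.single i 1)
  have h := integral_bilinear_hasLineDerivAt_right_eq_neg_left_of_integrable
    (μ := (volume : Measure (Rn n))) (f := fun x => ((f x : ℝ) : ℂ))
    (f' := fun x => ((f' x : ℝ) : ℂ)) (g := G) (g' := pd i G) (v := Pi.single i 1)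
    (B := ContinuousLinearMap.mul ℝ ℂ) ?_ ?_ ?_ ?_ ?_
  · simpa using h
  · simp only [ContinuousLinearMap.mul_apply']
    refine Continuous.integrable_of_hasCompactSupport ?_ ?_
    · exact (Complex.continuous_ofReal.comp hf').mul hGc
    · exact hGs.mul_left
  · simp only [ContinuousLinearMap.mul_apply']
    refine Continuous.integrable_of_hasCompactSupport ?_ ?_
    · exact (Complex.continuous_ofReal.comp hf).mul hpc
    · exact hps.mul_left
  · simp only [ContinuousLinearMap.mul_apply']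
    refine Continuous.integrable_of_hasCompactSupport ?_ ?_
    · exact (Complex.continuous_ofReal.comp hf).mul hGc
    · exact hGs.mul_left
  · intro x _
    have := hd x
    unfold HasLineDerivAt at this ⊢
    exact this.ofReal_comp
  · intro x _
    exact ((hG.differentiable (by simp)) x).hasFDerivAt.hasLineDerivAt _

theorem line_zero {m : ℕ} (x : Rn (m + 2)) (t : ℝ) (i : Fin (m + 2)) :
    (x + t • (Pi.single i 1 : Rn (m + 2))) i = x i + t := by
  simp

theorem line_ne {m : ℕ} (x : Rn (m + 2)) (t : ℝ) (i j : Fin (m + 2)) (h : j ≠ i) :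
    (x + t • (Pi.single i 1 : Rn (m + 2))) j = x j := by
  simp [h]

theorem deriv_cut {c : ℝ → ℝ} {δ : ℝ} (hδ : 0 < δ) (hc0 : ∀ t, |t| ≤ δ → c t = 0) (t : ℝ)
    (ht : |t| ≤ δ / 2) : deriv c t = 0 := by
  have h : c =ᶠ[nhds t] fun _ => (0 : ℝ) := by
    have h1 : ∀ᶠ s in nhds t, |s| < δ := by
      refine (continuous_abs.tendsto t).eventually (gt_mem_nhds ?_) |>.mono fun s hs => hs
      linarith
    filter_upwards [h1] with s hs
    exact hc0 s hs.le
  rw [h.deriv_eq]
  simp

variable (hQx : ∀ (F k : ℝ → ℝ) (hF : Continuous F) (hk : ContDiff ℝ ∞ k)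
    (hc : HasCompactSupport k) (s x : ℝ) (hs : s ≠ 0),
    HasDerivAt (fun x => Q F k s x) (s⁻¹ * Q F (deriv k) s x) x)
  (hQs : ∀ (F k : ℝ → ℝ) (hF : Continuous F) (hk : ContDiff ℝ ∞ k)
    (hc : HasCompactSupport k) (s x : ℝ) (hs : s ≠ 0),
    HasDerivAt (fun s => Q F k s x) (-(s⁻¹ * Q F (fun y => 2 * k y + y * deriv k y) s x)) s)
  (hQc : ∀ (F k : ℝ → ℝ) (hF : Continuous F) (hk : ContDiff ℝ ∞ k)
    (hc : HasCompactSupport k),
    ContinuousOn (fun q : ℝ × ℝ => Q F k q.1 q.2) {q | q.1 ≠ 0})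

include hQc in
theorem cutQ_continuous (m : ℕ) (F k c : ℝ → ℝ) (hF : Continuous F) (hk : ContDiff ℝ ∞ k)
    (hks : HasCompactSupport k) (hc : Continuous c) (δ : ℝ) (hδ : 0 < δ)
    (hc0 : ∀ t, |t| ≤ δ → c t = 0) :
    Continuous (fun x : Rn (m + 2) => c (x 0) * Q F k (x 0) (x 1)) := by
  rw [continuous_iff_continuousAt]
  intro x
  by_cases h : x 0 = 0
  · have h1 : (fun x : Rn (m + 2) => c (x 0) * Q F k (x 0) (x 1)) =ᶠ[nhds x] fun _ => (0 : ℝ) := by
      have h2 : ∀ᶠ y : Rn (m + 2) in nhds x, |y 0| < δ := by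
        have hcont : Continuous (fun y : Rn (m + 2) => |y 0|) := by fun_prop
        refine (hcont.tendsto x).eventually (gt_mem_nhds ?_)
        simp [h, hδ]
      filter_upwards [h2] with y hy
      rw [hc0 _ hy.le, zero_mul]
    exact (continuousAt_const.congr h1.symm)
  · have h1 : ContinuousAt (fun q : ℝ × ℝ => Q F k q.1 q.2) (x 0, x 1) := by
      refine (hQc F k hF hk hks).continuousAt ?_
      have : IsOpen {q : ℝ × ℝ | q.1 ≠ 0} := isOpen_ne_fun continuous_fst continuous_const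
      exact this.mem_nhds h
    have h2 : ContinuousAt (fun y : Rn (m + 2) => ((y 0, y 1) : ℝ × ℝ)) x := by fun_prop
    have h3 : ContinuousAt (fun y : Rn (m + 2) => Q F k (y 0) (y 1)) x :=
      ContinuousAt.comp (f := fun y : Rn (m + 2) => ((y 0, y 1) : ℝ × ℝ))
        (g := fun q : ℝ × ℝ => Q F k q.1 q.2) (x := x) h1 h2
    exact ((hc.comp (continuous_apply 0)).continuousAt).mul h3

include hQs hQc in
theorem ibp_zero (m : ℕ) (F k c : ℝ → ℝ) (hF : Continuous F) (hk : ContDiff ℝ ∞ k)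
    (hks : HasCompactSupport k) (hc : ContDiff ℝ ∞ c) (δ : ℝ) (hδ : 0 < δ)
    (hc0 : ∀ t, |t| ≤ δ → c t = 0) (G : Rn (m + 2) → ℂ) (hG : ContDiff ℝ ∞ G)
    (hGs : HasCompactSupport G) :
    ∫ x, ((c (x 0) * Q F k (x 0) (x 1) : ℝ) : ℂ) * pd 0 G x =
      - ∫ x, ((deriv c (x 0) * Q F k (x 0) (x 1) -
        c (x 0) * ((x 0)⁻¹ * Q F (fun y => 2 * k y + y * deriv k y) (x 0) (x 1)) : ℝ) : ℂ) * G x := by
  have hdc : ContDiff ℝ ∞ (deriv c) := (contDiff_infty_iff_deriv.1 hc).2
  have hdk : ContDiff ℝ ∞ (deriv k) := (contDiff_infty_iff_deriv.1 hk).2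
  have hk2 : ContDiff ℝ ∞ (fun y => 2 * k y + y * deriv k y) :=
    (contDiff_const.mul hk).add (contDiff_id.mul hdk)
  have hk2s : HasCompactSupport (fun y => 2 * k y + y * deriv k y) :=
    (hks.mul_left).add (hks.deriv.mul_left)
  have hc2 : Continuous (fun t => c t * t⁻¹) := by
    rw [continuous_iff_continuousAt]
    intro t
    by_cases h : t = 0
    · have h1 : (fun t => c t * t⁻¹) =ᶠ[nhds t] fun _ => (0 : ℝ) := by
        have h2 : ∀ᶠ s in nhds t, |s| < δ := by
          refine (continuous_abs.tendsto t).eventually (gt_mem_nhds ?_)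
          simp [h, hδ]
        filter_upwards [h2] with y hy
        rw [hc0 _ hy.le, zero_mul]
      exact (continuousAt_const.congr h1.symm)
    · exact hc.continuous.continuousAt.mul (continuousAt_inv₀ h)
  refine ibp_gen 0 _ _ ?_ ?_ ?_ G hG hGs
  · exact cutQ_continuous hQc m F k c hF hk hks hc.continuous δ hδ hc0
  · have e1 := cutQ_continuous hQc m F k (deriv c) hF hk hks hdc.continuous (δ / 2) (by linarith)
      (deriv_cut hδ hc0)
    have e2 := cutQ_continuous hQc m F _ (fun t => c t * t⁻¹) hF hk2 hk2s hc2 δ hδ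
      (fun t ht => by rw [hc0 t ht, zero_mul])
    refine (e1.sub e2).congr fun x => ?_
    simp only [Pi.sub_apply]
    ring
  · intro x
    unfold HasLineDerivAt
    simp only [line_zero, line_ne x _ 0 1 (by simp)]
    by_cases h : x 0 = 0
    · have h1 : (fun t : ℝ => c (x 0 + t) * Q F k (x 0 + t) (x 1)) =ᶠ[nhds 0]
          fun _ => (0 : ℝ) := by
        have h2 : ∀ᶠ s in nhds (0 : ℝ), |s| < δ := by
          refine (continuous_abs.tendsto 0).eventually (gt_mem_nhds ?_)
          simp [hδ]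
        filter_upwards [h2] with y hy
        rw [h, zero_add, hc0 _ hy.le, zero_mul]
      have e : deriv c (x 0) * Q F k (x 0) (x 1) -
        c (x 0) * ((x 0)⁻¹ * Q F (fun y => 2 * k y + y * deriv k y) (x 0) (x 1)) = 0 := by
        rw [h, deriv_cut hδ hc0 0 (by simp; linarith), hc0 0 (by simp; linarith)]
        ring
      rw [e]
      exact (hasDerivAt_const (0 : ℝ) (0 : ℝ)).congr_of_eventuallyEq h1
    · have h1 : HasDerivAt c (deriv c (x 0)) (x 0 + 0) := by
        rw [add_zero]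
        exact ((hc.differentiable (by simp)) (x 0)).hasDerivAt
      have h2 := hQs F k hF hk hks (x 0) (x 1) h
      have h2' : HasDerivAt (fun s => Q F k s (x 1))
          (-((x 0)⁻¹ * Q F (fun y => 2 * k y + y * deriv k y) (x 0) (x 1))) (x 0 + 0) := by
        rw [add_zero]; exact h2
      have h3 := h1.comp_const_add (x 0) 0
      have h4 := h2'.comp_const_add (x 0) 0
      have h5 := h3.mul h4
      have e : deriv c (x 0) * Q F k (x 0 + 0) (x 1) + c (x 0 + 0) *
        (-((x 0)⁻¹ * Q F (fun y => 2 * k y + y * deriv k y) (x 0) (x 1))) =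
        deriv c (x 0) * Q F k (x 0) (x 1) -
        c (x 0) * ((x 0)⁻¹ * Q F (fun y => 2 * k y + y * deriv k y) (x 0) (x 1)) := by
        rw [add_zero]; ring
      rw [e] at h5
      exact h5

include hQx hQc in
theorem ibp_one (m : ℕ) (F k c : ℝ → ℝ) (hF : Continuous F) (hk : ContDiff ℝ ∞ k)
    (hks : HasCompactSupport k) (hc : ContDiff ℝ ∞ c) (δ : ℝ) (hδ : 0 < δ)
    (hc0 : ∀ t, |t| ≤ δ → c t = 0) (G : Rn (m + 2) → ℂ) (hG : ContDiff ℝ ∞ G)
    (hGs : HasCompactSupport G) :
    ∫ x, ((c (x 0) * Q F k (x 0) (x 1) : ℝ) : ℂ) * pd 1 G x =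
      - ∫ x, ((c (x 0) * ((x 0)⁻¹ * Q F (deriv k) (x 0) (x 1)) : ℝ) : ℂ) * G x := by
  have hdk : ContDiff ℝ ∞ (deriv k) := (contDiff_infty_iff_deriv.1 hk).2
  have hc2 : Continuous (fun t => c t * t⁻¹) := by
    rw [continuous_iff_continuousAt]
    intro t
    by_cases h : t = 0
    · have h1 : (fun t => c t * t⁻¹) =ᶠ[nhds t] fun _ => (0 : ℝ) := by
        have h2 : ∀ᶠ s in nhds t, |s| < δ := by
          refine (continuous_abs.tendsto t).eventually (gt_mem_nhds ?_)
          simp [h, hδ]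
        filter_upwards [h2] with y hy
        rw [hc0 _ hy.le, zero_mul]
      exact (continuousAt_const.congr h1.symm)
    · exact hc.continuous.continuousAt.mul (continuousAt_inv₀ h)
  refine ibp_gen 1 _ _ ?_ ?_ ?_ G hG hGs
  · exact cutQ_continuous hQc m F k c hF hk hks hc.continuous δ hδ hc0
  · have e2 := cutQ_continuous hQc m F _ (fun t => c t * t⁻¹) hF hdk hks.deriv hc2 δ hδ
      (fun t ht => by rw [hc0 t ht, zero_mul])
    refine e2.congr fun x => ?_
    ring
  · intro x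
    unfold HasLineDerivAt
    simp only [line_zero, line_ne x _ 1 0 (by simp)]
    by_cases h : x 0 = 0
    · have e0 : c (x 0) = 0 := by rw [h, hc0 0 (by simp; linarith)]
      simp only [e0, zero_mul]
      exact hasDerivAt_const (0 : ℝ) (0 : ℝ)
    · have h2 := hQx F k hF hk hks (x 0) (x 1) h
      have h2' : HasDerivAt (fun y => Q F k (x 0) y)
          ((x 0)⁻¹ * Q F (deriv k) (x 0) (x 1)) (x 1 + 0) := by
        rw [add_zero]; exact h2
      exact (h2'.comp_const_add (x 1) 0).const_mul (c (x 0))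

include hQc in
theorem ibp_other (m : ℕ) (F k c : ℝ → ℝ) (hF : Continuous F) (hk : ContDiff ℝ ∞ k)
    (hks : HasCompactSupport k) (hc : ContDiff ℝ ∞ c) (δ : ℝ) (hδ : 0 < δ)
    (hc0 : ∀ t, |t| ≤ δ → c t = 0) (G : Rn (m + 2) → ℂ) (hG : ContDiff ℝ ∞ G)
    (hGs : HasCompactSupport G) (i : Fin (m + 2)) (hi0 : i ≠ 0) (hi1 : i ≠ 1) :
    ∫ x, ((c (x 0) * Q F k (x 0) (x 1) : ℝ) : ℂ) * pd i G x = 0 := by
  have h := ibp_gen i (fun x : Rn (m + 2) => c (x 0) * Q F k (x 0) (x 1)) (fun _ => 0)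
    (cutQ_continuous hQc m F k c hF hk hks hc.continuous δ hδ hc0) continuous_const
    (by
      intro x
      unfold HasLineDerivAt
      simp only [line_ne x _ i 0 hi0.symm, line_ne x _ i 1 hi1.symm]
      exact hasDerivAt_const _ _) G hG hGs
  rw [h]
  simp

end Pool.Agent.Helper960.Rou
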