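import Mathlib

open MeasureTheory
open scoped ContDiff

set_option linter.unusedVariables false

namespace Pool.Agent.Helper960.Rou

/-- averaged second antiderivative kernel -/
noncomputable def Q (F k : ℝ → ℝ) (s x : ℝ) : ℝ := (s ^ 2)⁻¹ * ∫ z, k ((x - z) / s) * F z

theorem hasDerivAt_int (g g' : ℝ → ℝ → ℝ) (p0 δ M : ℝ) (hδ : 0 < δ)
    (hg : ∀ p ∈ Set.Icc (p0 - δ) (p0 + δ), Continuous (g p))
    (hg' : ContinuousOn (fun q : ℝ × ℝ => g' q.1 q.2) (Set.Icc (p0 - δ) (p0 + δ) ×ˢ Set.univ))
    (hz : ∀ p ∈ Set.Icc (p0 - δ) (p0 + δ), ∀ z, M < |z| → g p z = 0)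
    (hz' : ∀ p ∈ Set.Icc (p0 - δ) (p0 + δ), ∀ z, M < |z| → g' p z = 0)
    (hd : ∀ p ∈ Set.Icc (p0 - δ) (p0 + δ), ∀ z, HasDerivAt (fun p => g p z) (g' p z) p) :
    HasDerivAt (fun p => ∫ z, g p z) (∫ z, g' p0 z) p0 := by
  have hnb : Set.Icc (p0 - δ) (p0 + δ) ∈ nhds p0 := Icc_mem_nhds (by linarith) (by linarith)
  have hp0 : p0 ∈ Set.Icc (p0 - δ) (p0 + δ) := ⟨by linarith, by linarith⟩
  obtain ⟨B, hB⟩ := (isCompact_Icc.prod (isCompact_Icc (a := -M) (b := M))).exists_bound_of_continuousOn
    (hg'.mono (Set.prod_mono (le_refl (Set.Icc (p0 - δ) (p0 + δ))) (Set.subset_univ _)))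
  have hmem : ∀ z : ℝ, z ∉ Set.Icc (-M) M → M < |z| := by
    intro z hz
    by_contra h
    push Not at h
    exact hz (abs_le.mp h)
  have hcont' : Continuous (g' p0) := by
    rw [← continuousOn_univ]
    exact hg'.comp (f := fun z : ℝ => (p0, z)) (by fun_prop) (fun z _ => ⟨hp0, Set.mem_univ _⟩)
  refine (hasDerivAt_integral_of_dominated_loc_of_deriv_le (F := g) (F' := g')
    (bound := Set.indicator (Set.Icc (-M) M) (fun _ => B)) hnb ?_ ?_ ?_ ?_ ?_ ?_).2
  · filter_upwards [hnb] with p hp
    exact (hg p hp).aestronglyMeasurable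
  · apply (hg p0 hp0).integrable_of_hasCompactSupport
    exact HasCompactSupport.intro (K := Set.Icc (-M) M) isCompact_Icc
      (fun z hz1 => hz p0 hp0 z (hmem z hz1))
  · exact hcont'.aestronglyMeasurable
  · refine Filter.Eventually.of_forall ?_
    intro z p hp
    by_cases h : z ∈ Set.Icc (-M) M
    · rw [Set.indicator_of_mem h]
      exact hB (p, z) ⟨hp, h⟩
    · rw [Set.indicator_of_notMem h, hz' p hp z (hmem z h), norm_zero]
  · rw [integrable_indicator_iff measurableSet_Icc]
    exact integrableOn_const (by simp)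
  · refine Filter.Eventually.of_forall ?_
    intro z p hp
    exact hd p hp z

theorem Q_cov (F k : ℝ → ℝ) (s x : ℝ) (hs : s ≠ 0) :
    Q F k s x = |s|⁻¹ * ∫ y, k y * F (x - s * y) := by
  unfold Q
  have h1 : ∫ y, k y * F (x - s * y) = ∫ y, (fun u => k ((x - (x - u)) / s) * F (x - u)) (s * y) := by
    congr 1
    funext y
    simp only
    rw [sub_sub_cancel, mul_div_cancel_left₀ _ hs]
  rw [h1, Measure.integral_comp_mul_left (fun u => k ((x - (x - u)) / s) * F (x - u)) s,
    integral_sub_left_eq_self (fun z => k ((x - z) / s) * F z) volume x, smul_eq_mul, ← mul_assoc]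
  congr 1
  rw [abs_inv, ← sq_abs s, sq, mul_inv]

theorem supp_bound (k : ℝ → ℝ) (hc : HasCompactSupport k) :
    ∃ R : ℝ, 0 ≤ R ∧ ∀ y, R < |y| → k y = 0 := by
  obtain ⟨R, hR⟩ := hc.isCompact.isBounded.subset_closedBall 0
  refine ⟨max R 0, le_max_right _ _, ?_⟩
  intro y hy
  by_contra h
  have h1 : y ∈ tsupport k := subset_tsupport k h
  have h2 := hR h1
  rw [mem_closedBall_zero_iff, Real.norm_eq_abs] at h2
  exact absurd (lt_of_le_of_lt (le_max_left _ _) hy) (not_lt.mpr h2)

theorem Q_hasDerivAt_x (F k : ℝ → ℝ) (hF : Continuous F) (hk : ContDiff ℝ ∞ k)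
    (hc : HasCompactSupport k) (s x : ℝ) (hs : s ≠ 0) :
    HasDerivAt (fun x => Q F k s x) (s⁻¹ * Q F (deriv k) s x) x := by
  obtain ⟨R, hR0, hR⟩ := supp_bound k hc
  obtain ⟨R', hR0', hR'⟩ := supp_bound (deriv k) hc.deriv
  have hkc : Continuous k := hk.continuous
  have hdc : Continuous (deriv k) := hk.continuous_deriv (by simp)
  have hkd : Differentiable ℝ k := hk.differentiable (by simp)
  have hsa : 0 < |s| := abs_pos.mpr hs
  have key : HasDerivAt (fun x => ∫ z, k ((x - z) / s) * F z)
      (∫ z, deriv k ((x - z) / s) * (1 / s) * F z) x := by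
    have hzero : ∀ (h : ℝ → ℝ) (r : ℝ), r ≤ R + R' → (∀ y, r < |y| → h y = 0) →
        ∀ p ∈ Set.Icc (x - 1) (x + 1), ∀ z, |x| + 1 + (R + R') * |s| < |z| → h ((p - z) / s) = 0 := by
      intro h r hr hh p hp z hz
      apply hh
      rw [abs_div, lt_div_iff₀ hsa]
      have h1 : |p| ≤ |x| + 1 := by
        have h2 : |p - x| ≤ 1 := abs_le.mpr ⟨by linarith [hp.1], by linarith [hp.2]⟩
        calc |p| = |x + (p - x)| := by ring_nf
          _ ≤ |x| + |p - x| := abs_add_le _ _
          _ ≤ _ := by linarith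
      have h2 : |z| ≤ |p| + |p - z| := by
        calc |z| = |p - (p - z)| := by ring_nf
          _ ≤ |p| + |p - z| := abs_sub _ _
      nlinarith
    apply hasDerivAt_int (fun x z => k ((x - z) / s) * F z)
      (fun x z => deriv k ((x - z) / s) * (1 / s) * F z) x 1 (|x| + 1 + (R + R') * |s|) one_pos
    · intro p _
      fun_prop
    · apply Continuous.continuousOn
      fun_prop
    · intro p hp z hz
      rw [hzero k R (by linarith) hR p hp z hz, zero_mul]
    · intro p hp z hz
      rw [hzero (deriv k) R' (by linarith) hR' p hp z hz, zero_mul, zero_mul]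
    · intro p _ z
      have h1 : HasDerivAt (fun p : ℝ => (p - z) / s) (1 / s) p :=
        ((hasDerivAt_id p).sub_const z).div_const s
      exact ((hkd ((p - z) / s)).hasDerivAt.comp p h1).mul_const (F z)
  have h2 := key.const_mul ((s ^ 2)⁻¹)
  refine h2.congr_deriv ?_
  unfold Q
  have h3 : ∫ z, deriv k ((x - z) / s) * (1 / s) * F z = s⁻¹ * ∫ z, deriv k ((x - z) / s) * F z := by
    rw [← integral_const_mul]
    congr 1
    funext z
    rw [one_div]
    ring
  rw [h3]
  ring

theorem Q_hasDerivAt_s (F k : ℝ → ℝ) (hF : Continuous F) (hk : ContDiff ℝ ∞ k)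
    (hc : HasCompactSupport k) (s x : ℝ) (hs : s ≠ 0) :
    HasDerivAt (fun s => Q F k s x) (-(s⁻¹ * Q F (fun y => 2 * k y + y * deriv k y) s x)) s := by
  obtain ⟨R, hR0, hR⟩ := supp_bound k hc
  obtain ⟨R', hR0', hR'⟩ := supp_bound (deriv k) hc.deriv
  have hkc : Continuous k := hk.continuous
  have hdc : Continuous (deriv k) := hk.continuous_deriv (by simp)
  have hkd : Differentiable ℝ k := hk.differentiable (by simp)
  have hsa : 0 < |s| := abs_pos.mpr hs
  have hne : ∀ p ∈ Set.Icc (s - |s| / 2) (s + |s| / 2), p ≠ 0 ∧ |p| ≤ 2 * |s| := by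
    intro p hp
    have h2 : |p - s| ≤ |s| / 2 := abs_le.mpr ⟨by linarith [hp.1], by linarith [hp.2]⟩
    constructor
    · rintro rfl
      rw [zero_sub, abs_neg] at h2
      linarith
    · calc |p| = |s + (p - s)| := by ring_nf
          _ ≤ |s| + |p - s| := abs_add_le _ _
          _ ≤ _ := by linarith
  have hzero : ∀ (h : ℝ → ℝ) (r : ℝ), r ≤ R + R' → (∀ y, r < |y| → h y = 0) →
      ∀ p ∈ Set.Icc (s - |s| / 2) (s + |s| / 2), ∀ z, |x| + (R + R') * (2 * |s|) < |z| →
        h ((x - z) / p) = 0 := by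
    intro h r hr hh p hp z hz
    apply hh
    obtain ⟨hp0, hp2⟩ := hne p hp
    have hpa : 0 < |p| := abs_pos.mpr hp0
    rw [abs_div, lt_div_iff₀ hpa]
    have h2 : |z| ≤ |x| + |x - z| := by
      calc |z| = |x - (x - z)| := by ring_nf
        _ ≤ |x| + |x - z| := abs_sub _ _
    nlinarith
  have key : HasDerivAt (fun s => ∫ z, k ((x - z) / s) * F z)
      (∫ z, deriv k ((x - z) / s) * (-(x - z) / s ^ 2) * F z) s := by
    apply hasDerivAt_int (fun s z => k ((x - z) / s) * F z)
      (fun s z => deriv k ((x - z) / s) * (-(x - z) / s ^ 2) * F z) s (|s| / 2)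
        (|x| + (R + R') * (2 * |s|)) (by linarith)
    · intro p _
      fun_prop
    · have h1 : ∀ q ∈ (Set.Icc (s - |s| / 2) (s + |s| / 2) ×ˢ (Set.univ : Set ℝ)), q.1 ≠ 0 :=
        fun q hq => (hne q.1 hq.1).1
      have h2 : ContinuousOn (fun q : ℝ × ℝ => (x - q.2) / q.1)
          (Set.Icc (s - |s| / 2) (s + |s| / 2) ×ˢ (Set.univ : Set ℝ)) :=
        ContinuousOn.div (by fun_prop) (by fun_prop) h1
      have h3 : ContinuousOn (fun q : ℝ × ℝ => -(x - q.2) / q.1 ^ 2)
          (Set.Icc (s - |s| / 2) (s + |s| / 2) ×ˢ (Set.univ : Set ℝ)) :=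
        ContinuousOn.div (by fun_prop) (by fun_prop) (fun q hq => pow_ne_zero 2 (h1 q hq))
      exact ((hdc.comp_continuousOn h2).mul h3).mul (by fun_prop)
    · intro p hp z hz
      rw [hzero k R (by linarith) hR p hp z hz, zero_mul]
    · intro p hp z hz
      rw [hzero (deriv k) R' (by linarith) hR' p hp z hz, zero_mul, zero_mul]
    · intro p hp z
      obtain ⟨hp0, hp2⟩ := hne p hp
      have h1 : HasDerivAt (fun p : ℝ => (x - z) / p) (-(x - z) / p ^ 2) p := by
        have := (hasDerivAt_inv hp0).const_mul (x - z)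
        refine (this.congr_deriv (by field_simp)).congr_of_eventuallyEq ?_
        exact Filter.Eventually.of_forall (fun q => by simp only [div_eq_mul_inv])
      exact ((hkd ((x - z) / p)).hasDerivAt.comp p h1).mul_const (F z)
  have hinv : HasDerivAt (fun s : ℝ => (s ^ 2)⁻¹) (-(2 * s) / (s ^ 2) ^ 2) s := by
    have h1 : HasDerivAt (fun s : ℝ => s ^ 2) (2 * s) s := by
      simpa using hasDerivAt_pow 2 s
    exact h1.inv (pow_ne_zero 2 hs)
  have h2 := hinv.mul key
  refine h2.congr_deriv ?_
  unfold Q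
  have hsmem : s ∈ Set.Icc (s - |s| / 2) (s + |s| / 2) := ⟨by linarith, by linarith⟩
  have hmemM : ∀ z : ℝ, z ∉ Set.Icc (-(|x| + (R + R') * (2 * |s|))) (|x| + (R + R') * (2 * |s|)) →
      |x| + (R + R') * (2 * |s|) < |z| := by
    intro z hz
    by_contra h
    push Not at h
    exact hz (abs_le.mp h)
  have hi1 : Integrable (fun z => 2 * (k ((x - z) / s) * F z)) := by
    apply Continuous.integrable_of_hasCompactSupport (by fun_prop)
    refine HasCompactSupport.intro (K := Set.Icc (-(|x| + (R + R') * (2 * |s|))) (|x| + (R + R') * (2 * |s|)))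
      isCompact_Icc (fun z hz => ?_)
    rw [hzero k R (by linarith) hR s hsmem z (hmemM z hz), zero_mul, mul_zero]
  have hi2 : Integrable (fun z => (x - z) / s * deriv k ((x - z) / s) * F z) := by
    apply Continuous.integrable_of_hasCompactSupport (by fun_prop)
    refine HasCompactSupport.intro (K := Set.Icc (-(|x| + (R + R') * (2 * |s|))) (|x| + (R + R') * (2 * |s|)))
      isCompact_Icc (fun z hz => ?_)
    rw [hzero (deriv k) R' (by linarith) hR' s hsmem z (hmemM z hz), mul_zero, zero_mul]
  have h3 : ∫ z, (2 * k ((x - z) / s) + (x - z) / s * deriv k ((x - z) / s)) * F z =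
      2 * (∫ z, k ((x - z) / s) * F z) + ∫ z, (x - z) / s * deriv k ((x - z) / s) * F z := by
    rw [← integral_const_mul, ← integral_add hi1 hi2]
    congr 1
    funext z
    ring
  have h4 : ∫ z, deriv k ((x - z) / s) * (-(x - z) / s ^ 2) * F z =
      -s⁻¹ * ∫ z, (x - z) / s * deriv k ((x - z) / s) * F z := by
    rw [← integral_const_mul]
    congr 1
    funext z
    field_simp
  rw [h3, h4]
  field_simp
  ring

theorem Q_continuousOn (F k : ℝ → ℝ) (hF : Continuous F) (hk : ContDiff ℝ ∞ k)
    (hc : HasCompactSupport k) :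
    ContinuousOn (fun q : ℝ × ℝ => Q F k q.1 q.2) {q | q.1 ≠ 0} := by
  have hkc : Continuous k := hk.continuous
  have h1 : Continuous (fun q : ℝ × ℝ => ∫ y in tsupport k, k y * F (q.2 - q.1 * y)) := by
    apply continuous_parametric_integral_of_continuous (f := fun (q : ℝ × ℝ) (y : ℝ) => k y * F (q.2 - q.1 * y))
    · show Continuous (fun r : (ℝ × ℝ) × ℝ => k r.2 * F (r.1.2 - r.1.1 * r.2))
      fun_prop
    · exact hc.isCompact
  have h2 : ∀ q : ℝ × ℝ, ∫ y in tsupport k, k y * F (q.2 - q.1 * y) = ∫ y, k y * F (q.2 - q.1 * y) := by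
    intro q
    apply setIntegral_eq_integral_of_forall_compl_eq_zero
    intro y hy
    rw [image_eq_zero_of_notMem_tsupport hy, zero_mul]
  simp_rw [h2] at h1
  have h3 : ContinuousOn (fun q : ℝ × ℝ => |q.1|⁻¹ * ∫ y, k y * F (q.2 - q.1 * y)) {q | q.1 ≠ 0} := by
    apply ContinuousOn.mul _ h1.continuousOn
    apply ContinuousOn.inv₀ (by fun_prop)
    intro q hq
    exact abs_ne_zero.mpr hq
  exact h3.congr (fun q hq => Q_cov F k q.1 q.2 hq)

theorem Q_bound (F k : ℝ → ℝ) (hF : Continuous F) (hF1 : ∀ x, |F x| ≤ 1) (hk : Continuous k)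
    (hc : HasCompactSupport k) (s x : ℝ) (hs : s ≠ 0) :
    |Q F k s x| ≤ |s|⁻¹ * ∫ y, |k y| := by
  rw [Q_cov F k s x hs, abs_mul, abs_of_nonneg (inv_nonneg.mpr (abs_nonneg s))]
  apply mul_le_mul_of_nonneg_left _ (inv_nonneg.mpr (abs_nonneg s))
  rw [← Real.norm_eq_abs]
  apply norm_integral_le_of_norm_le
  · exact (hk.integrable_of_hasCompactSupport hc).abs
  · refine Filter.Eventually.of_forall (fun y => ?_)
    rw [Real.norm_eq_abs, abs_mul]
    have := hF1 (x - s * y)
    nlinarith [abs_nonneg (k y)]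

theorem Q_zyg_bound (F k : ℝ → ℝ) (C : ℝ) (hF : Continuous F)
    (hz : ∀ x t : ℝ, |F (x + t) + F (x - t) - 2 * F x| ≤ C * |t|)
    (hk : Continuous k) (hc : HasCompactSupport k) (hev : ∀ y, k (-y) = k y) (hi : ∫ y, k y = 0)
    (s x : ℝ) (hs : s ≠ 0) :
    |Q F k s x| ≤ C / 2 * ∫ y, |y| * |k y| := by
  have hsa : 0 < |s| := abs_pos.mpr hs
  have hint : ∀ t : ℝ, Integrable (fun y => k y * F (x + t * y)) := by
    intro t
    apply Continuous.integrable_of_hasCompactSupport (by fun_prop)
    exact hc.mul_right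
  have hint1 : Integrable (fun y => k y * F (x + s * y)) := hint s
  have hint2 : Integrable (fun y => k y * F (x - s * y)) := by
    have := hint (-s)
    refine this.congr (Filter.Eventually.of_forall (fun y => ?_))
    simp only
    congr 2
    ring
  have hint3 : Integrable (fun y => k y * (2 * F x)) :=
    (hk.integrable_of_hasCompactSupport hc).mul_const _
  have h1 : ∫ y, k y * F (x + s * y) = ∫ y, k y * F (x - s * y) := by
    have := integral_neg_eq_self (fun y => k y * F (x - s * y)) volume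
    rw [← this]
    congr 1
    funext y
    rw [hev, mul_neg, sub_neg_eq_add]
  have h2 : ∫ y, k y * (F (x + s * y) + F (x - s * y) - 2 * F x) = 2 * ∫ y, k y * F (x - s * y) := by
    have e1 : ∫ y, k y * (F (x + s * y) + F (x - s * y) - 2 * F x) =
        ∫ y, ((k y * F (x + s * y) + k y * F (x - s * y)) - k y * (2 * F x)) := by
      congr 1
      funext y
      ring
    have hint12 : Integrable (fun y => k y * F (x + s * y) + k y * F (x - s * y)) := hint1.add hint2
    rw [e1, integral_sub hint12 hint3, integral_add hint1 hint2, h1,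
      integral_mul_const, hi]
    ring
  have h3 : |∫ y, k y * (F (x + s * y) + F (x - s * y) - 2 * F x)| ≤ ∫ y, (C * |s|) * (|y| * |k y|) := by
    rw [← Real.norm_eq_abs]
    apply norm_integral_le_of_norm_le
    · apply Continuous.integrable_of_hasCompactSupport (by fun_prop)
      refine HasCompactSupport.intro hc.isCompact (fun y hy => ?_)
      rw [image_eq_zero_of_notMem_tsupport hy, abs_zero, mul_zero, mul_zero]
    · refine Filter.Eventually.of_forall (fun y => ?_)
      rw [Real.norm_eq_abs, abs_mul]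
      have := hz x (s * y)
      rw [abs_mul] at this
      calc |k y| * |F (x + s * y) + F (x - s * y) - 2 * F x| ≤ |k y| * (C * (|s| * |y|)) :=
            mul_le_mul_of_nonneg_left this (abs_nonneg _)
        _ = _ := by ring
  rw [integral_const_mul] at h3
  rw [Q_cov F k s x hs, abs_mul, abs_of_nonneg (inv_nonneg.mpr (abs_nonneg s))]
  have h4 : 2 * |∫ y, k y * F (x - s * y)| ≤ C * |s| * ∫ y, |y| * |k y| := by
    rw [h2, abs_mul, abs_two] at h3
    exact h3
  calc |s|⁻¹ * |∫ y, k y * F (x - s * y)| ≤ |s|⁻¹ * ((C * |s| * ∫ y, |y| * |k y|) / 2) := by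
        apply mul_le_mul_of_nonneg_left _ (inv_nonneg.mpr (abs_nonneg s))
        linarith
    _ = _ := by
        field_simp

theorem Q_zero (F k : ℝ → ℝ) (hk : Continuous k) (hs1 : ∀ y, 1 < |y| → k y = 0)
    (hi : ∫ y, k y = 0) (s x : ℝ) (hs : s ≠ 0)
    (hF : ∀ y ∈ Set.Icc (x - |s|) (x + |s|), F y = F x) :
    Q F k s x = 0 := by
  rw [Q_cov F k s x hs]
  have h1 : ∫ y, k y * F (x - s * y) = ∫ y, k y * F x := by
    congr 1
    funext y
    by_cases hy : 1 < |y|
    · rw [hs1 y hy, zero_mul, zero_mul]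
    · push Not at hy
      rw [hF]
      have h2 : |s * y| ≤ |s| := by
        rw [abs_mul]
        nlinarith [abs_nonneg s]
      rw [abs_le] at h2
      exact ⟨by linarith [h2.2], by linarith [h2.1]⟩
  rw [h1, integral_mul_const, hi, zero_mul, mul_zero]

/-- kernels -/
theorem exists_kernels : ∃ φ θ ρ : ℝ → ℝ, ContDiff ℝ ∞ φ ∧ ContDiff ℝ ∞ θ ∧ ContDiff ℝ ∞ ρ ∧
    (∀ y, 1 < |y| → φ y = 0) ∧ (∀ y, 1 < |y| → θ y = 0) ∧ (∀ y, 1 < |y| → ρ y = 0) ∧
    (∀ y, φ (-y) = φ y) ∧ (∀ y, θ y = y * φ y) ∧ (∀ y, y * ρ y = - φ y) ∧ (∀ y, ρ (-y) = - ρ y) ∧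
    (∫ y, φ y = 1) := by
  let b : ContDiffBump (0 : ℝ) := ⟨1 / 8, 1 / 4, by norm_num, by norm_num⟩
  let c : ContDiffBump (0 : ℝ) := ⟨1 / 4, 1 / 2, by norm_num, by norm_num⟩
  let B : ℝ → ℝ := b.normed volume
  have hB : ContDiff ℝ ∞ B := b.contDiff_normed
  have hc : ContDiff ℝ ∞ c := c.contDiff
  have hBneg : ∀ x, B (-x) = B x := fun x => b.normed_neg x
  have hcneg : ∀ x, c (-x) = c x := fun x => c.neg x
  have hB0 : ∀ x, 1 / 4 ≤ |x| → B x = 0 := by
    intro x hx
    by_contra h
    have h1 : x ∈ Function.support (b.normed volume) := h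
    rw [b.support_normed_eq, Metric.mem_ball, Real.dist_eq, sub_zero] at h1
    exact absurd h1 (not_lt.2 hx)
  have hc0 : ∀ x, 1 / 2 ≤ |x| → c x = 0 := by
    intro x hx
    apply c.zero_of_le_dist
    rw [Real.dist_eq, sub_zero]
    exact hx
  let φ : ℝ → ℝ := fun y => (B (y - 3 / 4) + B (y + 3 / 4)) / 2
  have hφ : ContDiff ℝ ∞ φ :=
    ((hB.comp (contDiff_id.sub contDiff_const)).add
      (hB.comp (contDiff_id.add contDiff_const))).div_const 2
  have hφ1 : ∀ y, 1 < |y| → φ y = 0 := by
    intro y hy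
    have h1 : B (y - 3 / 4) = 0 := by
      apply hB0
      rcases lt_abs.1 hy with h | h
      · rw [abs_of_pos (by linarith)]; linarith
      · rw [abs_of_neg (by linarith)]; linarith
    have h2 : B (y + 3 / 4) = 0 := by
      apply hB0
      rcases lt_abs.1 hy with h | h
      · rw [abs_of_pos (by linarith)]; linarith
      · rw [abs_of_neg (by linarith)]; linarith
    simp only [φ, h1, h2]; norm_num
  have hφ2 : ∀ y, |y| < 1 / 2 → φ y = 0 := by
    intro y hy
    obtain ⟨h3, h4⟩ := abs_lt.1 hy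
    have h1 : B (y - 3 / 4) = 0 := by
      apply hB0
      rw [abs_of_neg (by linarith)]; linarith
    have h2 : B (y + 3 / 4) = 0 := by
      apply hB0
      rw [abs_of_pos (by linarith)]; linarith
    simp only [φ, h1, h2]; norm_num
  have hφneg : ∀ y, φ (-y) = φ y := by
    intro y
    simp only [φ]
    rw [show -y - 3 / 4 = -(y + 3 / 4) by ring, show -y + 3 / 4 = -(y - 3 / 4) by ring, hBneg,
      hBneg, add_comm]
  have hden : ∀ y, y ^ 2 + c y ≠ 0 := by
    intro y
    have h1 := c.nonneg (x := y)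
    by_cases hy : y = 0
    · rw [hy]
      have : c 0 = 1 := c.one_of_mem_closedBall (by simp [c])
      rw [this]; norm_num
    · have : 0 < y ^ 2 := by positivity
      linarith
  refine ⟨φ, fun y => y * φ y, fun y => -(φ y) * (y / (y ^ 2 + c y)), hφ, contDiff_id.mul hφ,
    hφ.neg.mul (contDiff_id.div ((contDiff_id.pow 2).add hc) hden), hφ1, ?_, ?_, hφneg,
    fun y => rfl, ?_, ?_, ?_⟩
  · intro y hy
    simp only [hφ1 y hy, mul_zero]
  · intro y hy
    simp only [hφ1 y hy, neg_zero, zero_mul]
  · intro y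
    dsimp only
    by_cases hy : |y| < 1 / 2
    · rw [hφ2 y hy]; simp
    · have hy0 : y ≠ 0 := by
        rintro rfl
        rw [abs_zero] at hy
        exact hy (by norm_num)
      rw [hc0 y (not_lt.1 hy)]
      field_simp
      ring
  · intro y
    dsimp only
    rw [hφneg, hcneg, neg_sq]
    ring
  · have hi : Integrable B volume := b.integrable_normed
    have h1 : ∫ y, B y = 1 := b.integral_normed
    have h2 : ∫ y, B (y - 3 / 4) = 1 := by rw [integral_sub_right_eq_self B (3 / 4)]; exact h1
    have h3 : ∫ y, B (y + 3 / 4) = 1 := by rw [integral_add_right_eq_self B (3 / 4)]; exact h1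
    simp only [φ]
    rw [integral_div, integral_add (hi.comp_sub_right _) (hi.comp_add_right _), h2, h3]
    norm_num

/-- total mass of the averaged density -/
theorem Q_mass (F φ : ℝ → ℝ) (hF : Continuous F) (hF0 : ∀ x, x ≤ 0 → F x = 0)
    (hF1 : ∀ x, 1 ≤ x → F x = 1) (hφ : ContDiff ℝ ∞ φ) (hs1 : ∀ y, 1 < |y| → φ y = 0)
    (hi : ∫ y, φ y = 1) (χ : ℝ → ℝ) (hχ : Continuous χ) (hχ1 : ∀ x ∈ Set.Icc (-2:ℝ) 2, χ x = 1)
    (s : ℝ) (hs : 0 < s) (hs2 : s ≤ 1) :
    ∫ x, Q F (deriv φ) s x * χ x = 1 := by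
  have hdc : Continuous (deriv φ) := hφ.continuous_deriv (by simp)
  have hdd : ∀ y, HasDerivAt φ (deriv φ y) y := fun y =>
    ((hφ.differentiable (by simp)) y).hasDerivAt
  have hd0 : ∀ y, 1 < |y| → deriv φ y = 0 := by
    intro y hy
    have h1 : φ =ᶠ[nhds y] fun _ => 0 := by
      have : {z : ℝ | 1 < |z|} ∈ nhds y :=
        (isOpen_lt continuous_const continuous_abs).mem_nhds hy
      filter_upwards [this] with z hz
      exact hs1 z hz
    rw [h1.deriv_eq]
    simp
  -- step A
  have hA : ∀ x, Q F (deriv φ) s x = s⁻¹ * ∫ y in (-2:ℝ)..2, deriv φ y * F (x - s * y) := by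
    intro x
    have h1 : ∫ z, deriv φ ((x - z) / s) * F z =
        ∫ z, (fun w => deriv φ (w / s) * F (x - s * (w / s))) (x - z) := by
      congr 1
      funext z
      dsimp only
      rw [show x - s * ((x - z) / s) = z by field_simp; ring]
    have h2 : ∫ w, (fun w => deriv φ (w / s) * F (x - s * (w / s))) w =
        |s| • ∫ y, deriv φ y * F (x - s * y) :=
      Measure.integral_comp_div (fun y => deriv φ y * F (x - s * y)) s
    have h3 : ∫ y in (-2:ℝ)..2, deriv φ y * F (x - s * y) = ∫ y, deriv φ y * F (x - s * y) := by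
      apply intervalIntegral.integral_eq_integral_of_support_subset
      intro y hy
      by_contra hcon
      apply hy
      have : 1 < |y| := by
        by_contra h
        obtain ⟨h4, h5⟩ := abs_le.1 (not_lt.1 h)
        exact hcon ⟨by linarith, by linarith⟩
      dsimp only
      rw [hd0 y this, zero_mul]
    unfold Q
    rw [h1, integral_sub_left_eq_self (fun w => deriv φ (w / s) * F (x - s * (w / s))) volume x, h2,
      h3, abs_of_pos hs, smul_eq_mul]
    field_simp
  -- step B
  have hint0 : ∫ y in (-2:ℝ)..2, deriv φ y = 0 := by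
    rw [intervalIntegral.integral_eq_sub_of_hasDerivAt (fun y _ => hdd y)
      (hdc.intervalIntegrable _ _), hs1 2 (by norm_num), hs1 (-2) (by norm_num), sub_zero]
  have hB : ∀ x, x < -1 ∨ 2 < x → Q F (deriv φ) s x = 0 := by
    intro x hx
    rw [hA x]
    rcases hx with hx | hx
    · have : ∀ y, deriv φ y * F (x - s * y) = 0 := by
        intro y
        by_cases hy : 1 < |y|
        · rw [hd0 y hy, zero_mul]
        · obtain ⟨h1, h2⟩ := abs_le.1 (not_lt.1 hy)
          rw [hF0 _ (by nlinarith), mul_zero]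
      simp only [this, intervalIntegral.integral_zero, mul_zero]
    · have : ∀ y, deriv φ y * F (x - s * y) = deriv φ y := by
        intro y
        by_cases hy : 1 < |y|
        · rw [hd0 y hy, zero_mul]
        · obtain ⟨h1, h2⟩ := abs_le.1 (not_lt.1 hy)
          rw [hF1 _ (by nlinarith), mul_one]
      simp only [this, hint0, mul_zero]
  have hB2 : ∫ x, Q F (deriv φ) s x * χ x = ∫ x in (-2:ℝ)..2, Q F (deriv φ) s x := by
    rw [← intervalIntegral.integral_eq_integral_of_support_subset (a := -2) (b := 2)]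
    · apply intervalIntegral.integral_congr
      intro x hx
      rw [Set.uIcc_of_le (by norm_num)] at hx
      dsimp only
      rw [hχ1 x hx, mul_one]
    · intro x hx
      by_contra hcon
      apply hx
      have : x < -1 ∨ 2 < x := by
        by_contra h
        push Not at h
        exact hcon ⟨by linarith, h.2⟩
      dsimp only
      rw [hB x this, zero_mul]
  -- step C
  have hC : ∫ x in (-2:ℝ)..2, (∫ y in (-2:ℝ)..2, deriv φ y * F (x - s * y)) =
      ∫ y in (-2:ℝ)..2, (∫ x in (-2:ℝ)..2, deriv φ y * F (x - s * y)) := by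
    apply intervalIntegral_intervalIntegral_swap
    have hcont : Continuous (Function.uncurry fun x y : ℝ => deriv φ y * F (x - s * y)) := by
      apply Continuous.mul
      · exact hdc.comp continuous_snd
      · exact hF.comp (continuous_fst.sub (continuous_const.mul continuous_snd))
    have hK : IsCompact ((Set.Icc (-2:ℝ) 2) ×ˢ (Set.Icc (-2:ℝ) 2)) :=
      isCompact_Icc.prod isCompact_Icc
    refine (hcont.continuousOn.integrableOn_compact hK).mono_set ?_
    rw [Set.uIoc_of_le (by norm_num)]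
    exact Set.prod_mono Set.Ioc_subset_Icc_self Set.Ioc_subset_Icc_self
  -- step D
  set I : ℝ := ∫ x in (-2:ℝ)..2, F x with hI
  have hD : ∀ y, ∫ x in (-2:ℝ)..2, deriv φ y * F (x - s * y) = (I - s * y) * deriv φ y := by
    intro y
    rw [intervalIntegral.integral_const_mul]
    by_cases hy : 1 < |y|
    · rw [hd0 y hy, zero_mul, mul_zero]
    · obtain ⟨h1, h2⟩ := abs_le.1 (not_lt.1 hy)
      have h3 : s * y ≤ 1 := by nlinarith
      have h4 : -1 ≤ s * y := by nlinarith
      have h5 : ∫ x in (-2:ℝ)..2, F (x - s * y) = I - s * y := by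
        rw [intervalIntegral.integral_comp_sub_right (fun x => F x) (s * y)]
        have e0 : ∀ a b : ℝ, IntervalIntegrable F volume a b := fun a b => hF.intervalIntegrable a b
        have e1 : ∫ x in (-2 - s * y)..(-2), F x = 0 := by
          rw [intervalIntegral.integral_congr (g := fun _ => 0)]
          · simp
          · intro x hx
            apply hF0
            have := (Set.mem_uIcc.1 hx)
            rcases this with h | h <;> linarith [h.1, h.2]
        have e2 : ∫ x in (2:ℝ)..(2 - s * y), F x = -(s * y) := by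
          rw [intervalIntegral.integral_congr (g := fun _ => 1)]
          · simp
          · intro x hx
            apply hF1
            have := (Set.mem_uIcc.1 hx)
            rcases this with h | h <;> linarith [h.1, h.2]
        rw [← intervalIntegral.integral_add_adjacent_intervals (e0 (-2 - s * y) (-2)) (e0 _ _),
          ← intervalIntegral.integral_add_adjacent_intervals (e0 (-2) 2) (e0 _ _), e1, e2]
        ring
      rw [h5]; ring
  -- step E
  have hE : ∫ y in (-2:ℝ)..2, (I - s * y) * deriv φ y = s := by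
    have h1 : ∫ y in (-2:ℝ)..2, (-s * φ y + (I - s * y) * deriv φ y) = 0 := by
      rw [intervalIntegral.integral_eq_sub_of_hasDerivAt (f := fun y => (I - s * y) * φ y)]
      · rw [hs1 2 (by norm_num), hs1 (-2) (by norm_num)]; ring
      · intro y _
        have e1 : HasDerivAt (fun y : ℝ => I - s * y) (-s) y := by
          simpa using ((hasDerivAt_id y).const_mul s).const_sub I
        exact e1.mul (hdd y)
      · apply Continuous.intervalIntegrable
        exact (continuous_const.mul hφ.continuous).add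
          ((continuous_const.sub (continuous_const.mul continuous_id)).mul hdc)
    rw [intervalIntegral.integral_add] at h1
    · have h2 : ∫ y in (-2:ℝ)..2, φ y = 1 := by
        rw [intervalIntegral.integral_eq_integral_of_support_subset]
        · exact hi
        · intro y hy
          by_contra hcon
          apply hy
          apply hs1
          by_contra h
          obtain ⟨h4, h5⟩ := abs_le.1 (not_lt.1 h)
          exact hcon ⟨by linarith, by linarith⟩
      rw [intervalIntegral.integral_const_mul, h2] at h1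
      linarith
    · exact (continuous_const.mul hφ.continuous).intervalIntegrable _ _
    · exact ((continuous_const.sub (continuous_const.mul continuous_id)).mul
        hdc).intervalIntegrable _ _
  rw [hB2]
  simp only [hA]
  rw [intervalIntegral.integral_const_mul, hC]
  simp only [hD]
  rw [hE]
  exact inv_mul_cancel₀ hs.ne'

end Pool.Agent.Helper960.Rou
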