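import Pool.Agent.Helper960.Rou.Pid

open MeasureTheory Filter Topology
open scoped ContDiff

set_option linter.unusedVariables false

namespace Pool.Agent.Helper960.Rou

theorem mass_n (m : ℕ) (F k : ℝ → ℝ)
    (hQc : ContinuousOn (fun q : ℝ × ℝ => Q F k q.1 q.2) {q | q.1 ≠ 0})
    (χ : ℝ → ℝ) (hχ : Continuous χ) (hχs : HasCompactSupport χ)
    (hχ1 : ∀ x ∈ Set.Icc (-2:ℝ) 2, χ x = 1)
    (hmass : ∀ s : ℝ, 0 < s → s ≤ 1 → ∫ x, Q F k s x * χ x = 1)
    (c : ℝ → ℝ) (hc : Continuous c) (δ : ℝ) (hδ : 0 < δ)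
    (hcs : ∀ t, c t ≠ 0 → δ ≤ t ∧ t ≤ 1)
    (hcont : ∀ (m : ℕ), Continuous (fun x : Rn (m + 2) => c (x 0) * Q F k (x 0) (x 1)))
    (integral_cons : ∀ (k : ℕ) (G : Rn (k + 1) → ℝ) (hG : Integrable G),
      ∫ x, G x = ∫ s : ℝ, ∫ y : Rn k, G (Fin.cons s y)) :
    ∫ x : Rn (m + 2), c (x 0) * Q F k (x 0) (x 1) * ∏ i, χ (x i) =
      (∫ t, c t) * (∫ t, χ t) ^ m := by
  set G : Rn (m+2) → ℝ := fun x => c (x 0) * Q F k (x 0) (x 1) * ∏ i, χ (x i) with hG
  have hpc : ∀ (n : ℕ) (H : Rn n → ℝ), Continuous H →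
      Integrable (fun x : Rn n => H x * ∏ i, χ (x i)) := by
    intro n H hH
    have h1 : Continuous (fun x : Rn n => H x * ∏ i, χ (x i)) :=
      hH.mul (continuous_finsetProd _ fun i _ => hχ.comp (continuous_apply i))
    refine h1.integrable_of_hasCompactSupport ?_
    refine HasCompactSupport.intro (isCompact_univ_pi (fun _ : Fin n => hχs.isCompact)) ?_
    intro x hx
    have hx' : ∃ i, x i ∉ tsupport χ := by
      by_contra hcon
      push Not at hcon
      exact hx (fun i _ => hcon i)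
    obtain ⟨i, hi⟩ := hx'
    have h0 : χ (x i) = 0 := image_eq_zero_of_notMem_tsupport hi
    have h1 : ∏ i, χ (x i) = 0 := Finset.prod_eq_zero (Finset.mem_univ i) h0
    change H x * ∏ i, χ (x i) = 0
    rw [h1, mul_zero]
  have hGi : Integrable G := hpc (m+2) _ (hcont m)
  rw [integral_cons (m+1) G hGi, ← integral_mul_const]
  refine integral_congr_ae (Filter.Eventually.of_forall fun s => ?_)
  change ∫ y : Rn (m+1), G (Fin.cons s y) = c s * (∫ t, χ t) ^ m
  have e1 : ∀ y : Rn (m+1), G (Fin.cons s y) =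
      c s * Q F k s (y 0) * (χ s * ∏ i, χ (y i)) := by
    intro y
    change c ((Fin.cons s y : Rn (m+2)) 0) * Q F k ((Fin.cons s y : Rn (m+2)) 0)
      ((Fin.cons s y : Rn (m+2)) 1) * ∏ i, χ ((Fin.cons s y : Rn (m+2)) i) = _
    rw [Fin.prod_univ_succ]
    rfl
  simp_rw [e1]
  by_cases hcz : c s = 0
  · simp [hcz]
  obtain ⟨hs1, hs2⟩ := hcs s hcz
  have hs0 : 0 < s := lt_of_lt_of_le hδ hs1
  have hχs1 : χ s = 1 := hχ1 s ⟨by linarith, by linarith⟩
  simp_rw [hχs1, one_mul]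
  have hQs : Continuous (fun t => Q F k s t) := by
    rw [← continuousOn_univ]
    have h2 : ContinuousOn (fun t : ℝ => ((s, t) : ℝ × ℝ)) Set.univ := by fun_prop
    exact hQc.comp h2 (fun t _ => hs0.ne')
  have hH : Continuous (fun y : Rn (m+1) => c s * Q F k s (y 0)) :=
    continuous_const.mul (hQs.comp (continuous_apply 0))
  rw [integral_cons m _ (hpc (m+1) _ hH)]
  have e2 : ∀ (t : ℝ) (z : Rn m),
      c s * Q F k s ((Fin.cons t z : Rn (m+1)) 0) * ∏ i, χ ((Fin.cons t z : Rn (m+1)) i) =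
      (c s * (Q F k s t * χ t)) * ∏ i, χ (z i) := by
    intro t z
    rw [Fin.prod_univ_succ]
    simp only [Fin.cons_zero, Fin.cons_succ]
    ring
  simp_rw [e2, integral_const_mul]
  have e3 : ∫ z : Rn m, ∏ i, χ (z i) = (∫ t, χ t) ^ m := by
    have := integral_fintype_prod_volume_eq_pow (ι := Fin m) χ
    simpa using this
  rw [e3, integral_mul_const, integral_const_mul, hmass s hs0 hs2, mul_one]

end Pool.Agent.Helper960.Rou
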