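import Pool.Agent.Helper960.Rou.Ibp
import Pool.Agent.Helper960.Rou.Fub

open MeasureTheory Filter Topology
open scoped ContDiff

namespace Pool.Agent.Helper960.Rou

/-- all data used in the construction -/
structure Dat (F : ℝ → ℝ) (N : Set ℝ) (Cz : ℝ) (φ θ ρ : ℝ → ℝ) : Prop where
  cF : Continuous F
  bF : ∀ x, 0 ≤ F x ∧ F x ≤ 1
  F0 : ∀ x, x ≤ 0 → F x = 0
  F1 : ∀ x, 1 ≤ x → F x = 1
  cN : IsCompact N
  neN : N.Nonempty
  sN : N ⊆ Set.Icc 0 1
  nN : volume N = 0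
  zyg : ∀ x t : ℝ, |F (x + t) + F (x - t) - 2 * F x| ≤ Cz * |t|
  loc : ∀ x s : ℝ, 0 ≤ s → s < Metric.infDist x N → ∀ y ∈ Set.Icc (x - s) (x + s), F y = F x
  sφ : ContDiff ℝ ∞ φ
  sθ : ContDiff ℝ ∞ θ
  sρ : ContDiff ℝ ∞ ρ
  zφ : ∀ y, 1 < |y| → φ y = 0
  zθ : ∀ y, 1 < |y| → θ y = 0
  zρ : ∀ y, 1 < |y| → ρ y = 0
  eφ : ∀ y, φ (-y) = φ y
  dθ : ∀ y, θ y = y * φ y
  dρ : ∀ y, y * ρ y = - φ y
  oρ : ∀ y, ρ (-y) = - ρ y
  iφ : ∫ y, φ y = 1

lemma hcs_of_zero {k : ℝ → ℝ} (h : ∀ y, 1 < |y| → k y = 0) : HasCompactSupport k := by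
  refine HasCompactSupport.intro (isCompact_Icc (a := (-1:ℝ)) (b := 1)) fun x hx => h x ?_
  by_contra hcon
  push Not at hcon
  exact hx (abs_le.1 hcon)

lemma deriv_zero_of_zero {k : ℝ → ℝ} (h : ∀ y, 1 < |y| → k y = 0) :
    ∀ y, 1 < |y| → deriv k y = 0 := by
  intro y hy
  have hev : k =ᶠ[𝓝 y] fun _ => (0:ℝ) := by
    have : {z : ℝ | 1 < |z|} ∈ 𝓝 y := (isOpen_lt continuous_const continuous_abs).mem_nhds hy
    filter_upwards [this] with z hz
    exact h z hz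
  rw [hev.deriv_eq]
  simp

lemma smooth_deriv {k : ℝ → ℝ} (h : ContDiff ℝ ∞ k) : ContDiff ℝ ∞ (deriv k) := by
  exact (contDiff_infty_iff_deriv.1 h).2

lemma integral_deriv_zero {k : ℝ → ℝ} (h : ContDiff ℝ ∞ k) (h0 : ∀ y, 1 < |y| → k y = 0) :
    ∫ y, deriv k y = 0 := by
  have h1 : ∀ x, HasDerivAt k (deriv k x) x := fun x =>
    ((h.differentiable (by simp)) x).hasDerivAt
  refine integral_eq_zero_of_hasDerivAt_of_integrable h1 ?_ ?_
  · exact (smooth_deriv h).continuous.integrable_of_hasCompactSupport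
      (hcs_of_zero (deriv_zero_of_zero h0))
  · exact h.continuous.integrable_of_hasCompactSupport (hcs_of_zero h0)

variable {F : ℝ → ℝ} {N : Set ℝ} {Cz : ℝ} {φ θ ρ : ℝ → ℝ}

lemma Dat.k1 (d : Dat F N Cz φ θ ρ) :
    deriv (deriv θ) = fun y => 2 * deriv φ y + y * deriv (deriv φ) y := by
  have hφ1 : ∀ y, HasDerivAt φ (deriv φ y) y := fun y =>
    ((d.sφ.differentiable (by simp)) y).hasDerivAt
  have hφ2 : ∀ y, HasDerivAt (deriv φ) (deriv (deriv φ) y) y := fun y =>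
    (((smooth_deriv d.sφ).differentiable (by simp)) y).hasDerivAt
  have e1 : θ = fun y => y * φ y := funext d.dθ
  have e2 : deriv θ = fun y => φ y + y * deriv φ y := by
    funext y
    rw [e1]
    have := (hasDerivAt_id y).mul (hφ1 y)
    simp only [id, one_mul] at this
    exact this.deriv
  rw [e2]
  funext y
  have h3 := (hφ1 y).add ((hasDerivAt_id y).mul (hφ2 y))
  simp only [id, one_mul] at h3
  have h4 : deriv (fun y => φ y + y * deriv φ y) y = deriv φ y + (deriv φ y + y * deriv (deriv φ) y) :=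
    h3.deriv
  rw [h4]
  ring

lemma Dat.k3 (d : Dat F N Cz φ θ ρ) : ∀ y, deriv φ y = -(ρ y + y * deriv ρ y) := by
  have hρ1 : ∀ y, HasDerivAt ρ (deriv ρ y) y := fun y =>
    ((d.sρ.differentiable (by simp)) y).hasDerivAt
  intro y
  have e1 : φ = fun y => -(y * ρ y) := by
    funext z
    rw [d.dρ z]; ring
  have h := ((hasDerivAt_id y).mul (hρ1 y)).neg
  simp only [id, one_mul] at h
  have h4 : deriv (fun y => -(y * ρ y)) y = -(ρ y + y * deriv ρ y) := h.deriv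
  conv_lhs => rw [e1]
  exact h4

lemma Dat.k2 (d : Dat F N Cz φ θ ρ) :
    (fun y => 2 * deriv ρ y + y * deriv (deriv ρ) y) = fun y => - deriv (deriv φ) y := by
  have hρ1 : ∀ y, HasDerivAt ρ (deriv ρ y) y := fun y =>
    ((d.sρ.differentiable (by simp)) y).hasDerivAt
  have hρ2 : ∀ y, HasDerivAt (deriv ρ) (deriv (deriv ρ) y) y := fun y =>
    (((smooth_deriv d.sρ).differentiable (by simp)) y).hasDerivAt
  funext y
  have e1 : deriv φ = fun y => -(ρ y + y * deriv ρ y) := funext d.k3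
  have h := ((hρ1 y).add ((hasDerivAt_id y).mul (hρ2 y))).neg
  simp only [id, one_mul] at h
  have h4 : deriv (fun y => -(ρ y + y * deriv ρ y)) y =
      -(deriv ρ y + (deriv ρ y + y * deriv (deriv ρ) y)) := h.deriv
  conv_rhs => rw [e1, h4]
  ring

lemma cut_inv_continuous {c : ℝ → ℝ} (hc : Continuous c) {δ : ℝ} (hδ : 0 < δ)
    (hc0 : ∀ t, |t| ≤ δ → c t = 0) : Continuous (fun t => c t * t⁻¹) := by
  rw [continuous_iff_continuousAt]
  intro t
  by_cases ht : t = 0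
  · have hev : (fun t => c t * t⁻¹) =ᶠ[𝓝 t] fun _ => (0:ℝ) := by
      have : {z : ℝ | |z| < δ} ∈ 𝓝 t := by
        refine (isOpen_lt continuous_abs continuous_const).mem_nhds ?_
        simp [ht, hδ]
      filter_upwards [this] with z hz
      rw [hc0 z (le_of_lt hz), zero_mul]
    exact continuousAt_const.congr hev.symm
  · exact hc.continuousAt.mul (continuousAt_inv₀ ht)

lemma cutQ_int (m : ℕ) {F k c : ℝ → ℝ} (hF : Continuous F) (hk : ContDiff ℝ ∞ k)
    (hks : HasCompactSupport k) (hc : Continuous c) {δ : ℝ} (hδ : 0 < δ)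
    (hc0 : ∀ t, |t| ≤ δ → c t = 0) {G : Rn (m + 2) → ℂ} (hG : Continuous G)
    (hGs : HasCompactSupport G) :
    Integrable (fun x : Rn (m + 2) => ((c (x 0) * Q F k (x 0) (x 1) : ℝ) : ℂ) * G x) := by
  refine Continuous.integrable_of_hasCompactSupport ?_ hGs.mul_left
  exact (Complex.continuous_ofReal.comp
    (cutQ_continuous Q_continuousOn m F k c hF hk hks hc δ hδ hc0)).mul hG

lemma deriv_cut_zero {c : ℝ → ℝ} {δ : ℝ} (hδ : 0 < δ) (hc0 : ∀ t, |t| ≤ δ → c t = 0) :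
    ∀ t, |t| ≤ δ / 2 → deriv c t = 0 := fun t ht => deriv_cut hδ hc0 t ht

section P

variable (d : Dat F N Cz φ θ ρ) (m : ℕ) {c : ℝ → ℝ} (hc : ContDiff ℝ ∞ c) {δ : ℝ} (hδ : 0 < δ)
  (hc0 : ∀ t, |t| ≤ δ → c t = 0) {G : Rn (m + 2) → ℂ} (hG : ContDiff ℝ ∞ G)
  (hGs : HasCompactSupport G)

include d hc hδ hc0 hG hGs

lemma P1 : ∫ x, ((c (x 0) * Q F (deriv φ) (x 0) (x 1) : ℝ) : ℂ) * pd 0 G x =
    - (∫ x, ((c (x 0) * Q F (deriv θ) (x 0) (x 1) : ℝ) : ℂ) * pd 1 G x)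
    - (∫ x, ((deriv c (x 0) * Q F (deriv φ) (x 0) (x 1) : ℝ) : ℂ) * G x) := by
  have sφ' := smooth_deriv d.sφ
  have sφ'' := smooth_deriv sφ'
  have sθ' := smooth_deriv d.sθ
  have cφ' : HasCompactSupport (deriv φ) := hcs_of_zero (deriv_zero_of_zero d.zφ)
  have cθ' : HasCompactSupport (deriv θ) := hcs_of_zero (deriv_zero_of_zero d.zθ)
  have cθ'' : HasCompactSupport (deriv (deriv θ)) :=
    hcs_of_zero (deriv_zero_of_zero (deriv_zero_of_zero d.zθ))
  rw [ibp_zero Q_hasDerivAt_s Q_continuousOn m F (deriv φ) c d.cF sφ' cφ' hc δ hδ hc0 G hG hGs,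
    ibp_one Q_hasDerivAt_x Q_continuousOn m F (deriv θ) c d.cF sθ' cθ' hc δ hδ hc0 G hG hGs,
    ← d.k1]
  have i1 := cutQ_int m d.cF sφ' cφ' (smooth_deriv hc).continuous (half_pos hδ)
    (deriv_cut_zero hδ hc0) hG.continuous hGs
  have hc2 := cut_inv_continuous hc.continuous hδ hc0
  have hc20 : ∀ t, |t| ≤ δ → (fun t => c t * t⁻¹) t = 0 := fun t ht => by simp [hc0 t ht]
  have i2 := cutQ_int m d.cF (smooth_deriv sθ') cθ'' hc2 hδ hc20 hG.continuous hGs
  have i2' : Integrable (fun x : Rn (m + 2) =>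
      ((c (x 0) * ((x 0)⁻¹ * Q F (deriv (deriv θ)) (x 0) (x 1)) : ℝ) : ℂ) * G x) := by
    refine i2.congr (Eventually.of_forall fun x => ?_)
    simp only [mul_assoc]
  have e : ∀ x : Rn (m + 2), ((deriv c (x 0) * Q F (deriv φ) (x 0) (x 1) -
        c (x 0) * ((x 0)⁻¹ * Q F (deriv (deriv θ)) (x 0) (x 1)) : ℝ) : ℂ) * G x =
      ((deriv c (x 0) * Q F (deriv φ) (x 0) (x 1) : ℝ) : ℂ) * G x -
      ((c (x 0) * ((x 0)⁻¹ * Q F (deriv (deriv θ)) (x 0) (x 1)) : ℝ) : ℂ) * G x := by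
    intro x
    rw [Complex.ofReal_sub, sub_mul]
  simp_rw [e]
  rw [integral_sub i1 i2']
  ring

lemma P2 : ∫ x, ((c (x 0) * Q F (deriv φ) (x 0) (x 1) : ℝ) : ℂ) * pd 1 G x =
    (∫ x, ((c (x 0) * Q F (deriv ρ) (x 0) (x 1) : ℝ) : ℂ) * pd 0 G x)
    + (∫ x, ((deriv c (x 0) * Q F (deriv ρ) (x 0) (x 1) : ℝ) : ℂ) * G x) := by
  have sφ' := smooth_deriv d.sφ
  have sρ' := smooth_deriv d.sρ
  have cφ' : HasCompactSupport (deriv φ) := hcs_of_zero (deriv_zero_of_zero d.zφ)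
  have cρ' : HasCompactSupport (deriv ρ) := hcs_of_zero (deriv_zero_of_zero d.zρ)
  have cφ'' : HasCompactSupport (deriv (deriv φ)) :=
    hcs_of_zero (deriv_zero_of_zero (deriv_zero_of_zero d.zφ))
  rw [ibp_zero Q_hasDerivAt_s Q_continuousOn m F (deriv ρ) c d.cF sρ' cρ' hc δ hδ hc0 G hG hGs,
    ibp_one Q_hasDerivAt_x Q_continuousOn m F (deriv φ) c d.cF sφ' cφ' hc δ hδ hc0 G hG hGs,
    d.k2]
  have hneg : ∀ s x, Q F (fun y => - deriv (deriv φ) y) s x = - Q F (deriv (deriv φ)) s x := by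
    intro s x
    unfold Q
    have : ∀ z, - deriv (deriv φ) ((x - z) / s) * F z = -(deriv (deriv φ) ((x - z) / s) * F z) := by
      intro z; ring
    simp_rw [this]
    rw [integral_neg]
    ring
  have i1 := cutQ_int m d.cF sρ' cρ' (smooth_deriv hc).continuous (half_pos hδ)
    (deriv_cut_zero hδ hc0) hG.continuous hGs
  have hc2 := cut_inv_continuous hc.continuous hδ hc0
  have hc20 : ∀ t, |t| ≤ δ → (fun t => c t * t⁻¹) t = 0 := fun t ht => by simp [hc0 t ht]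
  have i2 := cutQ_int m d.cF (smooth_deriv sφ') cφ'' hc2 hδ hc20 hG.continuous hGs
  have i2' : Integrable (fun x : Rn (m + 2) =>
      ((c (x 0) * ((x 0)⁻¹ * Q F (deriv (deriv φ)) (x 0) (x 1)) : ℝ) : ℂ) * G x) := by
    refine i2.congr (Eventually.of_forall fun x => ?_)
    simp only [mul_assoc]
  have e : ∀ x : Rn (m + 2), ((deriv c (x 0) * Q F (deriv ρ) (x 0) (x 1) -
        c (x 0) * ((x 0)⁻¹ * Q F (fun y => - deriv (deriv φ) y) (x 0) (x 1)) : ℝ) : ℂ) * G x =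
      ((deriv c (x 0) * Q F (deriv ρ) (x 0) (x 1) : ℝ) : ℂ) * G x +
      ((c (x 0) * ((x 0)⁻¹ * Q F (deriv (deriv φ)) (x 0) (x 1)) : ℝ) : ℂ) * G x := by
    intro x
    rw [hneg, ← add_mul, ← Complex.ofReal_add]
    congr 2
    ring
  simp_rw [e]
  rw [integral_add i1 i2']
  ring

lemma P3 : ∫ x, ((c (x 0) * Q F (deriv φ) (x 0) (x 1) : ℝ) : ℂ) * G x =
    - (∫ x, (((fun t => c t * t) (x 0) * Q F ρ (x 0) (x 1) : ℝ) : ℂ) * pd 0 G x)
    - (∫ x, (((fun t => deriv c t * t) (x 0) * Q F ρ (x 0) (x 1) : ℝ) : ℂ) * G x) := by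
  have sφ' := smooth_deriv d.sφ
  have sρ' := smooth_deriv d.sρ
  have cφ' : HasCompactSupport (deriv φ) := hcs_of_zero (deriv_zero_of_zero d.zφ)
  have cρ : HasCompactSupport ρ := hcs_of_zero d.zρ
  have cρ' : HasCompactSupport (deriv ρ) := hcs_of_zero (deriv_zero_of_zero d.zρ)
  have hc1 : ContDiff ℝ ∞ (fun t => c t * t) := hc.mul contDiff_id
  have hc10 : ∀ t, |t| ≤ δ → (fun t => c t * t) t = 0 := fun t ht => by simp [hc0 t ht]
  have hcd : ∀ t, HasDerivAt c (deriv c t) t := fun t =>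
    ((hc.differentiable (by simp)) t).hasDerivAt
  have hd1 : ∀ t, deriv (fun t => c t * t) t = deriv c t * t + c t := by
    intro t
    have := (hcd t).mul (hasDerivAt_id t)
    simp only [id, mul_one] at this
    exact this.deriv
  rw [ibp_zero Q_hasDerivAt_s Q_continuousOn m F ρ (fun t => c t * t) d.cF d.sρ cρ hc1 δ hδ hc10
    G hG hGs]
  have hlin : ∀ s x, s ≠ 0 → Q F (fun y => 2 * ρ y + y * deriv ρ y) s x =
      Q F ρ s x - Q F (deriv φ) s x := by
    intro s x hs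
    unfold Q
    have e1 : ∀ z, (2 * ρ ((x - z) / s) + ((x - z) / s) * deriv ρ ((x - z) / s)) * F z =
        ρ ((x - z) / s) * F z - deriv φ ((x - z) / s) * F z := by
      intro z
      rw [d.k3]
      ring
    simp_rw [e1]
    have hcomp : ∀ k : ℝ → ℝ, Continuous k → (∀ y, 1 < |y| → k y = 0) →
        Integrable (fun z => k ((x - z) / s) * F z) := by
      intro k hk hk0
      refine Continuous.integrable_of_hasCompactSupport
        ((hk.comp ((continuous_const.sub continuous_id).div_const s)).mul d.cF) ?_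
      refine HasCompactSupport.mul_right ?_
      refine HasCompactSupport.intro (isCompact_Icc (a := x - |s|) (b := x + |s|)) fun z hz =>
        hk0 _ ?_
      by_contra hcon
      push Not at hcon
      rw [abs_div, div_le_one (abs_pos.2 hs), abs_le] at hcon
      exact hz ⟨by linarith [hcon.2], by linarith [hcon.1]⟩
    rw [integral_sub (hcomp ρ d.sρ.continuous d.zρ)
      (hcomp (deriv φ) sφ'.continuous (deriv_zero_of_zero d.zφ))]
    ring
  have hcd' : Continuous (fun t => deriv c t * t) := (smooth_deriv hc).continuous.mul continuous_id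
  have hcd0 : ∀ t, |t| ≤ δ / 2 → (fun t => deriv c t * t) t = 0 := fun t ht => by
    simp [deriv_cut_zero hδ hc0 t ht]
  have i1 := cutQ_int m d.cF d.sρ cρ hcd' (half_pos hδ) hcd0 hG.continuous hGs
  have i2 := cutQ_int m d.cF sφ' cφ' hc.continuous hδ hc0 hG.continuous hGs
  have e : ∀ x : Rn (m + 2), ((deriv (fun t => c t * t) (x 0) * Q F ρ (x 0) (x 1) -
        (fun t => c t * t) (x 0) * ((x 0)⁻¹ * Q F (fun y => 2 * ρ y + y * deriv ρ y) (x 0) (x 1)) : ℝ) : ℂ)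
          * G x =
      (((fun t => deriv c t * t) (x 0) * Q F ρ (x 0) (x 1) : ℝ) : ℂ) * G x +
      ((c (x 0) * Q F (deriv φ) (x 0) (x 1) : ℝ) : ℂ) * G x := by
    intro x
    rw [← add_mul, ← Complex.ofReal_add]
    congr 2
    rw [hd1]
    by_cases hx : x 0 = 0
    · have h1 : c (x 0) = 0 := hc0 _ (by rw [hx]; simpa using hδ.le)
      simp [h1]
    · rw [hlin _ _ hx]
      field_simp
      ring
  simp_rw [e]
  rw [integral_add i1 i2]
  ring

end P

end Pool.Agent.Helper960.Rou
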