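import Pool.Agent.Helper960.Rou.Defs

open MeasureTheory Filter Topology
open scoped ContDiff

namespace Pool.Agent.Helper960.Rou

variable {n : ℕ}

lemma integrable_mul_test {f : Rn n → ℂ} (hf : LocallyIntegrable f volume) {φ : Rn n → ℂ}
    (hφ : Continuous φ) (hc : HasCompactSupport φ) : Integrable (fun x => f x * φ x) := by
  have h := hf.integrable_smul_left_of_hasCompactSupport hφ hc
  refine h.congr (Eventually.of_forall fun x => ?_)
  simp [mul_comm]

lemma integrable_mul_D {f : Rn n → ℂ} (hf : LocallyIntegrable f volume) (l : List (Fin n))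
    {φ : Rn n → ℂ} (hφ : ContDiff ℝ ∞ φ) (hc : HasCompactSupport φ) :
    Integrable (fun x => f x * D l φ x) :=
  integrable_mul_test hf (contDiff_D l hφ).continuous (hcs_D l hc)

lemma IsWeakD.add {l : List (Fin n)} {f₁ f₂ g₁ g₂ : Rn n → ℂ} (hf₁ : LocallyIntegrable f₁ volume)
    (hf₂ : LocallyIntegrable f₂ volume) (hg₁ : LocallyIntegrable g₁ volume)
    (hg₂ : LocallyIntegrable g₂ volume) (h₁ : IsWeakD l f₁ g₁) (h₂ : IsWeakD l f₂ g₂) :
    IsWeakD l (f₁ + f₂) (g₁ + g₂) := by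
  intro φ hφ hc
  have e1 : ∀ x, (f₁ + f₂) x * D l φ x = f₁ x * D l φ x + f₂ x * D l φ x := by
    intro x; simp [add_mul]
  have e2 : ∀ x, (g₁ + g₂) x * φ x = g₁ x * φ x + g₂ x * φ x := by
    intro x; simp [add_mul]
  simp_rw [e1, e2]
  rw [integral_add (integrable_mul_D hf₁ l hφ hc) (integrable_mul_D hf₂ l hφ hc),
    integral_add (integrable_mul_test hg₁ hφ.continuous hc)
      (integrable_mul_test hg₂ hφ.continuous hc), h₁ φ hφ hc, h₂ φ hφ hc]
  ring

lemma IsWeakD.smul {l : List (Fin n)} {f g : Rn n → ℂ} (c : ℂ) (h : IsWeakD l f g) :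
    IsWeakD l (c • f) (c • g) := by
  intro φ hφ hc
  have e1 : ∀ x, (c • f) x * D l φ x = c * (f x * D l φ x) := by
    intro x; simp [mul_assoc]
  have e2 : ∀ x, (c • g) x * φ x = c * (g x * φ x) := by
    intro x; simp [mul_assoc]
  simp_rw [e1, e2]
  rw [integral_const_mul, integral_const_mul, h φ hφ hc]
  ring

/-- local uniqueness of weak derivatives -/
lemma weakD_ae_eq_on {l : List (Fin n)} {f₁ f₂ g₁ g₂ : Rn n → ℂ} {U : Set (Rn n)} (hU : IsOpen U)
    (hg₁ : LocallyIntegrable g₁ volume) (hg₂ : LocallyIntegrable g₂ volume)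
    (hf : ∀ x ∈ U, f₁ x = f₂ x) (h₁ : IsWeakD l f₁ g₁) (h₂ : IsWeakD l f₂ g₂) :
    ∀ᵐ x, x ∈ U → g₁ x = g₂ x := by
  have h := hU.ae_eq_zero_of_integral_contDiff_smul_eq_zero (μ := volume) (f := g₁ - g₂)
    ((hg₁.sub hg₂).locallyIntegrableOn U) ?_
  · filter_upwards [h] with x hx hxU
    exact sub_eq_zero.1 (hx hxU)
  · intro φ hφ hc hs
    set ψ : Rn n → ℂ := fun x => (φ x : ℂ) with hψ
    have hψ1 : ContDiff ℝ ∞ ψ := Complex.ofRealCLM.contDiff.comp hφ
    have hψ2 : HasCompactSupport ψ := hc.comp_left (g := fun t : ℝ => (t : ℂ)) (by simp)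
    have hψs : tsupport ψ ⊆ U := by
      refine subset_trans ?_ hs
      exact closure_mono (Function.support_comp_subset (g := fun t : ℝ => (t : ℂ)) (by simp) φ)
    have e1 := h₁ ψ hψ1 hψ2
    have e2 := h₂ ψ hψ1 hψ2
    have hDs : ∀ l : List (Fin n), ∀ x, x ∉ tsupport ψ → D l ψ x = 0 := by
      intro l
      induction l with
      | nil => intro x hx; exact image_eq_zero_of_notMem_tsupport hx
      | cons i l ih =>
        intro x hx
        have hev : D l ψ =ᶠ[𝓝 x] fun _ => (0:ℂ) := by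
          filter_upwards [(isClosed_tsupport ψ).isOpen_compl.mem_nhds hx] with y hy
          exact ih y hy
        show fderiv ℝ (D l ψ) x (Pi.single i 1) = 0
        rw [hev.fderiv_eq]
        simp
    have e3 : ∫ x, f₁ x * D l ψ x = ∫ x, f₂ x * D l ψ x := by
      congr 1
      funext x
      by_cases hx : x ∈ U
      · rw [hf x hx]
      · rw [hDs l x (fun h => hx (hψs h))]; simp
    have e4 : ∫ x, g₁ x * ψ x = ∫ x, g₂ x * ψ x := by
      have h5 : ((-1 : ℂ)) ^ l.length * ∫ x, g₁ x * ψ x = (-1) ^ l.length * ∫ x, g₂ x * ψ x := by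
        rw [← e1, ← e2, e3]
      exact mul_left_cancel₀ (pow_ne_zero _ (by norm_num)) h5
    have e5 : ∀ x, φ x • (g₁ - g₂) x = g₁ x * ψ x - g₂ x * ψ x := by
      intro x
      simp only [hψ, Pi.sub_apply, Complex.real_smul]
      ring
    simp_rw [e5]
    rw [integral_sub (integrable_mul_test hg₁ hψ1.continuous hψ2)
      (integrable_mul_test hg₂ hψ1.continuous hψ2), e4, sub_self]

lemma weakD_ae_eq {l : List (Fin n)} {f g₁ g₂ : Rn n → ℂ}
    (hg₁ : LocallyIntegrable g₁ volume) (hg₂ : LocallyIntegrable g₂ volume)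
    (h₁ : IsWeakD l f g₁) (h₂ : IsWeakD l f g₂) :
    g₁ =ᵐ[volume] g₂ := by
  filter_upwards [weakD_ae_eq_on isOpen_univ hg₁ hg₂ (fun _ _ => rfl) h₁ h₂] with x hx
  exact hx (Set.mem_univ _)

/-- the functions of class `W^{s,1}_loc` -/
def Wsub (n s : ℕ) : Submodule ℂ (Rn n → ℂ) where
  carrier := {f | LocallyIntegrable f volume ∧ ∀ l : List (Fin n), l.length ≤ s →
    ∃ g : Rn n → ℂ, LocallyIntegrable g volume ∧ IsWeakD l f g}
  add_mem' := by
    intro f₁ f₂ h₁ h₂
    refine ⟨h₁.1.add h₂.1, fun l hl => ?_⟩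
    obtain ⟨g₁, hg₁, hw₁⟩ := h₁.2 l hl
    obtain ⟨g₂, hg₂, hw₂⟩ := h₂.2 l hl
    exact ⟨g₁ + g₂, hg₁.add hg₂, IsWeakD.add h₁.1 h₂.1 hg₁ hg₂ hw₁ hw₂⟩
  zero_mem' := by
    refine ⟨locallyIntegrable_zero, fun l _ => ⟨0, locallyIntegrable_zero, ?_⟩⟩
    intro φ _ _
    simp
  smul_mem' := by
    intro c f h
    refine ⟨h.1.smul c, fun l hl => ?_⟩
    obtain ⟨g, hg, hw⟩ := h.2 l hl
    exact ⟨c • g, hg.smul c, hw.smul c⟩

/-- the space `W^{s,1}_loc` (functions, not yet identified almost everywhere) -/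
def WSp (n s : ℕ) : Type := ↥(Wsub n s)

instance (n s : ℕ) : AddCommGroup (WSp n s) := inferInstanceAs (AddCommGroup ↥(Wsub n s))

instance (n s : ℕ) : Module ℂ (WSp n s) := inferInstanceAs (Module ℂ ↥(Wsub n s))

/-- the underlying function -/
def WSp.fn {n s : ℕ} (f : WSp n s) : Rn n → ℂ := f.1

/-- the weak derivative `D^l f` (unique up to null sets), for words `l` of length at most `s` -/
noncomputable def wD {n s : ℕ} (l : List (Fin n)) (f : WSp n s) : Rn n → ℂ :=
  open Classical in if h : l.length ≤ s then (f.2.2 l h).choose else 0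

variable {s : ℕ}

lemma WSp.fn_add (f g : WSp n s) : (f + g).fn = f.fn + g.fn := rfl

lemma WSp.fn_smul (c : ℂ) (f : WSp n s) : (c • f).fn = c • f.fn := rfl

lemma wD_locInt (l : List (Fin n)) (f : WSp n s) : LocallyIntegrable (wD l f) volume := by
  unfold wD
  split_ifs with h
  · exact (f.2.2 l h).choose_spec.1
  · exact locallyIntegrable_zero

lemma wD_spec {l : List (Fin n)} (h : l.length ≤ s) (f : WSp n s) : IsWeakD l f.fn (wD l f) := by
  unfold wD
  rw [dif_pos h]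
  exact (f.2.2 l h).choose_spec.2

lemma wD_unique {l : List (Fin n)} (h : l.length ≤ s) (f : WSp n s) {g : Rn n → ℂ}
    (hg : LocallyIntegrable g volume) (hw : IsWeakD l f.fn g) : wD l f =ᵐ[volume] g :=
  weakD_ae_eq (wD_locInt l f) hg (wD_spec h f) hw

lemma wD_add (l : List (Fin n)) (f g : WSp n s) : wD l (f + g) =ᵐ[volume] wD l f + wD l g := by
  by_cases h : l.length ≤ s
  · exact wD_unique h _ ((wD_locInt l f).add (wD_locInt l g))
      (IsWeakD.add f.2.1 g.2.1 (wD_locInt l f) (wD_locInt l g) (wD_spec h f) (wD_spec h g))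
  · simp [wD, h]

lemma wD_smul (l : List (Fin n)) (c : ℂ) (f : WSp n s) : wD l (c • f) =ᵐ[volume] c • wD l f := by
  by_cases h : l.length ≤ s
  · exact wD_unique h _ ((wD_locInt l f).smul c) ((wD_spec h f).smul c)
  · simp [wD, h]

lemma wD_intOn (l : List (Fin n)) (f : WSp n s) (R : ℝ) :
    IntegrableOn (wD l f) (Metric.closedBall 0 R) :=
  (wD_locInt l f).integrableOn_isCompact (isCompact_closedBall 0 R)

/-- the seminorm `∫_{|x| ≤ R} |D^l f|` -/
noncomputable def sn (n s : ℕ) : SeminormFamily ℂ (WSp n s) (List (Fin n) × ℕ) := fun i =>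
  Seminorm.of (fun f => ∫ x in Metric.closedBall (0 : Rn n) i.2, ‖wD i.1 f x‖)
    (by
      intro f g
      have h1 := (wD_intOn i.1 f i.2).norm
      have h2 := (wD_intOn i.1 g i.2).norm
      have h3 : ∫ x in Metric.closedBall (0 : Rn n) i.2, ‖wD i.1 (f + g) x‖ ≤
          ∫ x in Metric.closedBall (0 : Rn n) i.2, (‖wD i.1 f x‖ + ‖wD i.1 g x‖) := by
        refine integral_mono_ae (wD_intOn i.1 (f + g) i.2).norm (h1.add h2) ?_
        filter_upwards [ae_restrict_of_ae (wD_add i.1 f g)] with x hx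
        rw [hx]
        exact norm_add_le _ _
      refine h3.trans (le_of_eq ?_)
      exact integral_add h1 h2)
    (by
      intro c f
      have h3 : ∫ x in Metric.closedBall (0 : Rn n) i.2, ‖wD i.1 (c • f) x‖ =
          ∫ x in Metric.closedBall (0 : Rn n) i.2, ‖c‖ * ‖wD i.1 f x‖ := by
        refine integral_congr_ae ?_
        filter_upwards [ae_restrict_of_ae (wD_smul i.1 c f)] with x hx
        rw [hx]
        simp
      rw [h3, integral_const_mul])

/-- the Fréchet topology of `W^{s,1}_loc`, given by the seminorms `∫_{|x| ≤ R} |D^l f|`, `|l| ≤ s` -/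
noncomputable instance (n s : ℕ) : TopologicalSpace (WSp n s) :=
  (sn n s).moduleFilterBasis.topology

lemma withSeminorms_sn (n s : ℕ) : WithSeminorms (sn n s) := ⟨rfl⟩

variable {p : ℕ}

/-- the operator `P = ∑_a c_a ∂_{a_1} ⋯ ∂_{a_p}` -/
noncomputable def opP (c : (Fin p → Fin n) → ℂ) (f : Rn n → ℂ) : Rn n → ℂ :=
  fun x => ∑ a : Fin p → Fin n, c a * D (List.ofFn a) f x

/-- ellipticity -/
def Elliptic (c : (Fin p → Fin n) → ℂ) : Prop :=
  ∀ ξ : Rn n, ξ ≠ 0 → ∑ a : Fin p → Fin n, c a * ∏ j, (ξ (a j) : ℂ) ≠ 0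

/-- functions of class `W^{s,1}_loc` with `D^l f = 0` a.e. on `K` for all `|l| ≤ s` -/
noncomputable def NK (n s : ℕ) (K : Set (Rn n)) : Submodule ℂ (WSp n s) where
  carrier := {f | ∀ l : List (Fin n), l.length ≤ s → ∀ᵐ x, x ∈ K → wD l f x = 0}
  add_mem' := by
    intro f g hf hg l hl
    filter_upwards [hf l hl, hg l hl, wD_add l f g] with x h1 h2 h3 hx
    rw [h3, Pi.add_apply, h1 hx, h2 hx, add_zero]
  zero_mem' := by
    intro l hl
    have h : wD l (0 : WSp n s) =ᵐ[volume] 0 := by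
      have := wD_smul l (0:ℂ) (0 : WSp n s)
      simpa using this
    filter_upwards [h] with x hx _
    rw [hx]; rfl
  smul_mem' := by
    intro c f hf l hl
    filter_upwards [hf l hl, wD_smul l c f] with x h1 h3 hx
    rw [h3, Pi.smul_apply, h1 hx, smul_zero]

/-- the space `W^{s,1}(K)` with the quotient topology -/
abbrev WK (n s : ℕ) (K : Set (Rn n)) := WSp n s ⧸ NK n s K

/-- the image of `S(K)` in `W^{s,1}(K)` -/
def SK (c : (Fin p → Fin n) → ℂ) (s : ℕ) (K : Set (Rn n)) : Set (WK n s K) :=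
  {r | ∃ v : WSp n s, (Submodule.Quotient.mk v : WK n s K) = r ∧ ∃ U : Set (Rn n), IsOpen U ∧ K ⊆ U ∧
    ContDiffOn ℝ ∞ v.fn U ∧ ∀ x ∈ U, opP c v.fn x = 0}

/-- the set `R^s(K)` of classes satisfying the rough conditions -/
def RK (c : (Fin p → Fin n) → ℂ) (s : ℕ) (K : Set (Rn n)) : Set (WK n s K) :=
  {r | ∃ f : WSp n s, (Submodule.Quotient.mk f : WK n s K) = r ∧
    (∃ g : Rn n → ℂ, ContDiffOn ℝ ∞ g (interior K) ∧ (∀ x ∈ interior K, opP c g x = 0) ∧
      ∀ᵐ x, x ∈ interior K → f.fn x = g x) ∧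
    ∀ l : List (Fin n), l.length + p ≤ s →
      ∀ᵐ x, x ∈ K → ∑ a : Fin p → Fin n, c a * wD (l ++ List.ofFn a) f x = 0}

/-- `K` has the rough property in `W^{s,1}`: the closure of `S(K)` is `R^s(K)` -/
def RoughProperty (c : (Fin p → Fin n) → ℂ) (s : ℕ) (K : Set (Rn n)) : Prop :=
  closure (SK c s K) = RK c s K

end Pool.Agent.Helper960.Rou
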