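import Mathlib

open MeasureTheory

set_option linter.unusedVariables false

namespace Pool.Agent.Helper960.Rou.Zyg

/-- absorption probability recursion -/
noncomputable def act : ℕ → ℕ → ℝ
  | 0, w => if w = 0 then 0 else 1
  | m + 1, w => if w = 0 then 0 else (1/2) * act m w + (1/4) * act m (w + 1) + (1/4) * act m (w - 1)

theorem act_le_one (m w : ℕ) : act m w ≤ 1 := by
  induction m generalizing w with
  | zero => simp only [act]; split_ifs <;> norm_num
  | succ m ih =>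
    simp only [act]
    split_ifs
    · norm_num
    · linarith [ih w, ih (w + 1), ih (w - 1)]

theorem act_le (L : ℕ) (hL : 1 ≤ L) (m w : ℕ) :
    act m w ≤ (w : ℝ) / L + (1 - 1 / (2 * (L : ℝ) ^ 2)) ^ m * max 0 ((w : ℝ) * (2 * L - w)) := by
  have hL' : (1 : ℝ) ≤ L := by exact_mod_cast hL
  have hL0 : (0 : ℝ) < L := by linarith
  have hlam0 : (0 : ℝ) ≤ 1 - 1 / (2 * (L : ℝ) ^ 2) := by
    rw [sub_nonneg, div_le_one (by positivity)]
    nlinarith
  set lam : ℝ := 1 - 1 / (2 * (L : ℝ) ^ 2) with hlam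
  have hbig : ∀ (m w : ℕ), L ≤ w → act m w ≤ (w : ℝ) / L + lam ^ m * max 0 ((w : ℝ) * (2 * L - w)) := by
    intro m w hw
    have h1 : (1 : ℝ) ≤ (w : ℝ) / L := by
      rw [le_div_iff₀ hL0, one_mul]; exact_mod_cast hw
    have h2 : 0 ≤ lam ^ m * max 0 ((w : ℝ) * (2 * L - w)) :=
      mul_nonneg (pow_nonneg hlam0 m) (le_max_left _ _)
    linarith [act_le_one m w]
  induction m generalizing w with
  | zero =>
    by_cases hw : L ≤ w
    · exact hbig 0 w hw
    · push Not at hw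
      have hw' : (w : ℝ) + 1 ≤ L := by exact_mod_cast hw
      simp only [act]
      split_ifs with h0
      · positivity
      · have hw1 : (1 : ℝ) ≤ w := by exact_mod_cast Nat.one_le_iff_ne_zero.2 h0
        have h1 : (1 : ℝ) ≤ (w : ℝ) * (2 * L - w) := by nlinarith
        have h2 := le_max_right 0 ((w : ℝ) * (2 * L - w))
        have h3 : 0 ≤ (w : ℝ) / L := by positivity
        rw [pow_zero, one_mul]
        linarith
  | succ m ih =>
    by_cases hw : L ≤ w
    · exact hbig (m + 1) w hw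
    · push Not at hw
      have hw' : (w : ℝ) + 1 ≤ L := by exact_mod_cast hw
      simp only [act]
      split_ifs with h0
      · have : 0 ≤ lam ^ (m + 1) * max 0 ((w : ℝ) * (2 * L - w)) :=
          mul_nonneg (pow_nonneg hlam0 _) (le_max_left _ _)
        have h3 : 0 ≤ (w : ℝ) / L := by positivity
        linarith
      · have h1w : 1 ≤ w := Nat.one_le_iff_ne_zero.2 h0
        have hw1 : (1 : ℝ) ≤ w := by exact_mod_cast h1w
        have a1 := ih w
        have a2 := ih (w + 1)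
        have a3 := ih (w - 1)
        rw [Nat.cast_sub h1w] at a3
        push_cast at a2 a3
        rw [max_eq_right (by nlinarith)] at a1 a2 a3 ⊢
        have hs : (w : ℝ) * (2 * L - w) ≤ (L : ℝ) ^ 2 := by nlinarith [sq_nonneg ((L : ℝ) - w)]
        have hs2 : (w : ℝ) * (2 * L - w) - 1 / 2 ≤ lam * ((w : ℝ) * (2 * L - w)) := by
          have : (w : ℝ) * (2 * L - w) / (2 * (L : ℝ) ^ 2) ≤ 1 / 2 := by
            rw [div_le_iff₀ (by positivity)]; linarith
          rw [hlam]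
          have e : (1 - 1 / (2 * (L : ℝ) ^ 2)) * ((w : ℝ) * (2 * L - w)) =
            (w : ℝ) * (2 * L - w) - (w : ℝ) * (2 * L - w) / (2 * (L : ℝ) ^ 2) := by ring
          rw [e]; linarith
        have hp : 0 ≤ lam ^ m := pow_nonneg hlam0 m
        have hs3 := mul_le_mul_of_nonneg_left hs2 hp
        calc _ ≤ (1 / 2) * ((w : ℝ) / L + lam ^ m * ((w : ℝ) * (2 * L - w))) +
              (1 / 4) * (((w : ℝ) + 1) / L + lam ^ m * (((w : ℝ) + 1) * (2 * L - (w + 1)))) +
              (1 / 4) * (((w : ℝ) - 1) / L + lam ^ m * (((w : ℝ) - 1) * (2 * L - (w - 1)))) := by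
              linarith
          _ = (w : ℝ) / L + lam ^ m * ((w : ℝ) * (2 * L - w) - 1 / 2) := by ring
          _ ≤ (w : ℝ) / L + lam ^ m * (lam * ((w : ℝ) * (2 * L - w))) := by linarith
          _ = _ := by rw [pow_succ]; ring

theorem act_small (ε : ℝ) (hε : 0 < ε) : ∃ M : ℕ, ∀ m, M ≤ m → act m 1 < ε := by
  obtain ⟨L, hL⟩ := exists_nat_gt (max 1 (2 / ε))
  have hL1 : (1 : ℝ) < L := lt_of_le_of_lt (le_max_left _ _) hL
  have hL2 : 2 / ε < L := lt_of_le_of_lt (le_max_right _ _) hL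
  have hL0 : (0 : ℝ) < L := by linarith
  have hLn : 1 ≤ L := by exact_mod_cast hL1.le
  have h1 : 1 / (L : ℝ) < ε / 2 := by
    rw [div_lt_iff₀ hε] at hL2
    rw [div_lt_iff₀ hL0]; linarith
  set lam : ℝ := 1 - 1 / (2 * (L : ℝ) ^ 2) with hlam
  have hlam0 : (0 : ℝ) ≤ lam := by
    rw [hlam, sub_nonneg, div_le_one (by positivity)]
    nlinarith
  have hlam1 : lam < 1 := by
    rw [hlam]
    have : 0 < 1 / (2 * (L : ℝ) ^ 2) := by positivity
    linarith
  have hpos : (0 : ℝ) < 2 * L - 1 := by linarith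
  obtain ⟨M, hM⟩ := exists_pow_lt_of_lt_one (show 0 < ε / 2 / (2 * L - 1) by positivity) hlam1
  refine ⟨M, fun m hm => ?_⟩
  have h2 := act_le L hLn m 1
  rw [← hlam] at h2
  have h3 : lam ^ m ≤ lam ^ M := pow_le_pow_of_le_one hlam0 hlam1.le hm
  have h4 : lam ^ m < ε / 2 / (2 * L - 1) := lt_of_le_of_lt h3 hM
  rw [lt_div_iff₀ hpos] at h4
  have h5 : max 0 (((1 : ℕ) : ℝ) * (2 * L - ((1 : ℕ) : ℝ))) = 2 * L - 1 := by
    rw [max_eq_right] <;> push_cast <;> linarith
  rw [h5] at h2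
  push_cast at h2
  linarith

/-- increments of the walk: digits 0,1,2,3 give w, w+1, w-1, w -/
def step (w : ℕ) (d : ℤ) : ℕ := if w = 0 then 0 else if d = 1 then w + 1 else if d = 2 then w - 1 else w

/-- density of the measure on the level m 4-adic interval [j/4^m, (j+1)/4^m] -/
def sig : ℕ → ℤ → ℕ
  | 0, j => if j = 0 then 1 else 0
  | m + 1, j => step (sig m (j / 4)) (j % 4)

/-- level m active cells, closed -/
def Nm (m : ℕ) : Set ℝ := {x | ∃ j : ℤ, 0 < sig m j ∧ (j : ℝ) ≤ (4 : ℝ) ^ m * x ∧ (4 : ℝ) ^ m * x ≤ j + 1}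

theorem sig_support (m : ℕ) (j : ℤ) (h : 0 < sig m j) : 0 ≤ j ∧ j < 4 ^ m := by
  induction m generalizing j with
  | zero =>
    simp only [sig] at h
    split_ifs at h with hj
    · subst hj; simp
    · exact absurd h (lt_irrefl _)
  | succ m ih =>
    simp only [sig] at h
    have hw : 0 < sig m (j / 4) := by
      rcases Nat.eq_zero_or_pos (sig m (j / 4)) with h0 | h0
      · rw [h0] at h; simp [step] at h
      · exact h0
    obtain ⟨h1, h2⟩ := ih _ hw
    rw [pow_succ]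
    constructor <;> omega

theorem sig_adjacent (m : ℕ) (j : ℤ) : |(sig m (j + 1) : ℤ) - sig m j| ≤ 2 := by
  induction m generalizing j with
  | zero =>
    simp only [sig]
    split_ifs <;> simp
  | succ m ih =>
    simp only [sig]
    have hcases : j % 4 = 0 ∨ j % 4 = 1 ∨ j % 4 = 2 ∨ j % 4 = 3 := by omega
    rcases hcases with h | h | h | h
    · have e1 : (j + 1) / 4 = j / 4 := by omega
      have e2 : (j + 1) % 4 = 1 := by omega
      rw [e1, e2, h]
      simp only [step]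
      rcases Nat.eq_zero_or_pos (sig m (j / 4)) with h0 | h0
      · rw [h0]; simp
      · have : sig m (j / 4) ≠ 0 := h0.ne'
        simp [this]
    · have e1 : (j + 1) / 4 = j / 4 := by omega
      have e2 : (j + 1) % 4 = 2 := by omega
      rw [e1, e2, h]
      simp only [step]
      rcases Nat.eq_zero_or_pos (sig m (j / 4)) with h0 | h0
      · rw [h0]; simp
      · have : sig m (j / 4) ≠ 0 := h0.ne'
        simp only [this, if_false, if_true]
        norm_num
        rw [abs_le]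
        constructor <;> omega
    · have e1 : (j + 1) / 4 = j / 4 := by omega
      have e2 : (j + 1) % 4 = 3 := by omega
      rw [e1, e2, h]
      simp only [step]
      rcases Nat.eq_zero_or_pos (sig m (j / 4)) with h0 | h0
      · rw [h0]; simp
      · have : sig m (j / 4) ≠ 0 := h0.ne'
        simp only [this, if_false, if_true]
        norm_num
        rw [abs_le]
        constructor <;> omega
    · have e1 : (j + 1) / 4 = j / 4 + 1 := by omega
      have e2 : (j + 1) % 4 = 0 := by omega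
      rw [e1, e2, h]
      have h3 : ∀ w : ℕ, step w 0 = w := by
        intro w; simp only [step]; split_ifs with h1 <;> simp_all
      have h4 : ∀ w : ℕ, step w 3 = w := by
        intro w; simp only [step]; split_ifs with h1 <;> simp_all
      rw [h3, h4]
      exact ih _

theorem Nm_eq (m : ℕ) : Nm m = ⋃ j ∈ (Finset.range (4 ^ m)).filter (fun j : ℕ => 0 < sig m (j : ℤ)),
    Set.Icc ((j : ℝ) / 4 ^ m) (((j : ℝ) + 1) / 4 ^ m) := by
  have h4 : (0 : ℝ) < 4 ^ m := by positivity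
  ext x
  simp only [Nm, Set.mem_ofPred_eq, Set.mem_iUnion, Finset.mem_filter, Finset.mem_range, Set.mem_Icc,
    exists_prop]
  constructor
  · rintro ⟨j, hj, h1, h2⟩
    obtain ⟨h3, h5⟩ := sig_support m j hj
    obtain ⟨n, rfl⟩ := Int.eq_ofNat_of_zero_le h3
    refine ⟨n, ⟨by exact_mod_cast h5, hj⟩, ?_, ?_⟩
    · rw [div_le_iff₀ h4]; push_cast at h1; linarith
    · rw [le_div_iff₀ h4]; push_cast at h2; linarith
  · rintro ⟨n, ⟨h1, h2⟩, h3, h5⟩
    refine ⟨n, h2, ?_, ?_⟩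
    · rw [div_le_iff₀ h4] at h3; push_cast; linarith
    · rw [le_div_iff₀ h4] at h5; push_cast; linarith

theorem isCompact_Nm (m : ℕ) : IsCompact (Nm m) := by
  rw [Nm_eq]
  exact Finset.isCompact_biUnion _ (fun j _ => isCompact_Icc)

theorem Nm_anti (m : ℕ) : Nm (m + 1) ⊆ Nm m := by
  rintro x ⟨j, hj, h1, h2⟩
  refine ⟨j / 4, ?_, ?_, ?_⟩
  · simp only [sig] at hj
    rcases Nat.eq_zero_or_pos (sig m (j / 4)) with h0 | h0
    · rw [h0] at hj; simp [step] at hj
    · exact h0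
  · have h3 : 4 * (j / 4) ≤ j := by omega
    have h4 : (4 : ℝ) * ((j / 4 : ℤ) : ℝ) ≤ j := by exact_mod_cast h3
    rw [pow_succ] at h1
    linarith
  · have h3 : j + 1 ≤ 4 * (j / 4) + 4 := by omega
    have h4 : (j : ℝ) + 1 ≤ (4 : ℝ) * ((j / 4 : ℤ) : ℝ) + 4 := by exact_mod_cast h3
    rw [pow_succ] at h2
    linarith

theorem sig_zero (m : ℕ) : sig m 0 = 1 := by
  induction m with
  | zero => simp [sig]
  | succ m ih => simp [sig, ih, step]

theorem zero_mem_Nm (m : ℕ) : (0 : ℝ) ∈ Nm m := by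
  refine ⟨0, by rw [sig_zero]; exact one_pos, by simp, by simp⟩

theorem Nm_sub_Icc (m : ℕ) : Nm m ⊆ Set.Icc 0 1 := by
  rintro x ⟨j, hj, h1, h2⟩
  obtain ⟨h3, h5⟩ := sig_support m j hj
  have h4 : (0 : ℝ) < 4 ^ m := by positivity
  constructor
  · have : (0 : ℝ) ≤ (j : ℝ) := by exact_mod_cast h3
    by_contra hx
    push Not at hx
    have := mul_neg_of_pos_of_neg h4 hx
    linarith
  · have h6 : j + 1 ≤ 4 ^ m := h5
    have h7 : (j : ℝ) + 1 ≤ 4 ^ m := by exact_mod_cast h6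
    have h8 : (4 : ℝ) ^ m * x ≤ 4 ^ m * 1 := by linarith
    exact le_of_mul_le_mul_left h8 h4

theorem sum_four (F : ℕ → ℝ) (n : ℕ) : ∑ j ∈ Finset.range (4 * n), F j =
    ∑ i ∈ Finset.range n, (F (4 * i) + F (4 * i + 1) + F (4 * i + 2) + F (4 * i + 3)) := by
  induction n with
  | zero => simp
  | succ n ih =>
    rw [Finset.sum_range_succ, ← ih, show 4 * (n + 1) = 4 * n + 1 + 1 + 1 + 1 by ring,
      Finset.sum_range_succ, Finset.sum_range_succ, Finset.sum_range_succ, Finset.sum_range_succ]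
    ring

theorem sum_act (m k : ℕ) : ∑ j ∈ Finset.range (4 ^ m), act k (sig m (j : ℤ)) = 4 ^ m * act (m + k) 1 := by
  induction m generalizing k with
  | zero => simp [sig]
  | succ m ih =>
    rw [pow_succ, mul_comm (4 ^ m) 4, sum_four]
    have h1 : ∀ i ∈ Finset.range (4 ^ m), (act k (sig (m + 1) ((4 * i : ℕ) : ℤ)) +
        act k (sig (m + 1) ((4 * i + 1 : ℕ) : ℤ)) + act k (sig (m + 1) ((4 * i + 2 : ℕ) : ℤ)) +
        act k (sig (m + 1) ((4 * i + 3 : ℕ) : ℤ))) = 4 * act (k + 1) (sig m (i : ℤ)) := by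
      intro i _
      simp only [sig]
      have a0 : ((4 * i : ℕ) : ℤ) / 4 = i := by omega
      have a1 : ((4 * i + 1 : ℕ) : ℤ) / 4 = i := by omega
      have a2 : ((4 * i + 2 : ℕ) : ℤ) / 4 = i := by omega
      have a3 : ((4 * i + 3 : ℕ) : ℤ) / 4 = i := by omega
      have b0 : ((4 * i : ℕ) : ℤ) % 4 = 0 := by omega
      have b1 : ((4 * i + 1 : ℕ) : ℤ) % 4 = 1 := by omega
      have b2 : ((4 * i + 2 : ℕ) : ℤ) % 4 = 2 := by omega
      have b3 : ((4 * i + 3 : ℕ) : ℤ) % 4 = 3 := by omega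
      rw [a0, a1, a2, a3, b0, b1, b2, b3]
      simp only [step, act]
      split_ifs with h0 <;> simp_all
      · cases k <;> simp [act]
      · ring
    rw [Finset.sum_congr rfl h1, ← Finset.mul_sum, ih]
    rw [show m + 1 + k = m + (k + 1) by ring]
    push_cast
    ring

theorem volume_Nm (m : ℕ) : volume (Nm m) ≤ ENNReal.ofReal (act m 1) := by
  have h4 : (0 : ℝ) < 4 ^ m := by positivity
  have hcard : (((Finset.range (4 ^ m)).filter (fun j : ℕ => 0 < sig m (j : ℤ))).card : ℝ) =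
      4 ^ m * act m 1 := by
    have h0 := sum_act m 0
    rw [Nat.add_zero] at h0
    rw [← h0, Finset.card_filter]
    push_cast
    apply Finset.sum_congr rfl
    intro j _
    simp only [act]
    rcases Nat.eq_zero_or_pos (sig m (j : ℤ)) with h0 | h0
    · simp [h0]
    · simp [h0, h0.ne']
  rw [Nm_eq]
  refine (measure_biUnion_finset_le _ _).trans ?_
  have hvol : ∀ j ∈ (Finset.range (4 ^ m)).filter (fun j : ℕ => 0 < sig m (j : ℤ)),
      volume (Set.Icc ((j : ℝ) / 4 ^ m) (((j : ℝ) + 1) / 4 ^ m)) = ENNReal.ofReal (1 / 4 ^ m) := by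
    intro j _
    rw [Real.volume_Icc]
    congr 1
    ring
  rw [Finset.sum_congr rfl hvol, Finset.sum_const, nsmul_eq_mul,
    ← ENNReal.ofReal_natCast, ← ENNReal.ofReal_mul (by positivity)]
  apply ENNReal.ofReal_le_ofReal
  rw [hcard]
  apply le_of_eq
  field_simp

/-- step function of densities at level m -/
noncomputable def g (m : ℕ) (x : ℝ) : ℝ := sig m ⌊(4 : ℝ) ^ m * x⌋

/-- distribution function at level m -/
noncomputable def Fm (m : ℕ) (x : ℝ) : ℝ := ∫ t in (0:ℝ)..x, g m t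

theorem rc_sig_le : ∀ (m : ℕ) (j : ℤ), sig m j ≤ m + 1
  | 0, j => by unfold sig; split_ifs <;> omega
  | m + 1, j => by
    have h := rc_sig_le m (j / 4)
    unfold sig step
    split_ifs <;> omega

theorem rc_sig_zero : ∀ (m : ℕ) (j : ℤ), ¬ (0 ≤ j ∧ j < 4 ^ m) → sig m j = 0
  | 0, j, h => by
    unfold sig
    rw [if_neg]
    intro h0
    apply h
    rw [h0]; norm_num
  | m + 1, j, h => by
    have h1 : sig m (j / 4) = 0 := by
      apply rc_sig_zero m
      rintro ⟨h2, h3⟩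
      apply h
      rw [pow_succ]
      constructor
      · omega
      · omega
    unfold sig step
    rw [h1, if_pos rfl]

theorem rc_floor4 (y : ℝ) : ⌊4 * y⌋ / 4 = ⌊y⌋ := by
  have h1 : ((⌊y⌋ : ℤ) : ℝ) ≤ y := Int.floor_le y
  have h2 : y < ⌊y⌋ + 1 := Int.lt_floor_add_one y
  have h3 : 4 * ⌊y⌋ ≤ ⌊4 * y⌋ := by
    rw [Int.le_floor]; push_cast; linarith
  have h4 : ⌊4 * y⌋ < 4 * ⌊y⌋ + 4 := by
    rw [Int.floor_lt]; push_cast; linarith
  omega

theorem rc_step_abs (w : ℕ) (d : ℤ) : |((step w d : ℕ) : ℝ) - w| ≤ 1 := by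
  have h1 : step w d ≤ w + 1 := by unfold step; split_ifs <;> omega
  have h2 : w ≤ step w d + 1 := by unfold step; split_ifs <;> omega
  have h1' : ((step w d : ℕ) : ℝ) ≤ w + 1 := by exact_mod_cast h1
  have h2' : (w : ℝ) ≤ step w d + 1 := by exact_mod_cast h2
  rw [abs_le]
  constructor <;> linarith

theorem rc_g_succ (m : ℕ) (x : ℝ) : g (m + 1) x = step (sig m ⌊(4:ℝ) ^ m * x⌋) (⌊(4:ℝ) ^ (m + 1) * x⌋ % 4) := by
  unfold g
  have h : ⌊(4:ℝ) ^ (m + 1) * x⌋ / 4 = ⌊(4:ℝ) ^ m * x⌋ := by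
    rw [pow_succ, mul_comm ((4:ℝ) ^ m) 4, mul_assoc, rc_floor4]
  conv_lhs => unfold sig
  rw [h]

theorem rc_g_diff (m : ℕ) (x : ℝ) : |g (m + 1) x - g m x| ≤ 1 := by
  rw [rc_g_succ]
  exact rc_step_abs _ _

theorem rc_g_nonneg (m : ℕ) (x : ℝ) : 0 ≤ g m x := by unfold g; positivity

theorem rc_g_le (m : ℕ) (x : ℝ) : g m x ≤ m + 1 := by
  unfold g; exact_mod_cast rc_sig_le m _

theorem rc_g_meas (m : ℕ) : Measurable (g m) := by
  have h1 : Measurable fun j : ℤ => ((sig m j : ℕ) : ℝ) := measurable_from_top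
  exact h1.comp (Int.measurable_floor.comp (measurable_const.mul measurable_id))

theorem rc_g_int (m : ℕ) (a b : ℝ) : IntervalIntegrable (g m) volume a b := by
  refine (intervalIntegrable_const (c := (m : ℝ) + 1)).mono_fun' (rc_g_meas m).aestronglyMeasurable ?_
  refine Filter.Eventually.of_forall fun x => ?_
  show ‖g m x‖ ≤ _
  rw [Real.norm_of_nonneg (rc_g_nonneg m x)]
  exact rc_g_le m x

theorem rc_const (f : ℝ → ℝ) (a b c : ℝ) (hab : a ≤ b) (h : ∀ x ∈ Set.Ioo a b, f x = c) :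
    ∫ x in a..b, f x = c * (b - a) := by
  rw [intervalIntegral.integral_of_le hab, integral_Ioc_eq_integral_Ioo,
    setIntegral_congr_fun measurableSet_Ioo h, setIntegral_const]
  simp [measureReal_def, Real.volume_Ioo, hab, mul_comm]

theorem rc_cell (m : ℕ) (j : ℤ) (x : ℝ) (hx : x ∈ Set.Ioo ((j:ℝ) / 4 ^ m) ((j + 1) / 4 ^ m)) :
    ⌊(4:ℝ) ^ m * x⌋ = j := by
  have h4 : (0:ℝ) < 4 ^ m := by positivity
  rw [Int.floor_eq_iff]
  constructor
  · have := hx.1
    rw [div_lt_iff₀ h4] at this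
    linarith
  · have := hx.2
    rw [lt_div_iff₀ h4] at this
    linarith

theorem rc_cell_int (m : ℕ) (j : ℤ) : ∫ x in ((j:ℝ) / 4 ^ m)..((j + 1) / 4 ^ m), g m x =
    sig m j / 4 ^ m := by
  have h4 : (0:ℝ) < 4 ^ m := by positivity
  rw [rc_const (g m) _ _ (sig m j) (by apply div_le_div_of_nonneg_right _ h4.le; linarith)]
  · rw [← sub_div]; field_simp; ring
  · intro x hx
    unfold g
    rw [rc_cell m j x hx]

theorem rc_cell_succ (m : ℕ) (j : ℤ) : ∫ x in ((j:ℝ) / 4 ^ m)..((j + 1) / 4 ^ m), g (m + 1) x =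
    sig m j / 4 ^ m := by
  have h4 : (0:ℝ) < 4 ^ m := by positivity
  have hk : ∀ k : ℤ, 0 ≤ k → k < 4 → ∫ x in (((4 * j + k : ℤ):ℝ) / 4 ^ (m + 1))..((((4 * j + k : ℤ):ℝ) + 1) / 4 ^ (m + 1)),
      g (m + 1) x = step (sig m j) k / 4 ^ (m + 1) := by
    intro k hk0 hk4
    rw [rc_cell_int]
    have h1 : (4 * j + k) / 4 = j := by omega
    have h2 : (4 * j + k) % 4 = k := by omega
    conv_lhs => unfold sig
    rw [h1, h2]
  have e0 : (j:ℝ) / 4 ^ m = ((4 * j + 0 : ℤ):ℝ) / 4 ^ (m + 1) := by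
    push_cast; rw [pow_succ]; field_simp; ring
  have e1 : (((4 * j + 0 : ℤ):ℝ) + 1) / 4 ^ (m + 1) = ((4 * j + 1 : ℤ):ℝ) / 4 ^ (m + 1) := by
    push_cast; ring
  have e2 : (((4 * j + 1 : ℤ):ℝ) + 1) / 4 ^ (m + 1) = ((4 * j + 2 : ℤ):ℝ) / 4 ^ (m + 1) := by
    push_cast; ring
  have e3 : (((4 * j + 2 : ℤ):ℝ) + 1) / 4 ^ (m + 1) = ((4 * j + 3 : ℤ):ℝ) / 4 ^ (m + 1) := by
    push_cast; ring
  have e4 : (((4 * j + 3 : ℤ):ℝ) + 1) / 4 ^ (m + 1) = ((j:ℝ) + 1) / 4 ^ m := by
    push_cast; rw [pow_succ]; field_simp; ring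
  have h0 := hk 0 (by norm_num) (by norm_num)
  have h1 := hk 1 (by norm_num) (by norm_num)
  have h2 := hk 2 (by norm_num) (by norm_num)
  have h3 := hk 3 (by norm_num) (by norm_num)
  rw [e1] at h0
  rw [e2] at h1
  rw [e3] at h2
  rw [e4] at h3
  rw [← e0] at h0
  have hi := fun a b => rc_g_int (m + 1) a b
  rw [← intervalIntegral.integral_add_adjacent_intervals (hi _ (((4 * j + 3 : ℤ):ℝ) / 4 ^ (m + 1)))
    (hi _ _), ← intervalIntegral.integral_add_adjacent_intervals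
    (hi _ (((4 * j + 2 : ℤ):ℝ) / 4 ^ (m + 1))) (hi _ _),
    ← intervalIntegral.integral_add_adjacent_intervals
    (hi _ (((4 * j + 1 : ℤ):ℝ) / 4 ^ (m + 1))) (hi _ _), h0, h1, h2, h3]
  have hs : (step (sig m j) 0 : ℝ) + step (sig m j) 1 + step (sig m j) 2 + step (sig m j) 3 =
      4 * sig m j := by
    have : step (sig m j) 0 + step (sig m j) 1 + step (sig m j) 2 + step (sig m j) 3 =
      4 * sig m j := by
      unfold step
      by_cases hw : sig m j = 0
      · simp [hw]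
      · simp only [hw, if_false]
        norm_num
        omega
    exact_mod_cast this
  rw [← add_div, ← add_div, ← add_div, hs, pow_succ]
  field_simp

theorem rc_node_nat (m : ℕ) (k : ℕ) : Fm (m + 1) ((k:ℝ) / 4 ^ m) = Fm m ((k:ℝ) / 4 ^ m) := by
  induction k with
  | zero => simp [Fm]
  | succ k ih =>
    unfold Fm at *
    rw [← intervalIntegral.integral_add_adjacent_intervals (rc_g_int (m + 1) 0 ((k:ℝ) / 4 ^ m))
      (rc_g_int (m + 1) _ _), ← intervalIntegral.integral_add_adjacent_intervals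
      (rc_g_int m 0 ((k:ℝ) / 4 ^ m)) (rc_g_int m _ _), ih]
    congr 1
    have h1 := rc_cell_int m k
    have h2 := rc_cell_succ m k
    push_cast at h1 h2 ⊢
    rw [h1, h2]

theorem Fm_continuous (m : ℕ) : Continuous (Fm m) :=
  intervalIntegral.continuous_primitive (fun a b => rc_g_int m a b) 0

theorem Fm_nonpos (m : ℕ) (x : ℝ) (hx : x ≤ 0) : Fm m x = 0 := by
  unfold Fm
  rw [intervalIntegral.integral_symm, rc_const (g m) x 0 0 hx, zero_mul, neg_zero]
  intro t ht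
  unfold g
  rw [rc_sig_zero]
  · norm_num
  · rintro ⟨h, _⟩
    have h4 : (0:ℝ) < 4 ^ m := by positivity
    have h5 := Int.floor_nonneg.1 h
    nlinarith [ht.2]

theorem Fm_step (m : ℕ) (x : ℝ) : |Fm (m + 1) x - Fm m x| ≤ (1 / 4) ^ m := by
  by_cases hx : x ≤ 0
  · rw [Fm_nonpos _ _ hx, Fm_nonpos _ _ hx]
    simp
  push Not at hx
  have h4 : (0:ℝ) < 4 ^ m := by positivity
  obtain ⟨k, hk⟩ : ∃ k : ℕ, k = ⌊(4:ℝ) ^ m * x⌋₊ := ⟨_, rfl⟩
  have hk1 : (k:ℝ) ≤ 4 ^ m * x := by rw [hk]; exact Nat.floor_le (by positivity)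
  have hk2 : 4 ^ m * x < (k:ℝ) + 1 := by rw [hk]; exact Nat.lt_floor_add_one _
  have h1 : (k:ℝ) / 4 ^ m ≤ x := by rw [div_le_iff₀ h4]; linarith
  have h2 : x < ((k:ℝ) + 1) / 4 ^ m := by rw [lt_div_iff₀ h4]; linarith
  have hnode := rc_node_nat m k
  have e : Fm (m + 1) x - Fm m x = ∫ t in ((k:ℝ) / 4 ^ m)..x, (g (m + 1) t - g m t) := by
    rw [intervalIntegral.integral_sub (rc_g_int _ _ _) (rc_g_int _ _ _)]
    unfold Fm at *
    rw [← intervalIntegral.integral_add_adjacent_intervals (rc_g_int (m + 1) 0 ((k:ℝ) / 4 ^ m))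
      (rc_g_int (m + 1) _ _), ← intervalIntegral.integral_add_adjacent_intervals
      (rc_g_int m 0 ((k:ℝ) / 4 ^ m)) (rc_g_int m _ _), hnode]
    ring
  rw [e, ← Real.norm_eq_abs]
  refine (intervalIntegral.norm_integral_le_of_norm_le_const (C := 1) ?_).trans ?_
  · intro t _
    exact rc_g_diff m t
  · rw [one_mul, abs_of_nonneg (by linarith)]
    have e2 : ((k:ℝ) + 1) / 4 ^ m = (k:ℝ) / 4 ^ m + (1 / 4) ^ m := by
      rw [one_div, inv_pow]; field_simp
    linarith

theorem rc_one (m : ℕ) : Fm m 1 = 1 := by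
  induction m with
  | zero =>
    unfold Fm
    rw [rc_const (g 0) 0 1 1 zero_le_one]
    · norm_num
    · intro x hx
      unfold g
      have : ⌊(4:ℝ) ^ 0 * x⌋ = 0 := by
        rw [Int.floor_eq_zero_iff]
        simp only [pow_zero, one_mul, Set.mem_Ico]
        exact ⟨hx.1.le, hx.2⟩
      rw [this]
      simp [sig]
  | succ m ih =>
    have h := rc_node_nat m (4 ^ m)
    have h4 : (4:ℝ) ^ m ≠ 0 := by positivity
    push_cast at h
    rw [div_self h4, ih] at h
    exact h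

theorem Fm_one_le (m : ℕ) (x : ℝ) (hx : 1 ≤ x) : Fm m x = 1 := by
  have h1 := rc_one m
  unfold Fm at *
  rw [← intervalIntegral.integral_add_adjacent_intervals (rc_g_int m 0 1) (rc_g_int m 1 x), h1,
    rc_const (g m) 1 x 0 hx, zero_mul, add_zero]
  intro t ht
  unfold g
  rw [rc_sig_zero]
  · norm_num
  · rintro ⟨_, h⟩
    rw [Int.floor_lt] at h
    push_cast at h
    have h4 : (0:ℝ) < 4 ^ m := by positivity
    nlinarith [ht.1]

theorem Fm_mem (m : ℕ) (x : ℝ) : 0 ≤ Fm m x ∧ Fm m x ≤ 1 := by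
  by_cases hx : x ≤ 0
  · rw [Fm_nonpos m x hx]; exact ⟨le_rfl, zero_le_one⟩
  push Not at hx
  by_cases hx1 : 1 ≤ x
  · rw [Fm_one_le m x hx1]; exact ⟨zero_le_one, le_rfl⟩
  push Not at hx1
  constructor
  · unfold Fm
    exact intervalIntegral.integral_nonneg hx.le (fun t _ => rc_g_nonneg m t)
  · have h1 := rc_one m
    unfold Fm at *
    rw [← intervalIntegral.integral_add_adjacent_intervals (rc_g_int m 0 x) (rc_g_int m x 1)] at h1
    have h2 : 0 ≤ ∫ t in x..1, g m t :=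
      intervalIntegral.integral_nonneg hx1.le (fun t _ => rc_g_nonneg m t)
    linarith

theorem Fm_zyg (hadj : ∀ (m : ℕ) (j : ℤ), |(sig m (j + 1) : ℤ) - sig m j| ≤ 2)
    (m : ℕ) (x t : ℝ) (ht : 0 ≤ t) (htm : t ≤ (1 / 4) ^ m) :
    |Fm m (x + t) + Fm m (x - t) - 2 * Fm m x| ≤ 6 * t := by
  have h4 : (0:ℝ) < 4 ^ m := by positivity
  have htm' : (4:ℝ) ^ m * t ≤ 1 := by
    calc (4:ℝ) ^ m * t ≤ 4 ^ m * (1 / 4) ^ m := mul_le_mul_of_nonneg_left htm h4.le
      _ = 1 := by rw [← mul_pow]; norm_num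
  have hnear : ∀ y, |y - x| ≤ t → |g m y - g m x| ≤ 2 := by
    intro y hy
    rw [abs_le] at hy
    have h1 : (4:ℝ) ^ m * y ≤ 4 ^ m * x + 1 := by nlinarith
    have h2 : (4:ℝ) ^ m * x ≤ 4 ^ m * y + 1 := by nlinarith
    have f1 : ⌊(4:ℝ) ^ m * y⌋ ≤ ⌊(4:ℝ) ^ m * x⌋ + 1 := by
      have := Int.floor_le_floor h1
      rwa [Int.floor_add_one] at this
    have f2 : ⌊(4:ℝ) ^ m * x⌋ ≤ ⌊(4:ℝ) ^ m * y⌋ + 1 := by
      have := Int.floor_le_floor h2
      rwa [Int.floor_add_one] at this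
    unfold g
    obtain ⟨a, ha⟩ : ∃ a, a = ⌊(4:ℝ) ^ m * x⌋ := ⟨_, rfl⟩
    obtain ⟨b, hb⟩ : ∃ b, b = ⌊(4:ℝ) ^ m * y⌋ := ⟨_, rfl⟩
    rw [← ha, ← hb] at f1 f2 ⊢
    have h3 : b = a ∨ b = a + 1 ∨ a = b + 1 := by omega
    have h5 : |((sig m b : ℕ) : ℤ) - sig m a| ≤ 2 := by
      rcases h3 with h3 | h3 | h3
      · rw [h3]; simp
      · rw [h3]; exact hadj m a
      · rw [h3, abs_sub_comm]; exact hadj m b
    exact_mod_cast h5
  have hR : |(∫ s in x..(x + t), g m s) - t * g m x| ≤ 2 * t := by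
    have e : (∫ s in x..(x + t), g m s) - t * g m x = ∫ s in x..(x + t), (g m s - g m x) := by
      rw [intervalIntegral.integral_sub (rc_g_int _ _ _) intervalIntegrable_const]
      simp
    rw [e, ← Real.norm_eq_abs]
    refine (intervalIntegral.norm_integral_le_of_norm_le_const (C := 2) ?_).trans ?_
    · intro s hs
      rw [Set.uIoc_of_le (by linarith)] at hs
      rw [Real.norm_eq_abs]
      apply hnear
      rw [abs_le]
      constructor <;> linarith [hs.1, hs.2]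
    · rw [add_sub_cancel_left, abs_of_nonneg ht]
  have hL : |(∫ s in (x - t)..x, g m s) - t * g m x| ≤ 2 * t := by
    have e : (∫ s in (x - t)..x, g m s) - t * g m x = ∫ s in (x - t)..x, (g m s - g m x) := by
      rw [intervalIntegral.integral_sub (rc_g_int _ _ _) intervalIntegrable_const]
      simp
    rw [e, ← Real.norm_eq_abs]
    refine (intervalIntegral.norm_integral_le_of_norm_le_const (C := 2) ?_).trans ?_
    · intro s hs
      rw [Set.uIoc_of_le (by linarith)] at hs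
      rw [Real.norm_eq_abs]
      apply hnear
      rw [abs_le]
      constructor <;> linarith [hs.1, hs.2]
    · rw [sub_sub_cancel, abs_of_nonneg ht]
  have e1 : Fm m (x + t) = Fm m x + ∫ s in x..(x + t), g m s := by
    unfold Fm
    rw [intervalIntegral.integral_add_adjacent_intervals (rc_g_int _ _ _) (rc_g_int _ _ _)]
  have e2 : Fm m x = Fm m (x - t) + ∫ s in (x - t)..x, g m s := by
    unfold Fm
    rw [intervalIntegral.integral_add_adjacent_intervals (rc_g_int _ _ _) (rc_g_int _ _ _)]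
  have e3 : Fm m (x + t) + Fm m (x - t) - 2 * Fm m x =
      ((∫ s in x..(x + t), g m s) - t * g m x) - ((∫ s in (x - t)..x, g m s) - t * g m x) := by
    linarith
  rw [e3]
  calc _ ≤ |(∫ s in x..(x + t), g m s) - t * g m x| + |(∫ s in (x - t)..x, g m s) - t * g m x| :=
        abs_sub _ _
    _ ≤ 2 * t + 2 * t := add_le_add hR hL
    _ ≤ 6 * t := by linarith

theorem Fm_const (m : ℕ) (a b : ℝ) (hab : a ≤ b)
    (h : ∀ x ∈ Set.Icc a b, g m x = 0) (y : ℝ) (hy : y ∈ Set.Icc a b) : Fm m y = Fm m a := by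
  unfold Fm
  rw [← intervalIntegral.integral_add_adjacent_intervals (rc_g_int m 0 a) (rc_g_int m a y),
    rc_const (g m) a y 0 hy.1, zero_mul, add_zero]
  intro x hx
  exact h x ⟨hx.1.le, hx.2.le.trans hy.2⟩

end Pool.Agent.Helper960.Rou.Zyg
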